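import Pool.Agent.Lib.MP_49b2f4_co.Tree
import Mathlib.Data.Real.Basic
import Mathlib.Algebra.Order.BigOperators.Ring.Finset
import Mathlib.Algebra.BigOperators.Group.List.Basic
import Mathlib.Data.Fintype.BigOperators
import Mathlib.Order.Interval.Finset.Nat

/-! One positive semidefinite block of the certificate. -/

namespace Pool.Agent.Lib.MP_49b2f4_co

open Finset

structure Blk where
  t : ℕ
  r : ℕ
  n : ℕ
  rows : Tr
  qt : Tr

noncomputable def col (t : Tr) (k : ℕ) : List ℕ := look t k (fun _ _ _ s => s) []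
noncomputable def gq (t : Tr) (i : ℕ) : ℕ := look t i (fun _ a _ _ => a) 0
noncomputable def gl (t : Tr) (i : ℕ) : ℕ := look t i (fun _ _ b _ => b) 0
noncomputable def row (B : Blk) (k : ℕ) : ℕ :=
  look B.rows k (fun _ a _ _ => a) (cst 41 2097152 10)

noncomputable def qe (t : Tr) (i j : ℕ) : ℕ :=
  cond (Nat.ble i j) (fl 58 (gq t j) i) (fl 58 (gq t i) j)

noncomputable def Qt (t : Tr) (i j : ℕ) : ℤ := (qe t i j : ℤ) - 2097152

theorem Qt_symm (t : Tr) (i j : ℕ) : Qt t i j = Qt t j i := by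
  unfold Qt qe
  rw [cond_ble, cond_ble]
  rcases lt_trichotomy i j with h | h | h
  · rw [if_pos h.le, if_neg (by omega)]
  · subst h; rfl
  · rw [if_neg (by omega), if_pos h.le]

def sg (e : ℕ) : ℤ := if e % 2 = 0 then 1 else -1

noncomputable def Qb (B : Blk) (k1 k2 : ℕ) : ℤ :=
  ((col B.rows k2).map fun e' =>
    ((col B.rows k1).map fun e => sg e * sg e' * Qt B.qt (e / 2) (e' / 2)).sum).sum

noncomputable def sumL (l : List ℕ) (f : ℕ → ℕ) : ℕ :=
  List.rec (motive := fun _ => ℕ) 0 (fun e _ acc => Nat.add acc (f e)) l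

theorem sumL_eq (l : List ℕ) (f : ℕ → ℕ) : (sumL l f : ℤ) = (l.map fun e => (f e : ℤ)).sum := by
  induction l with
  | nil => rfl
  | cons e l ih =>
    have : sumL (e :: l) f = sumL l f + f e := rfl
    rw [this, List.map_cons, List.sum_cons, ← ih]; push_cast; ring

noncomputable def allL (l : List ℕ) (f : ℕ → Bool) : Bool :=
  List.rec (motive := fun _ => Bool) true (fun e _ acc => cond (f e) acc false) l

theorem allL_spec {f : ℕ → Bool} : ∀ {l : List ℕ}, allL l f = true → ∀ e ∈ l, f e = true := by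
  intro l
  induction l with
  | nil => intro _ e he; simp at he
  | cons a l ih =>
    intro h e he
    have h' : cond (f a) (allL l f) false = true := h
    rcases List.mem_cons.1 he with rfl | he
    · exact (band h').1
    · exact ih (band h').2 e he

noncomputable def aq (t : Tr) (e e' : ℕ) : ℕ :=
  cond (Nat.beq (Nat.land (Nat.xor e e') 1) 0) (qe t (Nat.shiftRight e 1) (Nat.shiftRight e' 1))
    (Nat.sub 4194304 (qe t (Nat.shiftRight e 1) (Nat.shiftRight e' 1)))

theorem aq_eq (t : Tr) (e e' : ℕ) (h : qe t (e / 2) (e' / 2) ≤ 4194304) :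
    (aq t e e' : ℤ) = 2097152 + sg e * sg e' * Qt t (e / 2) (e' / 2) := by
  have e1 : ∀ x : ℕ, Nat.shiftRight x 1 = x / 2 := fun x => Nat.shiftRight_one x
  have e2 : Nat.land (Nat.xor e e') 1 = (e ^^^ e') % 2 := Nat.and_one_is_mod _
  have e3 := @Nat.xor_mod_two_eq_one e e'
  unfold aq Qt sg
  rw [cond_beq, e1, e1, e2]
  have e4 : Nat.sub 4194304 (qe t (e / 2) (e' / 2)) = 4194304 - qe t (e / 2) (e' / 2) := rfl
  rw [e4]
  by_cases h1 : e % 2 = 0 <;> by_cases h2 : e' % 2 = 0
  · rw [if_pos (by omega), if_pos h1, if_pos h2]; ring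
  · rw [if_neg (by omega), if_pos h1, if_neg h2, Nat.cast_sub h]; push_cast; ring
  · rw [if_neg (by omega), if_neg h1, if_pos h2, Nat.cast_sub h]; push_cast; ring
  · rw [if_pos (by omega), if_neg h1, if_neg h2]; ring

noncomputable def entchk (B : Blk) (a : ℕ) (s : List ℕ) (k : ℕ) : Bool :=
  Nat.beq (Nat.add (fl 41 a k) (sumL (col B.rows k) (fun e' => sumL s (fun e => aq B.qt e e'))))
    (Nat.add 2097152 (Nat.mul (Nat.mul 2097152 (sumL s (fun _ => 1)))
      (sumL (col B.rows k) (fun _ => 1))))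

noncomputable def rowchk (B : Blk) (lo m a : ℕ) (s : List ℕ) : Bool :=
  cond (Nat.beq (Nat.land a (cst 41 4194303 10)) a)
    (cond (allL s (fun e => Nat.ble (Nat.succ (Nat.shiftRight e 1)) B.r))
      (allN m (fun k => entchk B a s (Nat.add lo k))) false) false

noncomputable def rowsF (B : Blk) (lo m : ℕ) : ℕ → ℕ → ℕ → List ℕ → Bool :=
  fun _ a _ s => cond (rowchk B lo m a s) true false

def Cover (B : Blk) : Prop :=
  0 < B.n ∧ ∀ k < B.n, ∃ lo m, lo ≤ k ∧ k < lo + m ∧ allT B.rows (rowsF B lo m) = true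

theorem cover1 {B : Blk} (hn : B.n = 65) (h : allT B.rows (rowsF B 0 65) = true) : Cover B :=
  ⟨by omega, fun k hk => ⟨0, 65, by omega, by omega, h⟩⟩

theorem cover4 {B : Blk} (hn : B.n = 528) (h0 : allT B.rows (rowsF B 0 132) = true)
    (h1 : allT B.rows (rowsF B 132 132) = true) (h2 : allT B.rows (rowsF B 264 132) = true)
    (h3 : allT B.rows (rowsF B 396 132) = true) : Cover B := by
  refine ⟨by omega, fun k hk => ?_⟩
  by_cases c0 : k < 132
  · exact ⟨0, 132, by omega, by omega, h0⟩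
  by_cases c1 : k < 264
  · exact ⟨132, 132, by omega, by omega, h1⟩
  by_cases c2 : k < 396
  · exact ⟨264, 132, by omega, by omega, h2⟩
  · exact ⟨396, 132, by omega, by omega, h3⟩

noncomputable def sumF (i r : ℕ) (f : ℕ → ℕ) : ℕ :=
  Nat.rec (motive := fun _ => ℕ) 0 (fun k acc => cond (Nat.ble i k) (Nat.add acc (f k)) acc) r

theorem fld_sumF {W B i : ℕ} {f : ℕ → ℕ} : ∀ r, (∀ k < r, Bnd W (f k) B) → r * B < 2 ^ W →
    Bnd W (sumF i r f) (r * B) ∧
      ∀ j, fld W (sumF i r f) j = ∑ k ∈ range r, if i ≤ k then fld W (f k) j else 0 := by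
  intro r
  induction r with
  | zero => intro _ _; exact ⟨bnd_zero _ _, fun j => fld_zero _ _⟩
  | succ r ih =>
    intro h hb
    rw [Nat.succ_mul] at hb ⊢
    obtain ⟨h1, h2⟩ := ih (fun k hk => h k (by omega)) (by omega)
    have e : sumF i (r + 1) f = cond (Nat.ble i r) (sumF i r f + f r) (sumF i r f) := rfl
    rw [e, cond_ble]
    by_cases c : i ≤ r
    · rw [if_pos c]
      refine ⟨h1.add (h r (by omega)) hb, fun j => ?_⟩
      rw [h1.fld_add (h r (by omega)) hb, sum_range_succ, if_pos c, h2]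
    · rw [if_neg c]
      refine ⟨h1.mono (by omega), fun j => ?_⟩
      rw [sum_range_succ, if_neg c, h2, Nat.add_zero]

noncomputable def pe (x y : ℕ) (d : Bool) : Bool :=
  cond d (Nat.ble (Nat.add y 2147483648) x)
    (cond (Nat.ble y (Nat.add x 8388608)) (Nat.ble x (Nat.add y 8388608)) false)

noncomputable def psdrow (q S A i c : ℕ) : Bool :=
  allN (Nat.succ i) (fun j => pe
    (Nat.add (Nat.mul 67108864 (fl 58 q j)) (Nat.mul 16777216 (Nat.add (fl 58 S j) (fl 58 S i))))
    (Nat.add (fl 58 A j) (Nat.add 140737488355328 (Nat.mul c 281474976710656))) (Nat.beq j i))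

noncomputable def psdchk (B : Blk) : Bool :=
  cond (Nat.ble B.r 255) (cond (Nat.ble B.n 1024) (allN B.r (fun i =>
    cond (Nat.beq (Nat.land (gq B.qt i) (cst 58 4194303 8)) (gq B.qt i))
      (cond (Nat.beq (Nat.land (gl B.qt i) (cst 58 33554431 8)) (gl B.qt i))
        (psdrow (gq B.qt i) (sumF i B.r (gl B.qt))
          (sumF i B.r (fun k => Nat.mul (fl 58 (gl B.qt k) i) (gl B.qt k))) i (Nat.sub B.r i))
        false) false)) false) false

def Psd (Q : ℕ → ℕ → ℤ) : Prop :=
  ∀ (ι : Type) [Fintype ι] (a : ι → ℝ) (κ : ι → ℕ), 0 ≤ ∑ s, ∑ t, a s * a t * (Q (κ s) (κ t) : ℝ)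

theorem diag_dom (r : ℕ) (E : ℕ → ℕ → ℝ) (e : ℝ) (he : 0 ≤ e)
    (h1 : ∀ i < r, r * e ≤ E i i) (h2 : ∀ i < r, ∀ j < r, i ≠ j → |E i j| ≤ e) (w : ℕ → ℝ) :
    0 ≤ ∑ i ∈ range r, ∑ j ∈ range r, w i * w j * E i j := by
  have key : ∀ i ∈ range r, ∀ j ∈ range r,
      (if i = j then r * e * w i ^ 2 else 0) - e / 2 * w i ^ 2 - e / 2 * w j ^ 2 ≤
        w i * w j * E i j := by
    intro i hi j hj
    rw [mem_range] at hi hj
    by_cases c : i = j
    · subst c
      rw [if_pos rfl]
      have := h1 i hi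
      nlinarith [sq_nonneg (w i), mul_nonneg he (sq_nonneg (w i)),
        mul_le_mul_of_nonneg_right this (sq_nonneg (w i))]
    · rw [if_neg c]
      obtain ⟨a, b⟩ := abs_le.1 (h2 i hi j hj c)
      have p1 : 0 ≤ (e + E i j) * (w i + w j) ^ 2 := mul_nonneg (by linarith) (sq_nonneg _)
      have p2 : 0 ≤ (e - E i j) * (w i - w j) ^ 2 := mul_nonneg (by linarith) (sq_nonneg _)
      nlinarith
  refine le_trans (le_of_eq ?_) (sum_le_sum fun i hi => sum_le_sum fun j hj => key i hi j hj)
  simp only [sum_sub_distrib, sum_ite_eq, sum_const, card_range, nsmul_eq_mul]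
  rw [sum_congr rfl (fun i hi => if_pos hi), ← mul_sum, ← mul_sum, ← mul_sum]
  ring

theorem sum_sq_form (r : ℕ) (L : ℕ → ℕ → ℝ) (w : ℕ → ℝ) :
    ∑ i ∈ range r, ∑ j ∈ range r, w i * w j * ∑ k ∈ range r, (L k i * L k j)
      = ∑ k ∈ range r, (∑ i ∈ range r, w i * L k i) ^ 2 := by
  simp only [sq, sum_mul_sum]
  symm
  rw [sum_comm]
  refine sum_congr rfl fun i _ => ?_
  rw [sum_comm]
  refine sum_congr rfl fun j _ => ?_
  rw [mul_sum]
  exact sum_congr rfl fun k _ => by ring

theorem psd_of_chk {B : Blk} (h : psdchk B = true) :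
    B.n ≤ 1024 ∧ (∀ i < B.r, ∀ j < B.r, qe B.qt i j ≤ 4194304) ∧
      ∀ w : ℕ → ℝ, 0 ≤ ∑ i ∈ range B.r, ∑ j ∈ range B.r, w i * w j * (Qt B.qt i j : ℝ) := by
  unfold psdchk at h
  obtain ⟨hr, h⟩ := band h
  obtain ⟨hn, h⟩ := band h
  have hr := ble_sp hr
  have h := allN_spec h
  have hq : ∀ i < B.r, Bnd 58 (gq B.qt i) 4194303 := fun i hi =>
    bnd_of_land (bnd_cst (by norm_num) _) (band (h i hi)).1
  have hl : ∀ i < B.r, Bnd 58 (gl B.qt i) 33554431 := fun i hi =>
    bnd_of_land (bnd_cst (by norm_num) _) (band (band (h i hi)).2).1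
  refine ⟨ble_sp hn, fun i hi j hj => ?_, fun w => ?_⟩
  · unfold qe; rw [cond_ble, fl_eq, fl_eq]
    split_ifs
    · exact (hq j hj i).trans (by norm_num)
    · exact (hq i hi j).trans (by norm_num)
  set L : ℕ → ℕ → ℤ := fun k j => if j ≤ k then (fld 58 (gl B.qt k) j : ℤ) - 16777216 else 0
    with hL
  set E : ℕ → ℕ → ℤ := fun i j => 67108864 * Qt B.qt i j - ∑ k ∈ range B.r, L k i * L k j with hE
  have hE1 : ∀ i < B.r, ∀ j ≤ i,
      if j = i then 2147483648 ≤ E i j else |E i j| ≤ 8388608 := by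
    intro i hi j hj
    have h3 := allN_spec (band (band (h i hi)).2).2 j (Nat.lt_succ_of_le hj)
    have hS := (fld_sumF (i := i) B.r hl (by omega)).2
    have hA := (fld_sumF (W := 58) (B := 33554431 * 33554431) (i := i)
      (f := fun k => Nat.mul (fl 58 (gl B.qt k) i) (gl B.qt k)) B.r (fun k hk => by
        have h4 := hl k hk i
        rw [← fl_eq] at h4
        have h5 : fl 58 (gl B.qt k) i * 33554431 ≤ 33554431 * 33554431 :=
          Nat.mul_le_mul_right _ h4
        exact ((hl k hk).mul _ (by omega)).mono h5) (by omega)).2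
    have hA' : ∀ k ∈ range B.r, (if i ≤ k then fld 58 (Nat.mul (fl 58 (gl B.qt k) i) (gl B.qt k)) j
        else 0) = if i ≤ k then fld 58 (gl B.qt k) i * fld 58 (gl B.qt k) j else 0 := by
      intro k hk
      rw [mem_range] at hk
      have h4 := hl k hk i
      have h5 : fld 58 (gl B.qt k) i * 33554431 ≤ 33554431 * 33554431 :=
          Nat.mul_le_mul_right _ h4
      rw [fl_eq, Nat.mul_eq, (hl k hk).mul_aux _ (by omega)]
    have hc : ((B.r - i : ℕ) : ℤ) = ∑ k ∈ range B.r, if i ≤ k then (1 : ℤ) else 0 := by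
      rw [← sum_filter, sum_const, nsmul_one]
      congr 1
      have : (range B.r).filter (fun k => i ≤ k) = Ico i B.r := by
        ext k; simp [and_comm]
      rw [this, Nat.card_Ico]
    have hq' : Qt B.qt i j = (fld 58 (gq B.qt i) j : ℤ) - 2097152 := by
      rw [Qt_symm]; unfold Qt qe; rw [cond_ble, if_pos hj, fl_eq]
    have hsum : ∑ k ∈ range B.r, L k i * L k j =
        (fld 58 (sumF i B.r fun k => Nat.mul (fl 58 (gl B.qt k) i) (gl B.qt k)) j : ℤ)
        - 16777216 * ((fld 58 (sumF i B.r (gl B.qt)) j : ℤ) + (fld 58 (sumF i B.r (gl B.qt)) i : ℤ))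
        + ((B.r - i : ℕ) : ℤ) * 281474976710656 := by
      rw [hA, sum_congr rfl hA', hS, hS, hc]
      push_cast
      rw [← sum_add_distrib, mul_sum, sum_mul, ← sum_sub_distrib, ← sum_add_distrib]
      refine sum_congr rfl fun k _ => ?_
      simp only [hL]
      by_cases c : i ≤ k
      · simp only [if_pos c, if_pos (hj.trans c)]; ring
      · simp only [if_neg c]; ring
    simp only [hE]
    rw [hsum, hq']
    unfold pe at h3
    simp only [fl_eq, Nat.add_eq, Nat.mul_eq, Nat.sub_eq, cond_beq] at h3 ⊢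
    generalize fld 58 (sumF i B.r fun k => fld 58 (gl B.qt k) i * gl B.qt k) j = a at *
    generalize fld 58 (sumF i B.r (gl B.qt)) j = b at *
    generalize fld 58 (sumF i B.r (gl B.qt)) i = c at *
    generalize fld 58 (gq B.qt i) j = d at *
    generalize B.r - i = m at *
    split_ifs at h3 ⊢
    · have := ble_sp h3; omega
    · have h4 := ble_sp (band h3).1
      have h5 := ble_sp (band h3).2
      rw [abs_le]; constructor <;> omega
  have hEs : ∀ i j, E i j = E j i := fun i j => by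
    simp only [hE]; rw [Qt_symm]; congr 1; exact sum_congr rfl fun k _ => mul_comm _ _
  have hd := diag_dom B.r (fun i j => (E i j : ℝ)) 8388608 (by norm_num)
    (fun i hi => by
      have := hE1 i hi i le_rfl
      rw [if_pos rfl] at this
      have h6 : (2147483648 : ℝ) ≤ (E i i : ℝ) := by exact_mod_cast this
      have h7 : (B.r : ℝ) ≤ 255 := by exact_mod_cast hr
      linarith)
    (fun i hi j hj hij => by
      have : |E i j| ≤ 8388608 := by
        rcases lt_or_gt_of_ne hij with c | c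
        · have := hE1 j hj i c.le
          rw [if_neg hij] at this; rwa [hEs]
        · have := hE1 i hi j c.le
          rwa [if_neg (Ne.symm hij)] at this
      exact_mod_cast this) w
  have hsq := sum_sq_form B.r (fun k i => (L k i : ℝ)) w
  have hpos : 0 ≤ ∑ k ∈ range B.r, (∑ i ∈ range B.r, w i * (L k i : ℝ)) ^ 2 :=
    sum_nonneg fun k _ => sq_nonneg _
  have hid : 67108864 * ∑ i ∈ range B.r, ∑ j ∈ range B.r, w i * w j * (Qt B.qt i j : ℝ) =
      ∑ i ∈ range B.r, ∑ j ∈ range B.r, w i * w j * (E i j : ℝ) +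
      ∑ i ∈ range B.r, ∑ j ∈ range B.r, w i * w j * ∑ k ∈ range B.r, ((L k i : ℝ) * L k j) := by
    rw [mul_sum, ← sum_add_distrib]
    refine sum_congr rfl fun i _ => ?_
    rw [mul_sum, ← sum_add_distrib]
    refine sum_congr rfl fun j _ => ?_
    simp only [hE]; push_cast; ring
  rw [hsq] at hid
  linarith

structure Blk.OK (B : Blk) : Prop where
  bnd : ∀ k, Bnd 41 (row B k) 4194303
  val : ∀ k1 k2, k2 < B.n → (fld 41 (row B k1) k2 : ℤ) = 2097152 - Qb B k1 k2
  symm : ∀ k1 k2, Qb B k1 k2 = Qb B k2 k1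
  psd : Psd (Qb B)

theorem list_sum_range (r : ℕ) (φ : ℕ → ℤ) : ∀ l : List ℕ, (∀ e ∈ l, e / 2 < r) →
    (l.map fun e => sg e * φ (e / 2)).sum =
      ∑ i ∈ range r, (l.map fun e => if e / 2 = i then sg e else 0).sum * φ i := by
  intro l
  induction l with
  | nil => intro _; simp
  | cons a l ih =>
    intro h
    simp only [List.map_cons, List.sum_cons, add_mul, sum_add_distrib]
    rw [ih (fun e he => h e (List.mem_cons_of_mem _ he))]
    congr 1
    rw [sum_eq_single (a / 2)]
    · simp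
    · intro b _ hb; rw [if_neg (Ne.symm hb), zero_mul]
    · intro hb; exact absurd (mem_range.2 (h a List.mem_cons_self)) hb

theorem blk_ok {B : Blk} (h1 : psdchk B = true) (h2 : Cover B) : B.OK := by
  obtain ⟨hn, hq, hp⟩ := psd_of_chk h1
  obtain ⟨lo0, m0, _, _, h0⟩ := h2.2 0 h2.1
  have hm : ∀ {k a b s}, Mem B.rows k a b s → rowchk B lo0 m0 a s = true := fun hm =>
    (band (allT_mem h0 hm)).1
  have hc : ∀ k, ∀ e ∈ col B.rows k, e / 2 < B.r := by
    intro k e he
    unfold col at he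
    rcases look_cases B.rows k with h | ⟨a, b, s, hmem, h⟩
    · rw [h] at he; simp at he
    · rw [h] at he
      have := ble_sp (allL_spec (band (band (hm hmem)).2).1 e he)
      have e1 : Nat.shiftRight e 1 = e / 2 := Nat.shiftRight_one e
      rw [e1] at this; exact this
  set β : ℕ → ℕ → ℤ := fun k i => ((col B.rows k).map fun e => if e / 2 = i then sg e else 0).sum
    with hβ
  have hQ : ∀ k1 k2, Qb B k1 k2 =
      ∑ i ∈ range B.r, ∑ j ∈ range B.r, β k1 i * β k2 j * Qt B.qt i j := by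
    intro k1 k2
    unfold Qb
    have e1 : ∀ e', ((col B.rows k1).map fun e => sg e * sg e' * Qt B.qt (e / 2) (e' / 2)).sum
        = sg e' * ∑ i ∈ range B.r, β k1 i * Qt B.qt i (e' / 2) := by
      intro e'
      rw [← list_sum_range B.r (fun i => Qt B.qt i (e' / 2)) _ (hc k1), ← List.sum_map_mul_left]
      congr 2; funext e; ring
    simp only [e1]
    rw [list_sum_range B.r (fun j => ∑ i ∈ range B.r, β k1 i * Qt B.qt i j) _ (hc k2), sum_comm]
    refine sum_congr rfl fun j _ => ?_
    rw [mul_sum]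
    refine sum_congr rfl fun i _ => by simp only [hβ]; ring
  refine ⟨fun k => ?_, fun k1 k2 hk => ?_, fun k1 k2 => ?_, fun ι _ a κ => ?_⟩
  · unfold row
    rcases look_cases B.rows k with h | ⟨a, b, s, hmem, h⟩
    · rw [h]; exact (bnd_cst (by norm_num) _).mono (by norm_num)
    · rw [h]; exact bnd_of_land (bnd_cst (by norm_num) _) (band (hm hmem)).1
  · have hc1 := hc k1
    unfold row Qb
    unfold col at hc1
    have e0 : col B.rows k1 = look B.rows k1 (fun _ _ _ s => s) [] := rfl
    rw [e0]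
    rcases look_cases B.rows k1 with h | ⟨a, b, s, hmem, h⟩
    · rw [h, h, fld_cst (by norm_num), if_pos (by omega)]; simp
    · rw [h] at hc1
      rw [h, h]
      obtain ⟨lo, m, c1, c2, h6⟩ := h2.2 k2 hk
      have h7 := allN_spec (band (band (band (allT_mem h6 hmem)).1).2).2 (k2 - lo) (by omega)
      rw [Nat.add_eq, Nat.add_sub_cancel' c1] at h7
      have h3 := beq_sp h7
      have h4 := congrArg (fun z : ℕ => (z : ℤ)) h3
      simp only [Nat.add_eq, Nat.mul_eq, fl_eq, Nat.cast_add, Nat.cast_mul, sumL_eq] at h4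
      have h5 : ((col B.rows k2).map fun e' => (s.map fun e => (aq B.qt e e' : ℤ)).sum) =
          (col B.rows k2).map fun e' => 2097152 * (s.map fun _ => ((1 : ℕ) : ℤ)).sum +
            (s.map fun e => sg e * sg e' * Qt B.qt (e / 2) (e' / 2)).sum := by
        refine List.map_congr_left fun e' he' => ?_
        rw [← List.sum_map_mul_left, ← List.sum_map_add]
        congr 1
        refine List.map_congr_left fun e he => ?_
        rw [aq_eq _ _ _ (hq _ (hc1 e he) _ (hc k2 e' he'))]; simp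
      rw [h5, List.sum_map_add] at h4
      simp only [List.map_const', List.sum_replicate, nsmul_eq_mul, Nat.cast_one, mul_one,
        Nat.cast_ofNat] at h4
      linarith
  · rw [hQ, hQ, sum_comm]
    refine sum_congr rfl fun i _ => sum_congr rfl fun j _ => by rw [Qt_symm]; ring
  · have := hp fun i => ∑ s, a s * β (κ s) i
    refine le_trans this (le_of_eq ?_)
    simp only [hQ]
    push_cast
    simp only [sum_mul, mul_sum]
    have e1 : ∀ (F : ℕ → ℕ → ι → ι → ℝ), ∑ i ∈ range B.r, ∑ j ∈ range B.r, ∑ t, ∑ s, F i j s t =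
        ∑ s, ∑ t, ∑ i ∈ range B.r, ∑ j ∈ range B.r, F i j s t := by
      intro F
      calc _ = ∑ i ∈ range B.r, ∑ t, ∑ s, ∑ j ∈ range B.r, F i j s t := by
            refine sum_congr rfl fun i _ => ?_
            rw [sum_comm]
            exact sum_congr rfl fun t _ => sum_comm
        _ = ∑ t, ∑ s, ∑ i ∈ range B.r, ∑ j ∈ range B.r, F i j s t := by
            rw [sum_comm]
            exact sum_congr rfl fun t _ => sum_comm
        _ = _ := sum_comm
    rw [e1]
    refine sum_congr rfl fun s _ => sum_congr rfl fun t _ => sum_congr rfl fun i _ =>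
      sum_congr rfl fun j _ => by ring

end Pool.Agent.Lib.MP_49b2f4_co
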