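import Pool.Agent.Lib.MP_49b2f4_co.Vec
import Batteries.Data.Nat.Lemmas
import Mathlib.Algebra.BigOperators.Group.Finset.Basic
import Mathlib.Algebra.BigOperators.Ring.Finset
import Mathlib.Algebra.Order.BigOperators.Group.Finset
import Mathlib.Algebra.Group.End
import Mathlib.Logic.Equiv.Basic
import Mathlib.Data.Nat.Factorial.Basic

/-! Graphs on at most 8 vertices as 64-bit adjacency matrices; symmetrisation. -/

namespace Pool.Agent.Lib.MP_49b2f4_co

open Finset

def adj (g a b : ℕ) : Bool := g.testBit (8 * a + b)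

def enc (f : ℕ → ℕ → Bool) : ℕ := Nat.ofBits (fun k : Fin 64 => f (k / 8) (k % 8))

theorem enc_lt (f : ℕ → ℕ → Bool) : enc f < 2 ^ 64 := Nat.ofBits_lt_two_pow _

theorem adj_enc (f : ℕ → ℕ → Bool) {a b : ℕ} (ha : a < 8) (hb : b < 8) :
    adj (enc f) a b = f a b := by
  unfold adj enc
  rw [Nat.testBit_ofBits_lt _ _ (by omega)]
  have e1 : (8 * a + b) / 8 = a := by omega
  have e2 : (8 * a + b) % 8 = b := by omega
  simp only [e1, e2]

theorem code_ext {g h : ℕ} (hg : g < 2 ^ 64) (hh : h < 2 ^ 64)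
    (e : ∀ a < 8, ∀ b < 8, adj g a b = adj h a b) : g = h := by
  apply Nat.eq_of_testBit_eq; intro k
  by_cases hk : k < 64
  · have := e (k / 8) (by omega) (k % 8) (by omega)
    unfold adj at this
    rwa [Nat.div_add_mod] at this
  · have : 2 ^ 64 ≤ 2 ^ k := Nat.pow_le_pow_right (by norm_num) (by omega)
    rw [Nat.testBit_lt_two_pow (by omega), Nat.testBit_lt_two_pow (by omega)]

def act (π : ℕ → ℕ) (g : ℕ) : ℕ := enc (fun a b => adj g (π a) (π b))

theorem act_lt (π : ℕ → ℕ) (g : ℕ) : act π g < 2 ^ 64 := enc_lt _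

theorem adj_act (π : ℕ → ℕ) (g : ℕ) {a b : ℕ} (ha : a < 8) (hb : b < 8) :
    adj (act π g) a b = adj g (π a) (π b) := adj_enc _ ha hb

def Fix (n : ℕ) (π : Equiv.Perm ℕ) : Prop := ∀ k, n ≤ k → π k = k

theorem Fix.lt {n : ℕ} {π : Equiv.Perm ℕ} (h : Fix n π) {a : ℕ} (ha : a < n) : π a < n := by
  by_contra hc
  have h1 := h (π a) (by omega)
  have := π.injective h1
  omega

theorem Fix.mono {n m : ℕ} {π : Equiv.Perm ℕ} (h : Fix n π) (hm : n ≤ m) : Fix m π :=
  fun k hk => h k (by omega)

theorem fix_swap {n i j : ℕ} (hi : i < n) (hj : j < n) : Fix n (Equiv.swap i j) :=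
  fun k hk => Equiv.swap_apply_of_ne_of_ne (by omega) (by omega)

theorem act_act {π : Equiv.Perm ℕ} (h : Fix 8 π) (ρ : Equiv.Perm ℕ) (g : ℕ) :
    act π (act ρ g) = act (ρ * π : Equiv.Perm ℕ) g := by
  apply code_ext (act_lt _ _) (act_lt _ _)
  intro a ha b hb
  rw [adj_act _ _ ha hb, adj_act _ _ ha hb, adj_act _ _ (h.lt ha) (h.lt hb)]; rfl

theorem act_id {π : ℕ → ℕ} (h : ∀ k, π k = k) {g : ℕ} (hg : g < 2 ^ 64) : act π g = g := by
  apply code_ext (act_lt _ _) hg
  intro a ha b hb
  rw [adj_act _ _ ha hb, h, h]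

/-- the sum of `c` over all relabellings of the first `n` vertices -/
def Sym (c : ℕ → ℤ) : ℕ → ℕ → ℤ
  | 0, g => c g
  | (j + 1), g => ∑ i ∈ range (j + 1), Sym c j (act (Equiv.swap i j) g)

theorem Sym_act (c : ℕ → ℤ) : ∀ n, n ≤ 8 → ∀ π : Equiv.Perm ℕ, Fix n π → ∀ g, g < 2 ^ 64 →
    Sym c n (act π g) = Sym c n g := by
  intro n
  induction n with
  | zero => intro _ π h g hg; rw [act_id (fun k => h k (Nat.zero_le _)) hg]
  | succ j ih =>
    intro hn π h g hg
    simp only [Sym]
    refine Finset.sum_bij (fun i _ => π i) ?_ ?_ ?_ ?_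
    · intro i hi; rw [mem_range] at *; exact h.lt hi
    · intro a _ b _ e; exact π.injective e
    · intro b hb
      rw [mem_range] at hb
      refine ⟨π.symm b, ?_, by simp⟩
      rw [mem_range]
      by_contra hc
      have := h (π.symm b) (by omega)
      rw [Equiv.apply_symm_apply] at this
      omega
    · intro i hi
      rw [mem_range] at hi
      have hpi := h.lt hi
      set ρ : Equiv.Perm ℕ := Equiv.swap (π i) j * π * Equiv.swap i j with hρ
      have hfix : Fix j ρ := by
        intro k hk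
        by_cases e : k = j
        · subst e; simp [hρ]
        · have h1 : Equiv.swap i j k = k := Equiv.swap_apply_of_ne_of_ne (by omega) e
          have h2 : π k = k := h k (by omega)
          have h3 : Equiv.swap (π i) j k = k := Equiv.swap_apply_of_ne_of_ne (by omega) e
          simp [hρ, h1, h2, h3]
      rw [← ih (by omega) ρ hfix (act (Equiv.swap (π i) j) g) (act_lt _ _),
        act_act (hfix.mono (by omega)), act_act (fix_swap (by omega) (by omega)), hρ,
        ← mul_assoc, ← mul_assoc, Equiv.swap_mul_self, one_mul]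

theorem Sym_add (c d : ℕ → ℤ) : ∀ n g, Sym (fun x => c x + d x) n g = Sym c n g + Sym d n g := by
  intro n
  induction n with
  | zero => intro g; rfl
  | succ j ih => intro g; simp only [Sym, ih, sum_add_distrib]

theorem Sym_smul (k : ℤ) (c : ℕ → ℤ) : ∀ n g, Sym (fun x => k * c x) n g = k * Sym c n g := by
  intro n
  induction n with
  | zero => intro g; rfl
  | succ j ih => intro g; simp only [Sym, ih, mul_sum]

theorem Sym_const (k : ℤ) : ∀ n g, Sym (fun _ => k) n g = n.factorial * k := by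
  intro n
  induction n with
  | zero => intro g; simp [Sym]
  | succ j ih => intro g; simp only [Sym, ih, sum_const, card_range, Nat.factorial_succ]; push_cast; ring

structure Good (g : ℕ) : Prop where
  lt : g < 2 ^ 64
  symm : ∀ a < 8, ∀ b < 8, adj g a b = adj g b a
  irr : ∀ a < 8, adj g a a = false

theorem Good.act {g : ℕ} (h : Good g) {π : Equiv.Perm ℕ} (hp : Fix 8 π) : Good (act π g) :=
  ⟨act_lt _ _, fun a ha b hb => by
    rw [adj_act _ _ ha hb, adj_act _ _ hb ha]; exact h.symm _ (hp.lt ha) _ (hp.lt hb),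
   fun a ha => by rw [adj_act _ _ ha ha]; exact h.irr _ (hp.lt ha)⟩

theorem Sym_mono {c d : ℕ → ℤ} (h : ∀ g, Good g → c g ≤ d g) :
    ∀ n, n ≤ 8 → ∀ g, Good g → Sym c n g ≤ Sym d n g := by
  intro n
  induction n with
  | zero => intro _ g hg; exact h g hg
  | succ j ih =>
    intro hn g hg
    simp only [Sym]
    refine sum_le_sum fun i hi => ih (by omega) _ (hg.act (fix_swap ?_ (by omega)))
    rw [mem_range] at hi; omega

theorem Sym_congr {c d : ℕ → ℤ} (h : ∀ g, Good g → c g = d g) {n : ℕ} (hn : n ≤ 8) {g : ℕ}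
    (hg : Good g) : Sym c n g = Sym d n g :=
  le_antisymm (Sym_mono (fun g hg => (h g hg).le) n hn g hg)
    (Sym_mono (fun g hg => (h g hg).ge) n hn g hg)

/-- a factor that only looks at the vertices `a, b ≥ n` -/
theorem Sym_adj (c : ℕ → ℤ) {a b : ℕ} (ha : a < 8) (hb : b < 8) : ∀ n, n ≤ a → n ≤ b → ∀ g,
    Sym (fun x => (if adj x a b then 1 else 0) * c x) n g =
      (if adj g a b then 1 else 0) * Sym c n g := by
  intro n
  induction n with
  | zero => intro _ _ g; rfl
  | succ j ih =>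
    intro h1 h2 g
    simp only [Sym, mul_sum]
    refine sum_congr rfl fun i hi => ?_
    rw [mem_range] at hi
    rw [ih (by omega) (by omega), adj_act _ _ ha hb,
      Equiv.swap_apply_of_ne_of_ne (by omega) (by omega),
      Equiv.swap_apply_of_ne_of_ne (by omega) (by omega)]

/-! ### the exchange of two vertices by bit operations -/

noncomputable def swp (i j g : ℕ) : ℕ :=
  cond (Nat.ble j i) g
    (dsw (Nat.sub j i) (Nat.shiftLeft (nat_lit 72340172838076673) i)
      (dsw (Nat.mul (nat_lit 8) (Nat.sub j i)) (Nat.shiftLeft (nat_lit 255) (Nat.mul (nat_lit 8) i)) g))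

theorem fld_one (v i : ℕ) : fld 1 v i = (v.testBit i).toNat := by
  unfold fld
  rw [Nat.one_mul, Nat.shiftRight_eq_div_pow, pow_one, Nat.toNat_testBit]

theorem testBit_col (k : ℕ) :
    (72340172838076673 : ℕ).testBit k = decide (k < 64 ∧ k % 8 = 0) := by
  by_cases hk : k < 64
  · revert k; decide +kernel
  · have : 2 ^ 64 ≤ 2 ^ k := Nat.pow_le_pow_right (by norm_num) (by omega)
    rw [Nat.testBit_lt_two_pow (by omega)]; simp [hk]

theorem testBit_rowsw {i j : ℕ} (hij : i < j) (g a b : ℕ) (hb : b < 8) :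
    (dsw (8 * (j - i)) (255 <<< (8 * i)) g).testBit (8 * a + b) =
      g.testBit (8 * Equiv.swap i j a + b) := by
  have h := fld_dsw (W := 8) (M := 255 <<< (8 * i)) (δ := j - i) (P := fun k => k = i)
    (fun k => by
      rw [fld_shl]
      by_cases h : i ≤ k
      · rw [if_pos h, fld_small (by norm_num)]
        by_cases e : k = i
        · simp [e]
        · rw [if_neg (by omega), if_neg e]
      · rw [if_neg h, if_neg (by omega)])
    (fun k h1 h2 => by omega) g a
  have h2 := congrArg (fun z => z.testBit b) h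
  simp only [testBit_fld, hb, decide_true, Bool.true_and] at h2
  rw [h2]
  congr 3
  rw [Equiv.swap_apply_def]
  split_ifs <;> omega

theorem testBit_colsw {i j : ℕ} (hij : i < j) (hj : j < 8) (g a b : ℕ) (ha : a < 8) (hb : b < 8) :
    (dsw (j - i) (72340172838076673 <<< i) g).testBit (8 * a + b) =
      g.testBit (8 * a + Equiv.swap i j b) := by
  have h := fld_dsw (W := 1) (M := 72340172838076673 <<< i) (δ := j - i)
    (P := fun k => k < 64 ∧ k % 8 = i)
    (fun k => by
      rw [fld_one, Nat.testBit_shiftLeft, testBit_col]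
      by_cases h : k < 64 ∧ k % 8 = i
      · rw [if_pos h]
        have e1 : k ≥ i := by omega
        have e2 : k - i < 64 ∧ (k - i) % 8 = 0 := by omega
        simp [e1, e2]
      · rw [if_neg h]
        by_cases e1 : k ≥ i
        · have e2 : ¬ (k - i < 64 ∧ (k - i) % 8 = 0) := by omega
          rw [decide_eq_false e2]; simp
        · simp [e1])
    (fun k h1 h2 => by omega) g (8 * a + b)
  rw [Nat.one_mul, fld_one, fld_one] at h
  have h2 : ∀ x y : Bool, x.toNat = y.toNat → x = y := by decide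
  rw [h2 _ _ h]
  congr 1
  rw [Equiv.swap_apply_def]
  split_ifs <;> omega

theorem dsw_lt {d M v n : ℕ} (hv : v < 2 ^ n) (hM : M <<< d < 2 ^ n) : dsw d M v < 2 ^ n := by
  rw [dsw_eq]
  have h1 : M ≤ M <<< d := by rw [Nat.shiftLeft_eq]; exact Nat.le_mul_of_pos_right _ (by positivity)
  have h2 : ((v >>> d) ^^^ v) &&& M ≤ M := Nat.and_le_right
  refine Nat.xor_lt_two_pow (Nat.xor_lt_two_pow hv (by omega)) (lt_of_le_of_lt ?_ hM)
  rw [Nat.shiftLeft_eq, Nat.shiftLeft_eq]
  exact Nat.mul_le_mul_right _ h2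

theorem swp_of_le {i j : ℕ} (h : j ≤ i) (g : ℕ) : swp i j g = g := by
  unfold swp; rw [Nat.ble_eq_true_of_le h]; rfl

theorem swp_eq {i j : ℕ} (hij : i ≤ j) (hj : j < 8) {g : ℕ} (hg : g < 2 ^ 64) :
    swp i j g = act (Equiv.swap i j) g := by
  by_cases e : i = j
  · subst e; rw [swp_of_le le_rfl, act_id (by simp) hg]
  have hlt : i < j := by omega
  have h0 : swp i j g = dsw (j - i) (72340172838076673 <<< i)
      (dsw (8 * (j - i)) (255 <<< (8 * i)) g) := by
    unfold swp
    have : Nat.ble j i = false := by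
      cases h : Nat.ble j i
      · rfl
      · exact absurd (Nat.le_of_ble_eq_true h) (by omega)
    rw [this]; rfl
  have b1 : ∀ j < 8, ∀ i < j, (255 <<< (8 * i)) <<< (8 * (j - i)) < 2 ^ 64 := by decide +kernel
  have b2 : ∀ j < 8, ∀ i < j, (72340172838076673 <<< i) <<< (j - i) < 2 ^ 64 := by decide +kernel
  apply code_ext (by rw [h0]; exact dsw_lt (dsw_lt hg (b1 j hj i hlt)) (b2 j hj i hlt)) (act_lt _ _)
  intro a ha b hb
  rw [adj_act _ _ ha hb, h0]
  unfold adj
  rw [testBit_colsw hlt hj _ _ _ ha hb,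
    testBit_rowsw hlt _ _ _ ((fix_swap (by omega) hj).lt hb)]

/-! ### the graph on the first `n` vertices -/

def blkM (n : ℕ) : ℕ := enc (fun a b => decide (a < n ∧ b < n))

def blk (n g : ℕ) : ℕ := g &&& blkM n

theorem blk_lt (n g : ℕ) : blk n g < 2 ^ 64 := lt_of_le_of_lt Nat.and_le_right (enc_lt _)

theorem adj_blk (n g : ℕ) {a b : ℕ} (ha : a < 8) (hb : b < 8) :
    adj (blk n g) a b = (adj g a b && decide (a < n ∧ b < n)) := by
  have := adj_enc (fun a b => decide (a < n ∧ b < n)) ha hb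
  unfold adj at this ⊢
  unfold blk blkM
  rw [Nat.testBit_and, this]

theorem blk_act {n : ℕ} {π : Equiv.Perm ℕ} (h : Fix n π) (hn : n ≤ 8) (g : ℕ) :
    blk n (act π g) = act π (blk n g) := by
  apply code_ext (blk_lt _ _) (act_lt _ _)
  intro a ha b hb
  have h8 := h.mono hn
  rw [adj_blk _ _ ha hb, adj_act _ _ ha hb, adj_act _ _ ha hb, adj_blk _ _ (h8.lt ha) (h8.lt hb)]
  have key : ∀ a, π a < n ↔ a < n := fun a => ⟨fun h1 => by
    by_contra hc; rw [h a (by omega)] at h1; omega, h.lt⟩
  simp only [key]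

theorem blk_blk {n m : ℕ} (h : n ≤ m) (g : ℕ) : blk n (blk m g) = blk n g := by
  apply code_ext (blk_lt _ _) (blk_lt _ _)
  intro a ha b hb
  rw [adj_blk _ _ ha hb, adj_blk _ _ ha hb, adj_blk _ _ ha hb]
  by_cases e : a < n ∧ b < n
  · have : a < m ∧ b < m := by omega
    simp [e, this]
  · rw [decide_eq_false e]; simp

theorem blk_eight {g : ℕ} (hg : g < 2 ^ 64) : blk 8 g = g := by
  apply code_ext (blk_lt _ _) hg
  intro a ha b hb
  rw [adj_blk _ _ ha hb]; simp [ha, hb]

theorem blkM4 : blkM 4 = 252645135 := by decide +kernel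
theorem blkM5 : blkM 5 = 133666119455 := by decide +kernel
theorem blkM6 : blkM 6 = 69540876599103 := by decide +kernel
theorem blkM7 : blkM 7 = 35887507618889599 := by decide +kernel

end Pool.Agent.Lib.MP_49b2f4_co
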