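import Mathlib.Combinatorics.SimpleGraph.CycleGraph
import Mathlib.Data.Set.Card
import Mathlib.Topology.Instances.Real.Lemmas
import Mathlib.Order.LiminfLimsup

namespace Pool.Agent.Lib.MP_49b2f4_co

open Filter Topology

/-- edge density -/
noncomputable def edgeDens {n : ℕ} (G : SimpleGraph (Fin n)) : ℝ :=
  (G.edgeSet.ncard : ℝ) / n.choose 2

/-- proportion of the 5-element vertex sets that induce a 5-cycle -/
noncomputable def c5Dens {n : ℕ} (G : SimpleGraph (Fin n)) : ℝ :=
  (Set.ncard {S : Finset (Fin n) | S.card = 5 ∧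
    Nonempty (G.induce (S : Set (Fin n)) ≃g SimpleGraph.cycleGraph 5)} : ℝ) / n.choose 5

/-- the function `g` of the problem -/
noncomputable def gmax (p : ℝ) : ℝ :=
  sSup {L : ℝ | ∃ (n : ℕ → ℕ) (G : ∀ k, SimpleGraph (Fin (n k))), Tendsto n atTop atTop ∧
    Tendsto (fun k => edgeDens (G k)) atTop (𝓝 p) ∧ L = limsup (fun k => c5Dens (G k)) atTop}

end Pool.Agent.Lib.MP_49b2f4_co
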