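import Pool.Agent.Lib.MP_49b2f4_co.Sos
import Pool.Agent.Lib.MP_49b2f4_co.Defs
import Mathlib.Combinatorics.SimpleGraph.DegreeSum
import Mathlib.Data.Nat.Choose.Cast

/-! Labelled counts against the densities; complements; blow-ups of the Clebsch graph. -/

namespace Pool.Agent.Lib.MP_49b2f4_co

open Finset

section
variable {n : ℕ} (G : SimpleGraph (Fin n))

open Classical in
noncomputable def Aof (u v : Fin n) : Bool := decide (G.Adj u v)

theorem Aof_true {u v : Fin n} : Aof G u v = true ↔ G.Adj u v := by simp [Aof]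
theorem Aof_false {u v : Fin n} : Aof G u v = false ↔ ¬ G.Adj u v := by simp [Aof]
theorem Aof_symm (u v : Fin n) : Aof G u v = Aof G v u := by simp [Aof, G.adj_comm]
theorem Aof_irr (u : Fin n) : Aof G u u = false := by simp [Aof]

theorem MM_eq : MM (Aof G) = 2 * (G.edgeSet.ncard : ℝ) := by
  classical
  have h := G.two_mul_card_edgeFinset
  rw [← SimpleGraph.coe_edgeFinset, Set.ncard_coe_finset]
  have h2 : (2 : ℝ) * (#G.edgeFinset : ℝ) = ((2 * #G.edgeFinset : ℕ) : ℝ) := by push_cast; ring
  rw [h2, h, card_filter]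
  push_cast
  rw [Fintype.sum_prod_type]
  unfold MM ed
  simp only [Aof_true]

def CC (i j : Fin 5) : Bool := decide ((SimpleGraph.cycleGraph 5).Adj i j)

def IsC5 (S : Finset (Fin n)) : Prop :=
  S.card = 5 ∧ Nonempty (G.induce (S : Set (Fin n)) ≃g SimpleGraph.cycleGraph 5)

theorem isC5_iff (S : Finset (Fin n)) : IsC5 G S ↔ ∃ x : Fin 5 → Fin n,
    Function.Injective x ∧ S = univ.image x ∧ ∀ i j, Aof G (x i) (x j) = CC i j := by
  constructor
  · rintro ⟨_, ⟨φ⟩⟩
    refine ⟨fun i => (φ.symm i).1, fun i j h => φ.symm.injective (Subtype.ext h), ?_, fun i j => ?_⟩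
    · ext v
      simp only [mem_image, mem_univ, true_and]
      constructor
      · intro hv; exact ⟨φ ⟨v, hv⟩, by simp⟩
      · rintro ⟨i, rfl⟩; exact (φ.symm i).2
    · have := φ.symm.map_adj_iff (v := i) (w := j)
      unfold Aof CC
      exact decide_eq_decide.2 this
  · rintro ⟨x, hx, rfl, h⟩
    refine ⟨by rw [card_image_of_injective _ hx]; simp, ⟨SimpleGraph.Iso.symm ⟨Equiv.ofBijective
      (fun i => ⟨x i, by simp⟩) ⟨fun i j e => hx (congrArg Subtype.val e), ?_⟩, ?_⟩⟩⟩
    · rintro ⟨v, hv⟩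
      simp only [coe_image, coe_univ, Set.image_univ, Set.mem_range] at hv
      obtain ⟨i, rfl⟩ := hv
      exact ⟨i, rfl⟩
    · intro i j
      have := h i j
      unfold Aof CC at this
      exact decide_eq_decide.1 this

theorem pat_vec {a b c d e : Fin n} (h : pat (Aof G) a b c d e) :
    ∀ i j, Aof G (![a, b, c, d, e] i) (![a, b, c, d, e] j) = CC i j := by
  obtain ⟨p1, p2, p3, p4, p5, p6, p7, p8, p9, p10⟩ := h
  have hs := Aof_symm G
  have q1 := (hs b a).trans p1
  have q2 := (hs c b).trans p2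
  have q3 := (hs d c).trans p3
  have q4 := (hs e d).trans p4
  have q5 := (hs a e).trans p5
  have q6 := (hs c a).trans p6
  have q7 := (hs d a).trans p7
  have q8 := (hs d b).trans p8
  have q9 := (hs e b).trans p9
  have q10 := (hs e c).trans p10
  intro i j
  fin_cases i <;> fin_cases j <;> first | exact Aof_irr G _ | assumption

theorem inj_of_CC {x : Fin 5 → Fin n} (h : ∀ i j, Aof G (x i) (x j) = CC i j) :
    Function.Injective x := by
  intro i j e
  have key : ∀ i j : Fin 5, (∀ k, CC i k = CC j k) → i = j := by decide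
  exact key i j fun k => by rw [← h, ← h, e]

theorem N5_eq : N5 (Aof G) = 10 * (Set.ncard {S | IsC5 G S} : ℝ) := by
  classical
  have e0 : {S | IsC5 G S} = ((univ.filter (IsC5 G) : Finset _) : Set _) := by ext S; simp
  rw [e0, Set.ncard_coe_finset]
  have key : ∀ a b c d e, (if pat (Aof G) a b c d e then (1 : ℝ) else 0) =
      ∑ S ∈ univ.filter (IsC5 G), if a ∈ S then if b ∈ S then if c ∈ S then if d ∈ S then
        if e ∈ S then (if pat (Aof G) a b c d e then (1 : ℝ) else 0) else 0 else 0 else 0 else 0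
        else 0 := by
    intro a b c d e
    by_cases h : pat (Aof G) a b c d e
    · have hv := pat_vec G h
      have hi := inj_of_CC G hv
      have hm : ∀ i, ![a, b, c, d, e] i ∈ univ.image ![a, b, c, d, e] := fun i =>
        mem_image_of_mem _ (mem_univ i)
      rw [sum_eq_single (univ.image ![a, b, c, d, e])]
      · rw [if_pos (show a ∈ _ from hm 0), if_pos (show b ∈ _ from hm 1),
          if_pos (show c ∈ _ from hm 2), if_pos (show d ∈ _ from hm 3),
          if_pos (show e ∈ _ from hm 4)]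
      · intro S hS hne
        by_contra hc
        apply hne
        have hall : a ∈ S ∧ b ∈ S ∧ c ∈ S ∧ d ∈ S ∧ e ∈ S := by
          by_contra hn
          apply hc
          split_ifs <;> first | rfl | tauto
        symm
        apply eq_of_subset_of_card_le
        · intro v hv
          obtain ⟨i, _, rfl⟩ := mem_image.1 hv
          obtain ⟨h1, h2, h3, h4, h5⟩ := hall
          fin_cases i <;> assumption
        · rw [(mem_filter.1 hS).2.1, card_image_of_injective _ hi]; simp
      · intro hn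
        exact absurd (mem_filter.2 ⟨mem_univ _, (isC5_iff G _).2 ⟨_, hi, rfl, hv⟩⟩) hn
    · simp [h]
  have ten : ∀ S ∈ univ.filter (IsC5 G), ∑ a, ∑ b, ∑ c, ∑ d, ∑ e,
      (if a ∈ S then if b ∈ S then if c ∈ S then if d ∈ S then
        if e ∈ S then (if pat (Aof G) a b c d e then (1 : ℝ) else 0) else 0 else 0 else 0 else 0
        else 0) = 10 := by
    intro S hS
    obtain ⟨x, hx, rfl, h⟩ := (isC5_iff G S).1 (mem_filter.1 hS).2
    have R : ∀ f : Fin n → ℝ, ∑ a, (if a ∈ univ.image x then f a else 0) = ∑ i, f (x i) := by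
      intro f
      rw [← sum_filter, filter_mem_eq_inter, univ_inter, sum_image (fun i _ j _ e => hx e)]
    simp only [sum_ite_irrel, sum_const_zero, R]
    have hp : ∀ i j k l m, pat (Aof G) (x i) (x j) (x k) (x l) (x m) ↔ pat CC i j k l m := by
      intro i j k l m; unfold pat; simp only [h]
    simp only [hp]
    have : ∑ i, ∑ j, ∑ k, ∑ l, ∑ m, (if pat CC i j k l m then 1 else 0 : ℕ) = 10 := by
      decide +kernel
    exact_mod_cast this
  unfold N5
  simp only [← Fintype.sum_prod_type'] at ten ⊢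
  rw [sum_congr rfl (fun t _ => key _ _ _ _ _), sum_comm, sum_congr rfl ten]
  simp [mul_comm]

theorem isC5_compl {S : Finset (Fin n)} (h : IsC5 G S) : IsC5 Gᶜ S := by
  obtain ⟨x, hx, rfl, hc⟩ := (isC5_iff G S).1 h
  have k1 : ∀ i j : Fin 5, CC i j = (decide (i ≠ j) && !CC (2 * i) (2 * j)) := by decide
  have k2 : Function.Bijective (fun i : Fin 5 => 2 * i) := by decide
  refine (isC5_iff _ _).2 ⟨fun i => x (2 * i), hx.comp k2.1, ?_, fun i j => ?_⟩
  · ext v
    simp only [mem_image, mem_univ, true_and]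
    constructor
    · rintro ⟨i, rfl⟩
      obtain ⟨j, rfl⟩ := k2.2 i
      exact ⟨j, rfl⟩
    · rintro ⟨i, rfl⟩; exact ⟨_, rfl⟩
  · rw [k1, ← hc]
    have : x (2 * i) = x (2 * j) ↔ i = j := (hx.comp k2.1).eq_iff
    apply Bool.eq_iff_iff.2
    rw [Aof_true, SimpleGraph.compl_adj, Bool.and_eq_true, Bool.not_eq_true', Aof_false,
      decide_eq_true_iff, ne_eq, this]

theorem c5Dens_compl : c5Dens Gᶜ = c5Dens G := by
  have : {S | IsC5 Gᶜ S} = {S | IsC5 G S} := by
    ext S
    exact ⟨fun h => by simpa using isC5_compl _ h, isC5_compl _⟩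
  exact congrArg (fun s : Set (Finset (Fin n)) => (s.ncard : ℝ) / n.choose 5) this

theorem edgeDens_compl (hn : 2 ≤ n) : edgeDens Gᶜ = 1 - edgeDens G := by
  have h1 := MM_eq G
  have h2 := MM_eq Gᶜ
  have h3 : MM (Aof Gᶜ) + MM (Aof G) = n * (n - 1) := by
    unfold MM
    rw [← sum_add_distrib, sum_congr rfl (g := fun _ => (n : ℝ) - 1)]
    · simp; ring
    · intro u _
      rw [← sum_add_distrib, sum_congr rfl (g := fun v => 1 - if u = v then (1 : ℝ) else 0)]
      · simp
      · intro v _
        unfold ed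
        by_cases e : u = v
        · simp [e, Aof]
        · by_cases a : G.Adj u v <;> simp [e, a, Aof]
  have h4 : (0 : ℝ) < n.choose 2 := by exact_mod_cast Nat.choose_pos hn
  have h5 := Nat.cast_choose_two ℝ n
  unfold edgeDens
  field_simp
  linarith

end

/-! ### the Clebsch graph -/

def cl (a b : ℕ) : Bool :=
  decide (a ^^^ b = 1 ∨ a ^^^ b = 2 ∨ a ^^^ b = 4 ∨ a ^^^ b = 8 ∨ a ^^^ b = 15)

def blow (n s : ℕ) : SimpleGraph (Fin n) where
  Adj u v := u.1 < 16 * s ∧ v.1 < 16 * s ∧ cl (u.1 % 16) (v.1 % 16) = true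
  symm := ⟨fun u v h => ⟨h.2.1, h.1, by
    have := h.2.2; unfold cl at this ⊢; rwa [Nat.xor_comm]⟩⟩
  loopless := ⟨fun u h => by have := h.2.2; simp [cl] at this⟩

theorem sum_blow {n s : ℕ} (h : 16 * s ≤ n) (ψ : ℕ → ℝ) :
    ∑ v : Fin n, (if v.1 < 16 * s then ψ (v.1 % 16) else 0) = s * ∑ c ∈ range 16, ψ c := by
  rw [Fin.sum_univ_eq_sum_range (fun v => if v < 16 * s then ψ (v % 16) else 0), ← sum_filter]
  have : (range n).filter (fun v => v < 16 * s) = range (16 * s) := by
    ext v; simp; omega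
  rw [this]
  clear this h
  induction s with
  | zero => simp
  | succ s ih =>
    rw [Nat.mul_succ, sum_range_add, ih]
    have : ∀ c ∈ range 16, ψ ((16 * s + c) % 16) = ψ c := by
      intro c hc
      rw [mem_range] at hc
      congr 1; omega
    rw [sum_congr rfl this]; push_cast; ring

theorem MM_blow {n s : ℕ} (h : 16 * s ≤ n) : MM (Aof (blow n s)) = 80 * (s : ℝ) ^ 2 := by
  have e : ∀ u v : Fin n, ed (Aof (blow n s)) u v = if u.1 < 16 * s then if v.1 < 16 * s then
      ed cl (u.1 % 16) (v.1 % 16) else 0 else 0 := by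
    intro u v
    unfold ed
    simp only [Aof_true, blow]
    by_cases h1 : u.1 < 16 * s <;> by_cases h2 : v.1 < 16 * s <;> simp [h1, h2]
  unfold MM
  simp only [e, sum_ite_irrel, sum_const_zero]
  simp only [fun a => sum_blow h (ed cl a)]
  rw [sum_blow h (fun a => s * ∑ c ∈ range 16, ed cl a c), ← mul_sum]
  have : ∑ a ∈ range 16, ∑ c ∈ range 16, (if cl a c then 1 else 0 : ℕ) = 80 := by decide +kernel
  have h2 : ∑ a ∈ range 16, ∑ c ∈ range 16, ed cl a c = 80 := by
    unfold ed; exact_mod_cast this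
  rw [h2]; ring

theorem cleb_count : ∑ a ∈ range 16, ∑ b ∈ range 16, ∑ c ∈ range 16, ∑ d ∈ range 16,
    ∑ e ∈ range 16, (if pat cl a b c d e then (1 : ℝ) else 0) = 1920 := by
  have e : ∀ a b c d e, (if pat cl a b c d e then 1 else 0 : ℕ) =
      if cl a b = true then if cl b c = true ∧ cl a c = false then
        if cl c d = true ∧ cl a d = false ∧ cl b d = false then
          (if pat cl a b c d e then 1 else 0) else 0 else 0 else 0 := by
    intro a b c d e
    by_cases h : pat cl a b c d e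
    · obtain ⟨p1, p2, p3, p4, p5, p6, p7, p8, p9, p10⟩ := id h
      rw [if_pos p1, if_pos (And.intro p2 p6), if_pos (And.intro p3 (And.intro p7 p8))]
    · simp [h]
  have : ∑ a ∈ range 16, ∑ b ∈ range 16, ∑ c ∈ range 16, ∑ d ∈ range 16,
      ∑ e ∈ range 16, (if pat cl a b c d e then 1 else 0 : ℕ) = 1920 := by
    rw [sum_congr rfl fun a _ => sum_congr rfl fun b _ => sum_congr rfl fun c _ =>
      sum_congr rfl fun d _ => sum_congr rfl fun x _ => e a b c d x]
    simp only [sum_ite_irrel, sum_const_zero]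
    decide +kernel
  exact_mod_cast this

theorem N5_blow {n s : ℕ} (h : 16 * s ≤ n) : N5 (Aof (blow n s)) = 1920 * (s : ℝ) ^ 5 := by
  have e : ∀ a b c d e : Fin n, (if pat (Aof (blow n s)) a b c d e then (1 : ℝ) else 0) =
      if a.1 < 16 * s then if b.1 < 16 * s then if c.1 < 16 * s then if d.1 < 16 * s then
      if e.1 < 16 * s then (if pat cl (a.1 % 16) (b.1 % 16) (c.1 % 16) (d.1 % 16) (e.1 % 16)
        then 1 else 0) else 0 else 0 else 0 else 0 else 0 := by
    intro a b c d e
    unfold pat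
    simp only [Aof_true, Aof_false, blow]
    by_cases h1 : a.1 < 16 * s <;> by_cases h2 : b.1 < 16 * s <;> by_cases h3 : c.1 < 16 * s <;>
      by_cases h4 : d.1 < 16 * s <;> by_cases h5 : e.1 < 16 * s <;> simp [h1, h2, h3, h4, h5]
  unfold N5
  simp only [e, sum_ite_irrel, sum_const_zero]
  simp only [fun a b c d => sum_blow h (fun e => if pat cl a b c d e then (1 : ℝ) else 0)]
  simp only [fun a b c => sum_blow h (fun d => s * ∑ e ∈ range 16,
    if pat cl a b c d e then (1 : ℝ) else 0)]
  simp only [fun a b => sum_blow h (fun c => s * ∑ d ∈ range 16, s * ∑ e ∈ range 16,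
    if pat cl a b c d e then (1 : ℝ) else 0)]
  simp only [fun a => sum_blow h (fun b => s * ∑ c ∈ range 16, s * ∑ d ∈ range 16,
    s * ∑ e ∈ range 16, if pat cl a b c d e then (1 : ℝ) else 0)]
  rw [sum_blow h (fun a => s * ∑ b ∈ range 16, s * ∑ c ∈ range 16, s * ∑ d ∈ range 16,
    s * ∑ e ∈ range 16, if pat cl a b c d e then (1 : ℝ) else 0)]
  simp only [← mul_sum]
  rw [cleb_count]; ring

end Pool.Agent.Lib.MP_49b2f4_co
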