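import Mathlib.Data.Real.Basic
import Mathlib.Algebra.BigOperators.Fin

namespace Pool.Agent.Lib.MP_49b2f4_co

/-- Values of nearly balanced blow-ups of the 5-cycle of total edge density `p`: part `i` has
weight `x i` and inner edge density `r i`, and contributes `h (r i)` inside. -/
def recVals (h : ℝ → ℝ) (p : ℝ) : Set ℝ :=
  {v | ∃ x r : Fin 5 → ℝ, (∀ i, 19 / 100 ≤ x i ∧ x i ≤ 21 / 100) ∧ ∑ i, x i = 1 ∧
    (∀ i, 0 ≤ r i ∧ r i ≤ 1) ∧ 2 * ∑ i, x i * x (i + 1) + ∑ i, x i ^ 2 * r i = p ∧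
    v = 120 * ∏ i, x i + ∑ i, x i ^ 5 * h (r i)}

end Pool.Agent.Lib.MP_49b2f4_co
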