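import Pool.Agent.Lib.MP_49b2f4_co.Count
import Pool.Agent.Lib.MP_49b2f4_co.D.All
import Mathlib.Analysis.SpecialFunctions.Choose
import Mathlib.Analysis.SpecificLimits.Basic
import Mathlib.Analysis.SpecialFunctions.Pow.Continuity

/-! The limit statement. -/

namespace Pool.Agent.Lib.MP_49b2f4_co

open Filter Topology

theorem choose_lim (k : ℕ) :
    Tendsto (fun n : ℕ => (n.choose k : ℝ) / (n : ℝ) ^ k) atTop (𝓝 (1 / k.factorial)) := by
  have h := (isEquivalent_choose k).div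
    (Asymptotics.IsEquivalent.refl (u := fun n : ℕ => (n : ℝ) ^ k))
  refine h.symm.tendsto_nhds (tendsto_const_nhds.congr' ?_)
  filter_upwards [eventually_gt_atTop 0] with n hn
  have : (n : ℝ) ≠ 0 := by positivity
  simp only [Pi.div_apply]
  field_simp

theorem r2 : Tendsto (fun n : ℕ => 2 * ((n.choose 2 : ℝ) / (n : ℝ) ^ 2)) atTop (𝓝 1) := by
  have := (choose_lim 2).const_mul 2
  norm_num [Nat.factorial] at this
  exact this

theorem r5 : Tendsto (fun n : ℕ => (10 * ((n.choose 5 : ℝ) / (n : ℝ) ^ 5))⁻¹) atTop (𝓝 12) := by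
  have := ((choose_lim 5).const_mul 10).inv₀ (by norm_num [Nat.factorial])
  have e : ((10 : ℝ) * (1 / (Nat.factorial 5 : ℕ)))⁻¹ = 12 := by norm_num [Nat.factorial]
  rwa [e] at this

theorem MM_dens {n : ℕ} (hn : 5 ≤ n) (G : SimpleGraph (Fin n)) :
    MM (Aof G) / (n : ℝ) ^ 2 = edgeDens G * (2 * ((n.choose 2 : ℝ) / (n : ℝ) ^ 2)) := by
  have h4 : (0 : ℝ) < n.choose 2 := by exact_mod_cast Nat.choose_pos (by omega)
  have : (n : ℝ) ≠ 0 := by positivity
  rw [MM_eq]; unfold edgeDens; field_simp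

theorem N5_dens {n : ℕ} (hn : 5 ≤ n) (G : SimpleGraph (Fin n)) :
    c5Dens G = N5 (Aof G) / (n : ℝ) ^ 5 * (10 * ((n.choose 5 : ℝ) / (n : ℝ) ^ 5))⁻¹ := by
  have h4 : (0 : ℝ) < n.choose 5 := by exact_mod_cast Nat.choose_pos hn
  have : (n : ℝ) ≠ 0 := by positivity
  have e : c5Dens G = (Set.ncard {S | IsC5 G S} : ℝ) / n.choose 5 := rfl
  rw [N5_eq, e]; field_simp

def SS (p : ℝ) : Set ℝ :=
  {L : ℝ | ∃ (n : ℕ → ℕ) (G : ∀ k, SimpleGraph (Fin (n k))), Tendsto n atTop atTop ∧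
    Tendsto (fun k => edgeDens (G k)) atTop (𝓝 p) ∧ L = limsup (fun k => c5Dens (G k)) atTop}

theorem SS_compl {p : ℝ} : SS p ⊆ SS (1 - p) := by
  rintro L ⟨n, G, hn, hp, rfl⟩
  refine ⟨n, fun k => (G k)ᶜ, hn, (hp.const_sub 1).congr' ?_, by simp only [c5Dens_compl]⟩
  filter_upwards [hn.eventually_ge_atTop 2] with k hk
  rw [edgeDens_compl _ hk]

theorem SS_eq (p : ℝ) : SS (1 - p) = SS p :=
  Set.Subset.antisymm (by simpa using SS_compl (p := 1 - p)) SS_compl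

theorem SS_le {p L : ℝ} (h : L ∈ SS p) : L ≤ 9 * √5 / 50 * p ^ (5 / 2 : ℝ) := by
  obtain ⟨n, G, hn, hp, rfl⟩ := h
  have t1 := hp.mul (r2.comp hn)
  rw [mul_one] at t1
  have t2 := ((t1.rpow_const (p := 5 / 2) (Or.inr (by norm_num))).const_mul (3 / 200 * √5)).mul
    (r5.comp hn)
  have e : 3 / 200 * √5 * p ^ (5 / 2 : ℝ) * 12 = 9 * √5 / 50 * p ^ (5 / 2 : ℝ) := by ring
  rw [e] at t2
  rw [← t2.limsup_eq]
  refine limsup_le_limsup ?_ (isCoboundedUnder_le_of_le atTop (x := 0) fun k => ?_)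
    t2.isBoundedUnder_le
  · filter_upwards [hn.eventually_ge_atTop 5] with k hk
    have h0 : (0 : ℝ) < n k := by exact_mod_cast (by omega : 0 < n k)
    simp only [Function.comp]
    rw [N5_dens hk, ← MM_dens hk]
    refine mul_le_mul_of_nonneg_right ?_ (by positivity)
    have c := count_ineq D.h4 D.h6 D.cert (Aof (G k)) (Aof_symm _) (Aof_irr _)
    rw [Real.div_rpow (MM_nonneg _) (by positivity), ← Real.rpow_natCast (n k : ℝ) 2,
      ← Real.rpow_mul h0.le, show ((2 : ℕ) : ℝ) * (5 / 2) = (5 : ℕ) by norm_num,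
      Real.rpow_natCast, ← mul_div_assoc]
    exact div_le_div_of_nonneg_right c (by positivity)
  · unfold c5Dens; positivity

theorem SS_mem {p : ℝ} (h0 : 0 ≤ p) (h1 : p ≤ 5 / 16) :
    9 * √5 / 50 * p ^ (5 / 2 : ℝ) ∈ SS p := by
  obtain ⟨a, ha, rfl⟩ : ∃ a : ℝ, 0 ≤ a ∧ p = 80 * a ^ 2 :=
    ⟨√(p / 80), by positivity, by rw [Real.sq_sqrt (by positivity)]; ring⟩
  have ha1 : 16 * a ≤ 1 := by nlinarith
  have hs : ∀ k : ℕ, 16 * ⌊a * k⌋₊ ≤ k := by
    intro k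
    have h2 : (⌊a * k⌋₊ : ℝ) ≤ a * k := Nat.floor_le (by positivity)
    have h3 : (0 : ℝ) ≤ k := by positivity
    have : (16 : ℝ) * ⌊a * k⌋₊ ≤ k := by nlinarith
    exact_mod_cast this
  have ts : Tendsto (fun k : ℕ => (⌊a * k⌋₊ : ℝ) / k) atTop (𝓝 a) :=
    (tendsto_nat_floor_mul_div_atTop ha).comp tendsto_natCast_atTop_atTop
  refine ⟨id, fun k => blow k ⌊a * k⌋₊, tendsto_id, ?_, ?_⟩
  · have t := ((ts.pow 2).const_mul 80).div r2 one_ne_zero
    rw [div_one] at t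
    refine t.congr' ?_
    filter_upwards [eventually_ge_atTop 5] with k hk
    have h4 : (0 : ℝ) < k.choose 2 := by exact_mod_cast Nat.choose_pos (by omega)
    have h5 : (0 : ℝ) < k := by exact_mod_cast (by omega : 0 < k)
    have := MM_dens hk (blow k ⌊a * k⌋₊)
    rw [MM_blow (hs k)] at this
    simp only [Pi.div_apply]
    rw [div_eq_iff (by positivity)]
    refine Eq.trans ?_ this
    ring
  · symm
    apply Tendsto.limsup_eq
    have t := ((ts.pow 5).const_mul 1920).mul r5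
    have e : 9 * √5 / 50 * (80 * a ^ 2) ^ (5 / 2 : ℝ) = 1920 * a ^ 5 * 12 := by
      have : 80 * a ^ 2 = (4 * √5 * a) ^ (2 : ℝ) := by
        rw [Real.rpow_two, mul_pow, mul_pow, Real.sq_sqrt (by norm_num)]; ring
      have s5 : (√5 : ℝ) ^ 2 = 5 := Real.sq_sqrt (by norm_num)
      rw [this, ← Real.rpow_mul (by positivity), show (2 : ℝ) * (5 / 2) = (5 : ℕ) by norm_num,
        Real.rpow_natCast]
      calc _ = 9 * 1024 / 50 * (√5 ^ 2) ^ 3 * a ^ 5 := by ring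
        _ = _ := by rw [s5]; ring
    rw [e]
    refine t.congr' ?_
    filter_upwards [eventually_ge_atTop 5] with k hk
    refine Eq.trans ?_ (N5_dens hk (blow k ⌊a * k⌋₊)).symm
    rw [N5_blow (hs k)]
    ring

theorem gmax_main (p : ℝ) (h0 : 0 ≤ p) (h1 : p ≤ 1) :
    gmax p ≤ 9 * √5 / 50 * (min p (1 - p)) ^ (5 / 2 : ℝ) ∧
    (min p (1 - p) ≤ 5 / 16 → gmax p = 9 * √5 / 50 * (min p (1 - p)) ^ (5 / 2 : ℝ)) := by
  have e : gmax p = sSup (SS (min p (1 - p))) := by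
    rcases min_choice p (1 - p) with h | h
    · rw [h]; rfl
    · rw [h, SS_eq]; rfl
  have hq : 0 ≤ min p (1 - p) := le_min h0 (by linarith)
  rw [e]
  exact ⟨Real.sSup_le (fun _ h => SS_le h) (by positivity),
    fun h => IsGreatest.csSup_eq ⟨SS_mem hq h, fun _ h => SS_le h⟩⟩

end Pool.Agent.Lib.MP_49b2f4_co
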