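import Pool.Agent.Lib.MP_49b2f4_co.Up
import Mathlib.Data.Fin.VecNotation
import Mathlib.Algebra.BigOperators.Fin
import Mathlib.Analysis.SpecialFunctions.Pow.Real
import Mathlib.Tactic.IntervalCases

/-! From the certificate to the inequality between labelled counts. -/

namespace Pool.Agent.Lib.MP_49b2f4_co

open Finset

section
variable {V : Type} (A : V → V → Bool)

def code (x : Fin 8 → V) : ℕ := enc (fun a b => A (x (Fin.ofNat 8 a)) (x (Fin.ofNat 8 b)))

theorem adj_code (x : Fin 8 → V) {a b : ℕ} (ha : a < 8) (hb : b < 8) :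
    adj (code A x) a b = A (x (Fin.ofNat 8 a)) (x (Fin.ofNat 8 b)) := adj_enc _ ha hb

theorem code_good (hs : ∀ u v, A u v = A v u) (hi : ∀ u, A u u = false) (x : Fin 8 → V) :
    Good (code A x) :=
  ⟨enc_lt _, fun a ha b hb => by rw [adj_code _ _ ha hb, adj_code _ _ hb ha, hs],
    fun a ha => by rw [adj_code _ _ ha ha, hi]⟩

theorem act_code (x : Fin 8 → V) {i j : ℕ} (hi : i < 8) (hj : j < 8) :
    act (Equiv.swap i j) (code A x) =
      code A (x ∘ Equiv.swap (Fin.ofNat 8 i) (Fin.ofNat 8 j)) := by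
  have key : ∀ i < 8, ∀ j < 8, ∀ a < 8, Fin.ofNat 8 (Equiv.swap i j a) =
      Equiv.swap (Fin.ofNat 8 i) (Fin.ofNat 8 j) (Fin.ofNat 8 a) := by decide +kernel
  have f := fix_swap hi hj
  apply code_ext (act_lt _ _) (enc_lt _)
  intro a ha b hb
  rw [adj_act _ _ ha hb, adj_code _ _ (f.lt ha) (f.lt hb), adj_enc _ ha hb, key i hi j hj a ha,
    key i hi j hj b hb]
  rfl

theorem sum_Sym [Fintype V] (c : ℕ → ℤ) : ∀ n, n ≤ 8 →
    ∑ x : Fin 8 → V, Sym c n (code A x) = n.factorial * ∑ x : Fin 8 → V, c (code A x) := by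
  intro n
  induction n with
  | zero => intro _; simp [Sym]
  | succ j ih =>
    intro hn
    simp only [Sym]
    rw [sum_comm, sum_congr rfl (g := fun _ => ∑ x : Fin 8 → V, Sym c j (code A x))]
    · rw [ih (by omega), sum_const, card_range, Nat.factorial_succ]; push_cast; ring
    · intro i hi
      rw [mem_range] at hi
      simp only [act_code A _ (show i < 8 by omega) (show j < 8 by omega)]
      exact Fintype.sum_equiv
        (Equiv.arrowCongr (Equiv.swap (Fin.ofNat 8 i) (Fin.ofNat 8 j)).symm (Equiv.refl V)) _ _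
        (fun x => rfl)

theorem sum_cons [Fintype V] {n : ℕ} (f : (Fin (n + 1) → V) → ℝ) :
    ∑ x, f x = ∑ a, ∑ y : Fin n → V, f (Matrix.vecCons a y) := by
  rw [← Fintype.sum_prod_type']
  exact (Fintype.sum_equiv (Fin.consEquiv fun _ => V) _ _ (fun _ => rfl)).symm

theorem sum_eight [Fintype V] (f : (Fin 8 → V) → ℝ) : ∑ x, f x =
    ∑ a, ∑ b, ∑ c, ∑ d, ∑ e, ∑ g, ∑ h, ∑ k, f ![a, b, c, d, e, g, h, k] := by
  simp only [sum_cons, Fintype.sum_unique]
  rfl

def sel (a b c d e f g h : V) : ℕ → V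
  | 0 => a
  | 1 => b
  | 2 => c
  | 3 => d
  | 4 => e
  | 5 => f
  | 6 => g
  | _ => h

def codeN (x : ℕ → V) : ℕ := enc (fun a b => A (x a) (x b))

theorem adj_codeN (x : ℕ → V) {a b : ℕ} (ha : a < 8) (hb : b < 8) :
    adj (codeN A x) a b = A (x a) (x b) := adj_enc _ ha hb

theorem code_vec (a b c d e f g h : V) :
    code A ![a, b, c, d, e, f, g, h] = codeN A (sel a b c d e f g h) := by
  have key : ∀ i < 8, ![a, b, c, d, e, f, g, h] (Fin.ofNat 8 i) = sel a b c d e f g h i := by
    intro i hi; interval_cases i <;> rfl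
  apply code_ext (enc_lt _) (enc_lt _)
  intro i hi j hj
  rw [adj_enc _ hi hj, adj_enc _ hi hj, key i hi, key j hj]

def gatv (x : ℕ → V) : List ℕ → ℕ
  | [] => 0
  | p :: l => Nat.bit (A (x (p / 8)) (x (p % 8))) (gatv x l)

theorem gat_code (x : ℕ → V) : ∀ l : List ℕ, (∀ p ∈ l, p < 64) →
    gat l (codeN A x) = gatv A x l := by
  intro l
  induction l with
  | nil => intro _; rfl
  | cons p l ih =>
    intro h
    have := h p List.mem_cons_self
    rw [gat, gatv, ih (fun q hq => h q (List.mem_cons_of_mem _ hq)), testBit_adj,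
      adj_codeN _ _ (by omega) (by omega)]

theorem blk_code {n : ℕ} (x y : ℕ → V) (h : ∀ a < n, x a = y a) :
    blk n (codeN A x) = blk n (codeN A y) := by
  apply code_ext (blk_lt _ _) (blk_lt _ _)
  intro a ha b hb
  rw [adj_blk _ _ ha hb, adj_blk _ _ ha hb, adj_codeN _ _ ha hb, adj_codeN _ _ ha hb]
  by_cases c : a < n ∧ b < n
  · rw [h a c.1, h b c.2]
  · rw [decide_eq_false c]; simp

def ty4 (a b c d : V) : ℕ := blk 4 (codeN A (sel a b c d a a a a))
def ty6 (a b c d e f : V) : ℕ := blk 6 (codeN A (sel a b c d e f a a))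
def kap (a b c d y z : V) : ℕ := gatv A (sel a b c d y z a a) lK
def sig (a b c d y : V) : ℕ := 512 + gatv A (sel a b c d y a a a) lS4
def pi6 (a b c d e f y : V) : ℕ := gatv A (sel a b c d e f y a) lP6
def ed (u v : V) : ℝ := if A u v then 1 else 0
def pat (a b c d e : V) : Prop :=
  A a b = true ∧ A b c = true ∧ A c d = true ∧ A d e = true ∧ A e a = true ∧
  A a c = false ∧ A a d = false ∧ A b d = false ∧ A b e = false ∧ A c e = false
instance (a b c d e : V) : Decidable (pat A a b c d e) := by unfold pat; infer_instance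

theorem pmI_code (a b c d e f g h : V) :
    (pmI (codeN A (sel a b c d e f g h)) : ℝ) = ed A b a * ed A d c * ed A f e := by
  have key : ∀ z : ℕ, z &&& 17592253153536 = 17592253153536 ↔
      z.testBit 8 = true ∧ z.testBit 26 = true ∧ z.testBit 44 = true := by
    intro z
    have e : (17592253153536 : ℕ) = 2 ^ 8 ||| 2 ^ 26 ||| 2 ^ 44 := by decide +kernel
    constructor
    · intro h
      have h1 := fun k => congrArg (fun z => z.testBit k) h
      simp only [Nat.testBit_and] at h1
      have a1 := h1 8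
      have a2 := h1 26
      have a3 := h1 44
      rw [show (17592253153536 : ℕ).testBit 8 = true by decide +kernel] at a1
      rw [show (17592253153536 : ℕ).testBit 26 = true by decide +kernel] at a2
      rw [show (17592253153536 : ℕ).testBit 44 = true by decide +kernel] at a3
      simp only [Bool.and_true] at a1 a2 a3
      exact ⟨a1, a2, a3⟩
    · rintro ⟨a1, a2, a3⟩
      apply Nat.eq_of_testBit_eq; intro k
      rw [Nat.testBit_and, e, Nat.testBit_or, Nat.testBit_or, Nat.testBit_two_pow,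
        Nat.testBit_two_pow, Nat.testBit_two_pow]
      by_cases c1 : 8 = k
      · subst c1; simp [a1]
      by_cases c2 : 26 = k
      · subst c2; simp [a2]
      by_cases c3 : 44 = k
      · subst c3; simp [a3]
      simp [c1, c2, c3]
  have t : ∀ i < 6, ∀ j < 6, (blk 6 (codeN A (sel a b c d e f g h))).testBit (8 * i + j) =
      A ((sel a b c d e f g h) i) ((sel a b c d e f g h) j) := by
    intro i hi j hj
    have := adj_blk 6 (codeN A (sel a b c d e f g h)) (a := i) (b := j) (by omega) (by omega)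
    rw [adj_codeN _ _ (by omega) (by omega), decide_eq_true ⟨hi, hj⟩, Bool.and_true] at this
    exact this
  have t1 : _ = A b a := t 1 (by norm_num) 0 (by norm_num)
  have t2 : _ = A d c := t 3 (by norm_num) 2 (by norm_num)
  have t3 : _ = A f e := t 5 (by norm_num) 4 (by norm_num)
  unfold pmI ed
  simp only [key]
  rw [t1, t2, t3]
  cases A b a <;> cases A d c <;> cases A f e <;> simp

theorem c5I_code (hs : ∀ u v, A u v = A v u) (hi : ∀ u, A u u = false) (a b c d e f g h : V) :
    (c5I (codeN A (sel a b c d e f g h)) : ℝ) = if pat A a b c d e then 1 else 0 := by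
  have key : blk 5 (codeN A (sel a b c d e f g h)) = 38990906642 ↔ pat A a b c d e := by
    have t : ∀ i < 8, ∀ j < 8, adj (blk 5 (codeN A (sel a b c d e f g h))) i j =
        (A ((sel a b c d e f g h) i) ((sel a b c d e f g h) j)
          && decide (i < 5 ∧ j < 5)) := by
      intro i hi j hj
      rw [adj_blk _ _ hi hj, adj_codeN _ _ hi hj]
    constructor
    · intro h1
      rw [h1] at t
      have u : ∀ i < 5, ∀ j < 5, A ((sel a b c d e f g h) i)
          ((sel a b c d e f g h) j) = adj 38990906642 i j := by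
        intro i hi j hj
        rw [t i (by omega) j (by omega), decide_eq_true ⟨hi, hj⟩, Bool.and_true]
      exact ⟨u 0 (by norm_num) 1 (by norm_num), u 1 (by norm_num) 2 (by norm_num),
        u 2 (by norm_num) 3 (by norm_num), u 3 (by norm_num) 4 (by norm_num),
        u 4 (by norm_num) 0 (by norm_num), u 0 (by norm_num) 2 (by norm_num),
        u 0 (by norm_num) 3 (by norm_num), u 1 (by norm_num) 3 (by norm_num),
        u 1 (by norm_num) 4 (by norm_num), u 2 (by norm_num) 4 (by norm_num)⟩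
    · rintro ⟨p1, p2, p3, p4, p5, p6, p7, p8, p9, p10⟩
      have q1 := (hs b a).trans p1
      have q2 := (hs c b).trans p2
      have q3 := (hs d c).trans p3
      have q4 := (hs e d).trans p4
      have q5 := (hs a e).trans p5
      have q6 := (hs c a).trans p6
      have q7 := (hs d a).trans p7
      have q8 := (hs d b).trans p8
      have q9 := (hs e b).trans p9
      have q10 := (hs e c).trans p10
      apply code_ext (blk_lt _ _) (by norm_num)
      intro i h1 j h2
      rw [t i h1 j h2]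
      by_cases c5 : i < 5 ∧ j < 5
      · rw [decide_eq_true c5, Bool.and_true]
        obtain ⟨c1, c2⟩ := c5
        interval_cases i <;> interval_cases j <;> first | exact hi _ | assumption
      · rw [decide_eq_false c5, Bool.and_false]
        have : ∀ i < 8, ∀ j < 8, ¬ (i < 5 ∧ j < 5) → false = adj 38990906642 i j := by
          decide +kernel
        exact this i h1 j h2 c5
  unfold c5I
  simp only [key]
  split_ifs <;> simp

variable (L4 L6 : List Blk)

theorem c8_code (a b c d e f g h : V) : (c8 L4 L6 (codeN A (sel a b c d e f g h)) : ℝ) =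
    -5 * (QL L4 (ty4 A a b c d) (kap A a b c d e f) (kap A a b c d g h) : ℝ)
    - 5 * (QL L6 (ty6 A a b c d e f) (pi6 A a b c d e f g) (pi6 A a b c d e f h) : ℝ)
    + ed A h g * (23040 * (ed A b a * ed A d c * ed A f e)
      - (QL L4 (ty4 A a b c d) (sig A a b c d e) (sig A a b c d f) : ℝ)
      - (QL L6 (ty6 A a b c d e f) 64 64 : ℝ)) := by
  have e4 : blk 4 (codeN A (sel a b c d e f g h)) = ty4 A a b c d :=
    blk_code A _ _ (fun i hi => by interval_cases i <;> rfl)
  have e6 : blk 6 (codeN A (sel a b c d e f g h)) = ty6 A a b c d e f :=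
    blk_code A _ _ (fun i hi => by interval_cases i <;> rfl)
  have k1 : gat lK (codeN A (sel a b c d e f g h)) = kap A a b c d e f :=
    (gat_code _ _ _ (by decide)).trans rfl
  have k2 : gat lK2 (codeN A (sel a b c d e f g h)) = kap A a b c d g h :=
    (gat_code _ _ _ (by decide)).trans rfl
  have k3 : gat lP6 (codeN A (sel a b c d e f g h)) = pi6 A a b c d e f g :=
    (gat_code _ _ _ (by decide)).trans rfl
  have k4 : gat lP7 (codeN A (sel a b c d e f g h)) = pi6 A a b c d e f h :=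
    (gat_code _ _ _ (by decide)).trans rfl
  have k5 : 512 + gat lS4 (codeN A (sel a b c d e f g h)) = sig A a b c d e :=
    congrArg (512 + ·) ((gat_code _ _ _ (by decide)).trans rfl)
  have k6 : 512 + gat lS5 (codeN A (sel a b c d e f g h)) = sig A a b c d f :=
    congrArg (512 + ·) ((gat_code _ _ _ (by decide)).trans rfl)
  have k7 : adj (codeN A (sel a b c d e f g h)) 7 6 = A h g :=
    adj_codeN _ _ (by norm_num) (by norm_num)
  unfold c8 cS
  rw [← pmI_code A a b c d e f g h, e4, e6, k1, k2, k3, k4, k5, k6, k7]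
  unfold ed
  push_cast
  ring

theorem c7_code (hs : ∀ u v, A u v = A v u) (hi : ∀ u, A u u = false) (a b c d e f g h : V) :
    (c7 L4 L6 (codeN A (sel a b c d e f g h)) : ℝ) =
    -2 * (QL L4 (ty4 A a b c d) (kap A a b c d e f) (sig A a b c d g) : ℝ)
    - 2 * (QL L6 (ty6 A a b c d e f) 64 (pi6 A a b c d e f g) : ℝ)
    - 307200 * (if pat A a b c d e then 1 else 0) * ed A g f := by
  have e4 : blk 4 (codeN A (sel a b c d e f g h)) = ty4 A a b c d :=
    blk_code A _ _ (fun i hi => by interval_cases i <;> rfl)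
  have e6 : blk 6 (codeN A (sel a b c d e f g h)) = ty6 A a b c d e f :=
    blk_code A _ _ (fun i hi => by interval_cases i <;> rfl)
  have k1 : gat lK (codeN A (sel a b c d e f g h)) = kap A a b c d e f :=
    (gat_code _ _ _ (by decide)).trans rfl
  have k3 : gat lP6 (codeN A (sel a b c d e f g h)) = pi6 A a b c d e f g :=
    (gat_code _ _ _ (by decide)).trans rfl
  have k5 : 512 + gat lS6 (codeN A (sel a b c d e f g h)) = sig A a b c d g :=
    congrArg (512 + ·) ((gat_code _ _ _ (by decide)).trans rfl)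
  have k7 : adj (codeN A (sel a b c d e f g h)) 6 5 = A g f :=
    adj_codeN _ _ (by norm_num) (by norm_num)
  unfold c7
  rw [← c5I_code A hs hi a b c d e f g h, e4, e6, k1, k3, k5, k7]
  unfold ed
  push_cast
  ring

end

theorem Psd.two {Q : ℕ → ℕ → ℤ} (h : Psd Q) (hs : ∀ i j, Q i j = Q j i) {α β : Type} [Fintype α]
    [Fintype β] (κ : α → ℕ) (σ : β → ℕ) (t : ℝ) :
    0 ≤ ∑ a, ∑ a', (Q (κ a) (κ a') : ℝ) + 2 * t * ∑ a, ∑ b, (Q (κ a) (σ b) : ℝ) +
      t ^ 2 * ∑ b, ∑ b', (Q (σ b) (σ b') : ℝ) := by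
  have := h (α ⊕ β) (Sum.elim (fun _ => 1) (fun _ => t)) (Sum.elim κ σ)
  simp only [Fintype.sum_sum_type, Sum.elim_inl, Sum.elim_inr, sum_add_distrib, one_mul, mul_one,
    ← mul_sum] at this
  have e : ∑ b, ∑ a, (Q (σ b) (κ a) : ℝ) = ∑ a, ∑ b, (Q (κ a) (σ b) : ℝ) := by
    rw [sum_comm]; simp only [hs (σ _) (κ _)]
  rw [e] at this
  linarith

section
variable {V : Type} [Fintype V]

def S6 (F : V → V → V → V → V → V → ℝ) : ℝ := ∑ a, ∑ b, ∑ c, ∑ d, ∑ e, ∑ f, F a b c d e f

theorem S6_add (F G : V → V → V → V → V → V → ℝ) :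
    S6 (fun a b c d e f => F a b c d e f + G a b c d e f) = S6 F + S6 G := by
  simp only [S6, sum_add_distrib]

theorem S6_mul (k : ℝ) (F : V → V → V → V → V → V → ℝ) :
    S6 (fun a b c d e f => k * F a b c d e f) = k * S6 F := by
  simp only [S6, mul_sum]

noncomputable def MM (A : V → V → Bool) : ℝ := ∑ u, ∑ v, ed A u v
noncomputable def N5 (A : V → V → Bool) : ℝ :=
  ∑ a, ∑ b, ∑ c, ∑ d, ∑ e, if pat A a b c d e then 1 else 0

theorem MM_nonneg (A : V → V → Bool) : 0 ≤ MM A :=
  sum_nonneg fun _ _ => sum_nonneg fun _ _ => by unfold ed; split_ifs <;> norm_num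

theorem count_ineq {L4 L6 : List Blk} (h4 : LOK L4 528) (h6 : LOK L6 65)
    (cert : ∀ g, Good g → 0 ≤ Sym (c8 L4 L6) 8 g ∧ 0 ≤ Sym (c7 L4 L6) 7 g)
    (A : V → V → Bool) (hs : ∀ u v, A u v = A v u) (hi : ∀ u, A u u = false) :
    N5 A ≤ 3 / 200 * √5 * MM A ^ (5 / 2 : ℝ) := by
  have hM := MM_nonneg A
  rcases hM.eq_or_lt with h0 | hM
  · have z : ∀ u v, A u v = false := by
      intro u v
      have n1 : ∀ u v, 0 ≤ ed A u v := fun _ _ => by unfold ed; split_ifs <;> norm_num
      have := (sum_eq_zero_iff_of_nonneg (fun u _ => sum_nonneg fun v _ => n1 u v)).1 h0.symm u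
        (mem_univ _)
      have := (sum_eq_zero_iff_of_nonneg (fun v _ => n1 u v)).1 this v (mem_univ _)
      unfold ed at this
      cases h : A u v
      · rfl
      · simp [h] at this
    have : N5 A = 0 := by simp [N5, pat, z]
    rw [this]; positivity
  have hV : (0 : ℝ) < Fintype.card V := by
    rcases isEmpty_or_nonempty V with h | h
    · simp [MM] at hM
    · exact_mod_cast Fintype.card_pos
  have t8 : (0 : ℝ) ≤ ∑ x : Fin 8 → V, (c8 L4 L6 (code A x) : ℝ) := by
    have h1 : 0 ≤ ∑ x : Fin 8 → V, Sym (c8 L4 L6) 8 (code A x) :=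
      sum_nonneg fun x _ => (cert _ (code_good A hs hi x)).1
    rw [sum_Sym A _ 8 le_rfl] at h1
    have h2 := nonneg_of_mul_nonneg_right h1 (by exact_mod_cast Nat.factorial_pos 8)
    exact_mod_cast h2
  have t7 : (0 : ℝ) ≤ ∑ x : Fin 8 → V, (c7 L4 L6 (code A x) : ℝ) := by
    have h1 : 0 ≤ ∑ x : Fin 8 → V, Sym (c7 L4 L6) 7 (code A x) :=
      sum_nonneg fun x _ => (cert _ (code_good A hs hi x)).2
    rw [sum_Sym A _ 7 (by norm_num)] at h1
    have h2 := nonneg_of_mul_nonneg_right h1 (by exact_mod_cast Nat.factorial_pos 7)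
    exact_mod_cast h2
  set X8 := S6 fun a b c d e f => ∑ g, ∑ h,
    (QL L4 (ty4 A a b c d) (kap A a b c d e f) (kap A a b c d g h) : ℝ) with hX8
  set Y8 := S6 fun a b c d e f => ∑ g, ∑ h,
    (QL L6 (ty6 A a b c d e f) (pi6 A a b c d e f g) (pi6 A a b c d e f h) : ℝ) with hY8
  set X7 := S6 fun a b c d e f => ∑ g,
    (QL L4 (ty4 A a b c d) (kap A a b c d e f) (sig A a b c d g) : ℝ) with hX7
  set Y7 := S6 fun a b c d e f => ∑ g,
    (QL L6 (ty6 A a b c d e f) 64 (pi6 A a b c d e f g) : ℝ) with hY7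
  set X6 := S6 fun a b c d e f =>
    (QL L4 (ty4 A a b c d) (sig A a b c d e) (sig A a b c d f) : ℝ) with hX6
  set Y6 := S6 fun a b c d e f => (QL L6 (ty6 A a b c d e f) 64 64 : ℝ) with hY6
  have hM' : ∑ u, ∑ v, ed A v u = MM A := sum_comm
  have pm : S6 (fun a b c d e f => ed A b a * ed A d c * ed A f e) = MM A * MM A * MM A := by
    simp only [S6, ← mul_sum, ← sum_mul, hM']
  have c5 : S6 (fun a b c d e f => (if pat A a b c d e then 1 else 0) * ∑ g, ed A g f) =
      N5 A * MM A := by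
    simp only [S6, N5, ← mul_sum, ← sum_mul, hM']
  have e8 : ∑ x : Fin 8 → V, (c8 L4 L6 (code A x) : ℝ) = -5 * X8 + -5 * Y8 +
      MM A * (23040 * (MM A * MM A * MM A) + -1 * X6 + -1 * Y6) := by
    rw [sum_eight, ← pm, hX8, hY8, hX6, hY6]
    simp only [← S6_mul, ← S6_add]
    unfold S6
    iterate 6 (refine sum_congr rfl fun _ _ => ?_)
    simp only [code_vec, c8_code, sum_add_distrib, sum_sub_distrib, ← mul_sum, ← sum_mul, hM']
    ring
  have e7 : ∑ x : Fin 8 → V, (c7 L4 L6 (code A x) : ℝ) = (Fintype.card V : ℝ) *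
      (-2 * X7 + -2 * Y7 + -307200 * (N5 A * MM A)) := by
    rw [sum_eight, ← c5, hX7, hY7]
    simp only [← S6_mul, ← S6_add]
    unfold S6
    iterate 6 (refine sum_congr rfl fun _ _ => ?_)
    simp only [code_vec, c7_code A L4 L6 hs hi, sum_const, card_univ, nsmul_eq_mul, sum_sub_distrib,
      ← mul_sum]
    ring
  have p4 : ∀ t : ℝ, 0 ≤ X8 + 2 * t * X7 + t ^ 2 * X6 := by
    intro t
    rw [hX8, hX7, hX6]
    simp only [← S6_mul, ← S6_add]
    unfold S6
    iterate 4 (refine sum_nonneg fun _ _ => ?_)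
    rename_i a _ b _ c _ d _
    have := (QL_psd h4 (ty4 A a b c d)).two (QL_symm h4 _)
      (fun p : V × V => kap A a b c d p.1 p.2) (sig A a b c d) t
    simp only [Fintype.sum_prod_type] at this
    simp only [sum_add_distrib, ← mul_sum]
    exact this
  have p6 : ∀ t : ℝ, 0 ≤ Y8 + 2 * t * Y7 + t ^ 2 * Y6 := by
    intro t
    rw [hY8, hY7, hY6]
    simp only [← S6_mul, ← S6_add]
    unfold S6
    iterate 6 (refine sum_nonneg fun _ _ => ?_)
    rename_i a _ b _ c _ d _ e _ f _
    have := (QL_psd h6 (ty6 A a b c d e f)).two (QL_symm h6 _)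
      (pi6 A a b c d e f) (fun _ : Unit => 64) t
    simp only [Fintype.sum_unique, QL_symm h6 _ (pi6 A a b c d e f _) 64] at this
    exact this
  rw [e8] at t8
  rw [e7] at t7
  have t7' := nonneg_of_mul_nonneg_right t7 hV
  generalize MM A = M at *
  generalize N5 A = N at *
  obtain ⟨t, ht, rfl⟩ : ∃ t : ℝ, 0 < t ∧ M = 5 * t ^ 2 :=
    ⟨√(M / 5), by positivity, by rw [Real.sq_sqrt (by positivity)]; ring⟩
  have q4 := p4 t
  have q6 := p6 t
  have e5 : (5 * t ^ 2) ^ (5 / 2 : ℝ) = 25 * √5 * t ^ 5 := by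
    have : 5 * t ^ 2 = (√5 * t) ^ (2 : ℝ) := by
      rw [Real.rpow_two, mul_pow, Real.sq_sqrt (by norm_num)]
    rw [this, ← Real.rpow_mul (by positivity), show (2 : ℝ) * (5 / 2) = (5 : ℕ) by norm_num,
      Real.rpow_natCast, mul_pow, show (√5 : ℝ) ^ 5 = (√5 ^ 2) ^ 2 * √5 by ring,
      Real.sq_sqrt (by norm_num)]
    ring
  have e6 : 3 / 200 * √5 * (25 * √5 * t ^ 5) = 15 / 8 * t ^ 5 := by
    have : (√5 : ℝ) * √5 = 5 := Real.mul_self_sqrt (by norm_num)
    calc _ = 3 / 8 * (√5 * √5) * t ^ 5 := by ring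
      _ = _ := by rw [this]; ring
  rw [e5, e6]
  have h3 : 0 < t ^ 3 := by positivity
  have := mul_nonneg ht.le t7'
  refine le_of_mul_le_mul_left ?_ h3
  nlinarith

end

end Pool.Agent.Lib.MP_49b2f4_co
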