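import Pool.Agent.Lib.MP_49b2f4_co.SymV

/-! The certificate functions and their symmetrisation over six vertices. -/

namespace Pool.Agent.Lib.MP_49b2f4_co

open Finset

noncomputable def fnd {α : Type} (l : List Blk) (τ : ℕ) (f : Blk → α) (z : α) : α :=
  List.rec (motive := fun _ => α) z (fun B _ ih => cond (Nat.beq B.t τ) (f B) ih) l

theorem fnd_cases (l : List Blk) (τ : ℕ) :
    (∀ (α : Type) (f : Blk → α) (z : α), fnd l τ f z = z) ∨
    ∃ B ∈ l, ∀ (α : Type) (f : Blk → α) (z : α), fnd l τ f z = f B := by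
  induction l with
  | nil => left; intro _ _ _; rfl
  | cons B l ih =>
    have e : ∀ (α : Type) (f : Blk → α) (z : α),
        fnd (B :: l) τ f z = cond (Nat.beq B.t τ) (f B) (fnd l τ f z) := fun _ _ _ => rfl
    cases h : Nat.beq B.t τ
    · rcases ih with h1 | ⟨B', hm, h1⟩
      · left; intro α f z; rw [e, h, cond_false, h1]
      · right; exact ⟨B', List.mem_cons_of_mem _ hm, fun α f z => by rw [e, h, cond_false, h1]⟩
    · right; exact ⟨B, List.mem_cons_self, fun α f z => by rw [e, h, cond_true]⟩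

noncomputable def QL (l : List Blk) (τ k1 k2 : ℕ) : ℤ := fnd l τ (fun B => Qb B k1 k2) 0
noncomputable def nL (l : List Blk) (τ : ℕ) : ℤ := fnd l τ (fun _ => 2097152) 0

def LOK (l : List Blk) (n : ℕ) : Prop := ∀ B ∈ l, B.OK ∧ B.n = n

theorem QL_le {l : List Blk} {n : ℕ} (h : LOK l n) (τ k1 : ℕ) {k2 : ℕ} (hk : k2 < n) :
    QL l τ k1 k2 ≤ nL l τ ∧ nL l τ ≤ 2097152 := by
  unfold QL nL
  rcases fnd_cases l τ with e | ⟨B, hB, e⟩
  · rw [e, e]; norm_num
  · rw [e, e]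
    have := (h B hB).1.val k1 k2 (by rw [(h B hB).2]; exact hk)
    omega

theorem QL_symm {l : List Blk} {n : ℕ} (h : LOK l n) (τ k1 k2 : ℕ) :
    QL l τ k1 k2 = QL l τ k2 k1 := by
  unfold QL
  rcases fnd_cases l τ with e | ⟨B, hB, e⟩
  · rw [e, e]
  · rw [e, e]; exact (h B hB).1.symm _ _

theorem QL_psd {l : List Blk} {n : ℕ} (h : LOK l n) (τ : ℕ) : Psd (QL l τ) := by
  unfold QL
  rcases fnd_cases l τ with e | ⟨B, hB, e⟩
  · intro ι _ a κ; simp [e]
  · simp only [e]; exact (h B hB).1.psd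

def pmI (g : ℕ) : ℤ := if blk 6 g &&& 17592253153536 = 17592253153536 then 1 else 0
def c5I (g : ℕ) : ℤ := if blk 5 g = 38990906642 then 1 else 0

section
variable (L4 L6 : List Blk)

noncomputable def cS (g : ℕ) : ℤ :=
  23040 * pmI g - QL L4 (blk 4 g) (512 + gat lS4 g) (512 + gat lS5 g) - QL L6 (blk 6 g) 64 64

noncomputable def c8 (g : ℕ) : ℤ :=
  -5 * QL L4 (blk 4 g) (gat lK g) (gat lK2 g) + -5 * QL L6 (blk 6 g) (gat lP6 g) (gat lP7 g)
    + (if adj g 7 6 then 1 else 0) * cS L4 L6 g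

noncomputable def c7 (g : ℕ) : ℤ :=
  -2 * QL L4 (blk 4 g) (gat lK g) (512 + gat lS6 g) - 2 * QL L6 (blk 6 g) 64 (gat lP6 g)
    - 307200 * c5I g * (if adj g 6 5 then 1 else 0)

noncomputable def kk1 (h : ℕ) : ℕ := Nat.add (Nat.mul 32 (bits h 32 15)) (bits h 40 31)

noncomputable def leaf4 (h : ℕ) : ℕ :=
  fnd L4 (Nat.land h 252645135) (fun B => row B (kk1 h)) 0

noncomputable def leaf6 (h : ℕ) : ℕ :=
  fnd L6 h (fun B => cat (Nat.mul 41 128) (fun p => dup 41 6 (row B p)) 6 0) 0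

noncomputable def pk (v x y z : ℕ) : ℕ :=
  Nat.lor (Nat.lor v (Nat.shiftLeft x (Nat.mul 41 64)))
    (Nat.lor (Nat.shiftLeft y (Nat.mul 41 65)) (Nat.shiftLeft z (Nat.mul 41 66)))

noncomputable def smA (h : ℕ) : ℕ :=
  fnd L4 (Nat.land h 252645135) (fun B =>
    pk (Nat.mul 2 (dup 41 5 (dup 41 4 (Nat.shiftRight (row B (kk1 h)) (Nat.mul 41 512)))))
      (fl 41 (row B (Nat.add 512 (bits h 32 15))) (Nat.add 512 (bits h 40 15))) 2097152 0) 0

noncomputable def smB (h : ℕ) : ℕ :=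
  fnd L6 h (fun B => pk (Nat.mul 2 (Nat.mod (row B 64) (Nat.pow 2 (Nat.mul 41 64))))
    (fl 41 (row B 64) 64) 2097152 0) 0

noncomputable def smC (h : ℕ) : ℕ :=
  cond (Nat.beq (Nat.land h 133666119455) 38990906642) (pk (mk 41 307200 6 5 6) 0 0 307200) 0

noncomputable def smD (h : ℕ) : ℕ :=
  cond (Nat.beq (Nat.land h 17592253153536) 17592253153536) (pk 0 23040 0 0) 0

noncomputable def leafS (h : ℕ) : ℕ :=
  Nat.add (Nat.add (smA L4 h) (smB L6 h)) (Nat.add (smC h) (smD h))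

noncomputable def SM (H : ℕ) : ℕ := symV (leafS L4 L6) swS 6 H

noncomputable def VV (f6 : ℕ → Bool) (H : ℕ) : ℕ :=
  Nat.mul 5 (Nat.add (rearr (symV (leaf4 L4) sw4 6 H)) (cond (f6 H) (symV (leaf6 L6) sw6 6 H) 0))

noncomputable def YY (N : ℕ) : ℕ := Nat.add (cst 41 (Nat.mul 5 N) 7) (mk 41 N 6 7 7)
noncomputable def ZZ (S : ℕ) : ℕ := Nat.add (cst 41 18119393280 7) (mk 41 S 6 7 7)

noncomputable def chkA (f6 : ℕ → Bool) : ℕ → ℕ → ℕ → List ℕ → Bool := fun k a b _ =>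
  cond (Nat.beq (Nat.div k 64) b)
    (cond (Nat.beq (Nat.land a (cst 41 34359738367 8)) a)
      (cond (Nat.beq
          (Nat.add (Nat.mod a (Nat.pow 2 (Nat.mul 41 128))) (YY (fl 41 (SM L4 L6 b) 65)))
          (Nat.add (fl (Nat.mul 41 128) (VV L4 L6 f6 b) (Nat.mod k 64))
            (ZZ (fl 41 (SM L4 L6 b) 64))))
        (Nat.beq
          (Nat.add (Nat.add (fl 41 a 128) (Nat.mul 2 (fl 41 (SM L4 L6 b) 65)))
            (fl 41 (SM L4 L6 b) 66))
          (Nat.add (fl 41 (SM L4 L6 b) (Nat.mod k 64)) 6260981760)) false) false) false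

end

theorem land4 (g : ℕ) : Nat.land (blk 6 g) 252645135 = blk 4 g := by
  rw [← blk_blk (n := 4) (m := 6) (by norm_num) g, ← blkM4]; rfl

theorem land5 (g : ℕ) : Nat.land (blk 6 g) 133666119455 = blk 5 g := by
  rw [← blk_blk (n := 5) (m := 6) (by norm_num) g, ← blkM5]; rfl

theorem bits_S4 (g : ℕ) : bits (blk 6 g) 32 15 = gat lS4 g := by
  rw [← gat_blk (n := 6) (l := lS4) (by norm_num) (by decide)]; exact bits_eq _ 32 4

theorem bits_S5 (g : ℕ) : bits (blk 6 g) 40 15 = gat lS5 g := by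
  rw [← gat_blk (n := 6) (l := lS5) (by norm_num) (by decide)]; exact bits_eq _ 40 4

theorem kk1_eq (g : ℕ) : kk1 (blk 6 g) = gat lK g := by
  rw [← gat_blk (n := 6) (l := lK) (by norm_num) (by decide)]
  have e1 := bits_eq (blk 6 g) 32 4
  have e2 := bits_eq (blk 6 g) 40 5
  have e3 := gat_append (List.range' 40 5) (List.range' 32 4) (blk 6 g)
  rw [← e1, ← e2] at e3
  exact e3.symm

structure Rep (v g : ℕ) (x0 x1 x2 x3 : ℤ) (B : ℕ) : Prop where
  b : Bnd 41 v B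
  h0 : (fld 41 v (gat lP6 g) : ℤ) = x0
  h1 : (fld 41 v 64 : ℤ) = x1
  h2 : (fld 41 v 65 : ℤ) = x2
  h3 : (fld 41 v 66 : ℤ) = x3

theorem Rep.zero (g B : ℕ) : Rep 0 g 0 0 0 0 B :=
  ⟨bnd_zero _ _, by simp [fld_zero], by simp [fld_zero], by simp [fld_zero], by simp [fld_zero]⟩

theorem Rep.add {u v g A B : ℕ} {x0 x1 x2 x3 y0 y1 y2 y3 : ℤ} (h : Rep u g x0 x1 x2 x3 A)
    (k : Rep v g y0 y1 y2 y3 B) (hb : A + B < 2 ^ 41) :
    Rep (Nat.add u v) g (x0 + y0) (x1 + y1) (x2 + y2) (x3 + y3) (A + B) := by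
  have e := h.b.fld_add k.b hb
  refine ⟨h.b.add k.b hb, ?_, ?_, ?_, ?_⟩ <;> rw [Nat.add_eq, e, Nat.cast_add]
  · rw [h.h0, k.h0]
  · rw [h.h1, k.h1]
  · rw [h.h2, k.h2]
  · rw [h.h3, k.h3]

theorem fld_pk {v x y z : ℕ} (hv : ∀ i, 64 ≤ i → fld 41 v i = 0) (hx : x < 2 ^ 41)
    (hy : y < 2 ^ 41) (hz : z < 2 ^ 41) (i : ℕ) :
    fld 41 (pk v x y z) i = if i < 64 then fld 41 v i else if i = 64 then x else
      if i = 65 then y else if i = 66 then z else 0 := by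
  have e : pk v x y z = (v ||| x <<< (41 * 64)) ||| (y <<< (41 * 65) ||| z <<< (41 * 66)) := rfl
  rw [e, fld_or, fld_or, fld_or, fld_shl, fld_shl, fld_shl, fld_small hx, fld_small hy,
    fld_small hz]
  by_cases c : i < 64
  · rw [if_pos c, if_neg (by omega), if_neg (by omega), if_neg (by omega)]; simp
  · rw [if_neg c, hv i (by omega)]
    split_ifs <;> first | omega | simp

theorem Rep.pk {v x y z B : ℕ} (g : ℕ) (hv : ∀ i, 64 ≤ i → fld 41 v i = 0) (hb : Bnd 41 v B)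
    (hx : x ≤ B) (hy : y ≤ B) (hz : z ≤ B) (hB : B < 2 ^ 41) :
    Rep (pk v x y z) g (fld 41 v (gat lP6 g)) x y z B := by
  have e := fld_pk hv (lt_of_le_of_lt hx hB) (lt_of_le_of_lt hy hB) (lt_of_le_of_lt hz hB)
  have h64 : gat lP6 g < 64 := gat_lt _ _
  refine ⟨fun i => ?_, by rw [e, if_pos h64], by rw [e]; simp, by rw [e]; simp, by rw [e]; simp⟩
  rw [e]; split_ifs
  exacts [hb i, hx, hy, hz, Nat.zero_le _]

section
variable {L4 L6 : List Blk}

theorem smA_rep (h4 : LOK L4 528) (g : ℕ) : Rep (smA L4 (blk 6 g)) g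
    (2 * (nL L4 (blk 4 g) - QL L4 (blk 4 g) (gat lK g) (512 + gat lS6 g)))
    (nL L4 (blk 4 g) - QL L4 (blk 4 g) (512 + gat lS4 g) (512 + gat lS5 g))
    (nL L4 (blk 4 g)) 0 8388606 := by
  unfold smA nL QL
  rw [land4]
  rcases fnd_cases L4 (blk 4 g) with e | ⟨B, hB, e⟩
  · simp only [e]; exact Rep.zero _ _
  · simp only [e]
    obtain ⟨ok, hn⟩ := h4 B hB
    rw [kk1_eq, bits_S4, bits_S5, fl_eq]
    have b1 : Bnd 41 (dup 41 5 (dup 41 4 (row B (gat lK g) >>> (41 * 512)))) 4194303 :=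
      ((ok.bnd _).shr _).dup.dup
    have h16 : gat lS6 g < 16 := gat_lt _ _
    have h16' : gat lS5 g < 16 := gat_lt _ _
    have r := Rep.pk (v := 2 * dup 41 5 (dup 41 4 (row B (gat lK g) >>> (41 * 512))))
      (x := fld 41 (row B (512 + gat lS4 g)) (512 + gat lS5 g)) (y := 2097152) (z := 0)
      (B := 8388606) g
      (fun i hi => by rw [b1.mul_aux 2 (by norm_num), fld_dup, if_neg (by omega)])
      (b1.mul 2 (by norm_num)) ((ok.bnd _ _).trans (by norm_num)) (by norm_num) (by norm_num)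
      (by norm_num)
    rw [b1.mul_aux 2 (by norm_num), fld_dup_gat _ _ _ _ (by rfl), fld_dup_gat _ _ _ _ (by rfl),
      fld_shr, show (lP6.take 5).take 4 = lS6 from rfl, Nat.cast_mul, ok.val _ _ (by omega),
      ok.val _ _ (by omega)] at r
    exact r

theorem smB_rep (h6 : LOK L6 65) (g : ℕ) : Rep (smB L6 (blk 6 g)) g
    (2 * (nL L6 (blk 6 g) - QL L6 (blk 6 g) 64 (gat lP6 g)))
    (nL L6 (blk 6 g) - QL L6 (blk 6 g) 64 64) (nL L6 (blk 6 g)) 0 8388606 := by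
  unfold smB nL QL
  rcases fnd_cases L6 (blk 6 g) with e | ⟨B, hB, e⟩
  · simp only [e]; exact Rep.zero _ _
  · simp only [e]
    obtain ⟨ok, hn⟩ := h6 B hB
    rw [fl_eq]
    have b1 : Bnd 41 (row B 64 % 2 ^ (41 * 64)) 4194303 := (ok.bnd _).mod _
    have h64 : gat lP6 g < 64 := gat_lt _ _
    have r := Rep.pk (v := 2 * (row B 64 % 2 ^ (41 * 64)))
      (x := fld 41 (row B 64) 64) (y := 2097152) (z := 0) (B := 8388606) g
      (fun i hi => by rw [b1.mul_aux 2 (by norm_num), fld_mod, if_neg (by omega)])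
      (b1.mul 2 (by norm_num)) ((ok.bnd _ _).trans (by norm_num)) (by norm_num) (by norm_num)
      (by norm_num)
    rw [b1.mul_aux 2 (by norm_num), fld_mod, if_pos h64, Nat.cast_mul, ok.val _ _ (by omega),
      ok.val _ _ (by omega)] at r
    exact r

theorem smC_rep (g : ℕ) : Rep (smC (blk 6 g)) g
    (307200 * c5I g * (1 - if adj g 6 5 then 1 else 0)) 0 0 (307200 * c5I g) 307200 := by
  unfold smC c5I
  rw [land5, cond_beq]
  by_cases c : blk 5 g = 38990906642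
  · rw [if_pos c, if_pos c]
    have hm := fld_mk (W := 41) (c := 307200) (by norm_num) 6 5 6
    have r := Rep.pk (v := mk 41 307200 6 5 6) (x := 0) (y := 0) (z := 307200) (B := 307200) g
      (fun i hi => by rw [hm, if_neg (fun h => by have := h.1; omega)])
      (bnd_mk (by norm_num) _ _ _) (by norm_num) (by norm_num) le_rfl (by norm_num)
    have h64 : gat lP6 g < 64 := gat_lt _ _
    have ht : (gat lP6 g).testBit 5 = adj g 6 5 := by rw [testBit_gat]; rfl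
    have hP : MkP 6 5 6 (gat lP6 g) ↔ adj g 6 5 = false := by
      unfold MkP; rw [ht]; simp; intro _; exact h64
    rw [hm] at r
    simp only [hP] at r
    cases h : adj g 6 5 <;> simp only [h] at r ⊢ <;> simpa using r
  · rw [if_neg c, if_neg c]; simpa using Rep.zero g _

theorem smD_rep (g : ℕ) : Rep (smD (blk 6 g)) g 0 (23040 * pmI g) 0 0 23040 := by
  unfold smD pmI
  rw [cond_beq]
  have e : Nat.land (blk 6 g) 17592253153536 = blk 6 g &&& 17592253153536 := rfl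
  rw [e]
  split_ifs with c
  · have r := Rep.pk (v := 0) (x := 23040) (y := 0) (z := 0) (B := 23040) g
      (fun i _ => fld_zero _ _) (bnd_zero _ _) le_rfl (by norm_num) (by norm_num) (by norm_num)
    rw [fld_zero] at r
    simpa using r
  · simpa using Rep.zero g _

noncomputable def nn (L4 L6 : List Blk) (g : ℕ) : ℤ := nL L4 (blk 4 g) + nL L6 (blk 6 g)

theorem leafS_rep (h4 : LOK L4 528) (h6 : LOK L6 65) (g : ℕ) : Rep (leafS L4 L6 (blk 6 g)) g
    (c7 L4 L6 g + (2 * nn L4 L6 g + 307200 * c5I g)) (cS L4 L6 g + nn L4 L6 g) (nn L4 L6 g)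
    (307200 * c5I g) 17107452 := by
  have r := ((smA_rep h4 g).add (smB_rep h6 g) (by norm_num)).add
    ((smC_rep g).add (smD_rep g) (by norm_num)) (by norm_num)
  unfold leafS c7 cS nn
  convert r using 1 <;> ring

theorem SM_rep (h4 : LOK L4 528) (h6 : LOK L6 65) {g : ℕ} (hg : Good g) :
    Rep (SM L4 L6 (blk 6 g)) g
      (Sym (c7 L4 L6) 6 g + (2 * Sym (nn L4 L6) 6 g + Sym (fun g => 307200 * c5I g) 6 g))
      (Sym (cS L4 L6) 6 g + Sym (nn L4 L6) 6 g) (Sym (nn L4 L6) 6 g)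
      (Sym (fun g => 307200 * c5I g) 6 g) 12317365440 := by
  obtain ⟨b, s⟩ := symV_spec (W := 41) (m := 6) (B := 17107452) (leaf := leafS L4 L6) (sw := swS)
    (by norm_num) (fun g _ => (leafS_rep h4 h6 g).b) 6 le_rfl (by decide) swS_bnd
  refine ⟨b g hg, ?_, ?_, ?_, ?_⟩
  · rw [← Sym_smul, ← Sym_add, ← Sym_add]
    exact s (fun _ g => gat lP6 g) _ (fun g _ => (leafS_rep h4 h6 g).h0) swS_fld g hg
  · rw [← Sym_add]
    exact s (fun _ _ => 64) _ (fun g _ => (leafS_rep h4 h6 g).h1)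
      (fun j hj i hi v _ => swS_high (by norm_num) j hj i hi v) g hg
  · exact s (fun _ _ => 65) _ (fun g _ => (leafS_rep h4 h6 g).h2)
      (fun j hj i hi v _ => swS_high (by norm_num) j hj i hi v) g hg
  · exact s (fun _ _ => 66) _ (fun g _ => (leafS_rep h4 h6 g).h3)
      (fun j hj i hi v _ => swS_high (by norm_num) j hj i hi v) g hg

theorem V4_spec (h4 : LOK L4 528) {g : ℕ} (hg : Good g) :
    Bnd 41 (rearr (symV (leaf4 L4) sw4 6 (blk 6 g))) 3019898160 ∧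
    (fld 41 (rearr (symV (leaf4 L4) sw4 6 (blk 6 g))) (gat lF g) : ℤ) =
      Sym (fun g => nL L4 (blk 4 g) - QL L4 (blk 4 g) (gat lK g) (gat lK2 g)) 6 g := by
  have key : ∀ g, Bnd 41 (leaf4 L4 (blk 6 g)) 4194303 ∧
      (fld 41 (leaf4 L4 (blk 6 g)) (gat lK2 g) : ℤ) =
        nL L4 (blk 4 g) - QL L4 (blk 4 g) (gat lK g) (gat lK2 g) := by
    intro g
    unfold leaf4 nL QL
    rw [land4]
    rcases fnd_cases L4 (blk 4 g) with e | ⟨B, hB, e⟩
    · simp only [e]; exact ⟨bnd_zero _ _, by simp [fld_zero]⟩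
    · simp only [e]
      obtain ⟨ok, hn⟩ := h4 B hB
      have : gat lK2 g < 512 := gat_lt _ _
      rw [kk1_eq]
      exact ⟨ok.bnd _, ok.val _ _ (by omega)⟩
  obtain ⟨b, s⟩ := symV_spec (W := 41) (m := 6) (B := 4194303) (leaf := leaf4 L4) (sw := sw4)
    (by norm_num) (fun g _ => (key g).1) 6 le_rfl (by decide) sw4_bnd
  refine ⟨rearr_bnd (b g hg), ?_⟩
  rw [rearr_fld]
  exact s (fun j g => gat (lC.take (lenC j)) g) _ (fun g _ => (key g).2) sw4_fld g hg

theorem V6_spec (h6 : LOK L6 65) {g : ℕ} (hg : Good g) :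
    Bnd 41 (symV (leaf6 L6) sw6 6 (blk 6 g)) 3019898160 ∧
    (fld 41 (symV (leaf6 L6) sw6 6 (blk 6 g)) (gat lF g) : ℤ) =
      Sym (fun g => nL L6 (blk 6 g) - QL L6 (blk 6 g) (gat lP6 g) (gat lP7 g)) 6 g := by
  have key : ∀ g, Bnd 41 (leaf6 L6 (blk 6 g)) 4194303 ∧
      (fld 41 (leaf6 L6 (blk 6 g)) (gat lF g) : ℤ) =
        nL L6 (blk 6 g) - QL L6 (blk 6 g) (gat lP6 g) (gat lP7 g) := by
    intro g
    unfold leaf6 nL QL
    rcases fnd_cases L6 (blk 6 g) with e | ⟨B, hB, e⟩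
    · simp only [e]; exact ⟨bnd_zero _ _, by simp [fld_zero]⟩
    · simp only [e]
      obtain ⟨ok, hn⟩ := h6 B hB
      have h1 : gat lP7 g < 64 := gat_lt _ _
      refine ⟨bnd_cat (n := 128) (by norm_num) (fun p => (ok.bnd p).dup) _, ?_⟩
      rw [gat_lF, Nat.mul_eq, fld_cat2 41 128 _ 6 _ _ (gat_lt lP6 g) (gat_lt l7 g),
        fld_dup_gat _ _ _ _ (by rfl)]
      exact ok.val _ _ (by rw [hn]; exact lt_trans h1 (by norm_num))
  obtain ⟨b, s⟩ := symV_spec (W := 41) (m := 6) (B := 4194303) (leaf := leaf6 L6) (sw := sw6)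
    (by norm_num) (fun g _ => (key g).1) 6 le_rfl (by decide) sw6_bnd
  exact ⟨b g hg, s (fun _ g => gat lF g) _ (fun g _ => (key g).2) sw6_fld g hg⟩

theorem chkA_spec (h4 : LOK L4 528) (h6 : LOK L6 65) {f6 : ℕ → Bool} {k a b : ℕ} {s : List ℕ}
    (h : chkA L4 L6 f6 k a b s = true) : Bnd 41 a 34359738367 ∧ ∀ g, Good g →
      k = 64 * blk 6 g + gat lP6 g →
      (fld 41 a (gat l7 g) : ℤ) ≤ Sym (c8 L4 L6) 6 g + 18119393280 ∧
      (fld 41 a 128 : ℤ) ≤ Sym (c7 L4 L6) 6 g + 6260981760 := by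
  unfold chkA at h
  obtain ⟨e1, h⟩ := band h
  obtain ⟨e2, h⟩ := band h
  obtain ⟨e3, e4⟩ := band h
  have ba : Bnd 41 a 34359738367 := bnd_of_land (bnd_cst (by norm_num) _) e2
  refine ⟨ba, fun g hg hk => ?_⟩
  have h64 : gat lP6 g < 64 := gat_lt _ _
  have h128 : gat l7 g < 128 := gat_lt _ _
  have hb : b = blk 6 g := by
    have : k / 64 = b := beq_sp e1
    omega
  have hp : Nat.mod k 64 = gat lP6 g := by
    show k % 64 = _
    omega
  subst hb
  have r := SM_rep h4 h6 hg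
  obtain ⟨b4, v4⟩ := V4_spec h4 hg
  obtain ⟨b6, v6⟩ := V6_spec h6 hg
  have e3 := beq_sp e3
  have e4 := beq_sp e4
  simp only [hp, fl_eq, Nat.add_eq, Nat.mul_eq] at e3 e4
  constructor
  · have hN := r.b 65
    have hS := r.b 64
    have hx : ∃ x : ℕ, (x : ℤ) ≤ fld 41 (symV (leaf6 L6) sw6 6 (blk 6 g)) (gat lF g) ∧
        Bnd 41 (VV L4 L6 f6 (blk 6 g)) 30198981600 ∧
        fld 41 (VV L4 L6 f6 (blk 6 g)) (gat lF g) =
          5 * (fld 41 (rearr (symV (leaf4 L4) sw4 6 (blk 6 g))) (gat lF g) + x) := by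
      unfold VV
      cases f6 (blk 6 g)
      · rw [cond_false, Nat.add_eq, Nat.mul_eq, Nat.add_zero]
        exact ⟨0, Int.ofNat_le.2 (Nat.zero_le _), (b4.mul 5 (by norm_num)).mono (by norm_num),
          by rw [b4.mul_aux 5 (by norm_num), Nat.add_zero]⟩
      · rw [cond_true, Nat.add_eq, Nat.mul_eq]
        have b5 := b4.add b6 (by norm_num)
        exact ⟨_, le_rfl, (b5.mul 5 (by norm_num)).mono (by norm_num),
          by rw [b5.mul_aux 5 (by norm_num), b4.fld_add b6 (by norm_num)]⟩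
    obtain ⟨x, hx1, bV, hV⟩ := hx
    have ht : (gat l7 g).testBit 6 = adj g 7 6 := by rw [testBit_gat]; rfl
    have hP : MkP 6 7 7 (gat l7 g) ↔ adj g 7 6 = true := by
      unfold MkP; rw [ht]; simp; intro _; exact h128
    have e5 := congrArg (fun v => fld 41 v (gat l7 g)) e3
    generalize hN' : fld 41 (SM L4 L6 (blk 6 g)) 65 = N at *
    generalize hS' : fld 41 (SM L4 L6 (blk 6 g)) 64 = S at *
    have c1 : Bnd 41 (cst 41 (5 * N) 7) (5 * N) := bnd_cst (by omega) _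
    have c2 : Bnd 41 (mk 41 N 6 7 7) N := bnd_mk (by omega) _ _ _
    have c3 : Bnd 41 (cst 41 18119393280 7) 18119393280 := bnd_cst (by norm_num) _
    have c4 : Bnd 41 (mk 41 S 6 7 7) S := bnd_mk (by omega) _ _ _
    have h128' : gat l7 g < 2 ^ 7 := h128
    have ea : Nat.mod a (Nat.pow 2 (41 * 128)) = a % 2 ^ (41 * 128) := rfl
    unfold YY ZZ at e5
    simp only [Nat.add_eq, Nat.mul_eq, ea] at e5
    rw [(ba.mod 128).fld_add (c1.add c2 (by omega)) (by omega), c1.fld_add c2 (by omega),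
      (bV.fld _).fld_add (c3.add c4 (by omega)) (by omega), c3.fld_add c4 (by omega),
      fld_mod, if_pos h128, fld_cst (by omega), if_pos h128', fld_cst (by norm_num), if_pos h128',
      fld_mk (by omega), fld_mk (by omega), fld_fld, if_pos h128, ← gat_lF, hV] at e5
    simp only [hP] at e5
    have s8 : Sym (c8 L4 L6) 6 g = 5 * (Sym (fun g => nL L4 (blk 4 g) -
        QL L4 (blk 4 g) (gat lK g) (gat lK2 g)) 6 g + Sym (fun g => nL L6 (blk 6 g) -
        QL L6 (blk 6 g) (gat lP6 g) (gat lP7 g)) 6 g) + -5 * Sym (nn L4 L6) 6 g +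
        (if adj g 7 6 then 1 else 0) * Sym (cS L4 L6) 6 g := by
      rw [← Sym_add, ← Sym_smul, ← Sym_smul, ← Sym_adj _ (by norm_num) (by norm_num) 6
        (by norm_num) le_rfl, ← Sym_add, ← Sym_add]
      exact Sym_congr (fun g _ => by unfold c8 nn; ring) (by norm_num) hg
    have r1 := r.h1
    have r2 := r.h2
    rw [hS'] at r1
    rw [hN'] at r2
    rw [s8, ← v4, ← v6]
    cases hc : adj g 7 6 <;> simp only [hc] at e5 ⊢ <;> simp at e5 ⊢ <;> omega
  · have r0 := r.h0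
    have r2 := r.h2
    have r3 := r.h3
    omega

theorem c8_ge (h4 : LOK L4 528) (h6 : LOK L6 65) (g : ℕ) : -25165824 ≤ c8 L4 L6 g := by
  have a1 : gat lK2 g < 512 := gat_lt _ _
  have a2 : gat lP7 g < 64 := gat_lt _ _
  have a3 : gat lS5 g < 16 := gat_lt _ _
  have q1 := QL_le h4 (blk 4 g) (gat lK g) (k2 := gat lK2 g) (by omega)
  have q2 := QL_le h6 (blk 6 g) (gat lP6 g) (k2 := gat lP7 g) (by omega)
  have q3 := QL_le h4 (blk 4 g) (512 + gat lS4 g) (k2 := 512 + gat lS5 g) (by omega)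
  have q4 := QL_le h6 (blk 6 g) 64 (k2 := 64) (by omega)
  unfold c8 cS pmI
  split_ifs <;> omega

theorem c7_ge (h4 : LOK L4 528) (h6 : LOK L6 65) (g : ℕ) : -8695808 ≤ c7 L4 L6 g := by
  have a2 : gat lP6 g < 64 := gat_lt _ _
  have a3 : gat lS6 g < 16 := gat_lt _ _
  have q1 := QL_le h4 (blk 4 g) (gat lK g) (k2 := 512 + gat lS6 g) (by omega)
  have q2 := QL_le h6 (blk 6 g) 64 (k2 := gat lP6 g) (by omega)
  unfold c7 c5I
  split_ifs <;> omega

end

end Pool.Agent.Lib.MP_49b2f4_co
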