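import Pool.Agent.Lib.MP_49b2f4_co.Block

/-! Symmetrisation of packed vectors. -/

namespace Pool.Agent.Lib.MP_49b2f4_co

open Finset

noncomputable def addz (acc : ℕ) (f : ℕ → ℕ) (v : ℕ) : ℕ :=
  cond (Nat.beq v 0) acc (Nat.add acc (f v))

noncomputable def loopz (f : ℕ → ℕ → ℕ) (u : ℕ → ℕ) (t : ℕ) : ℕ :=
  Nat.rec (motive := fun _ => ℕ) 0 (fun i acc => addz acc (f i) (u i)) t

theorem loopz_spec {W B : ℕ} {f : ℕ → ℕ → ℕ} {u : ℕ → ℕ} : ∀ t,
    (∀ i < t, Bnd W (f i (u i)) B) → t * B < 2 ^ W →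
    Bnd W (loopz f u t) (t * B) ∧ ∀ k, fld W (loopz f u t) k =
      ∑ i ∈ range t, if u i = 0 then 0 else fld W (f i (u i)) k := by
  intro t
  induction t with
  | zero => intro _ _; exact ⟨bnd_zero _ _, fun j => fld_zero _ _⟩
  | succ r ih =>
    intro h hb
    rw [Nat.succ_mul] at hb ⊢
    obtain ⟨h1, h2⟩ := ih (fun k hk => h k (by omega)) (by omega)
    have e : loopz f u (r + 1) =
      cond (Nat.beq (u r) 0) (loopz f u r) (loopz f u r + f r (u r)) := rfl
    rw [e, cond_beq]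
    by_cases c : u r = 0
    · rw [if_pos c]
      refine ⟨h1.mono (by omega), fun j => ?_⟩
      rw [sum_range_succ, if_pos c, h2, Nat.add_zero]
    · rw [if_neg c]
      refine ⟨h1.add (h r (by omega)) hb, fun j => ?_⟩
      rw [h1.fld_add (h r (by omega)) hb, sum_range_succ, if_neg c, h2]

noncomputable def symV (leaf : ℕ → ℕ) (sw : ℕ → ℕ → ℕ → ℕ) (n : ℕ) : ℕ → ℕ :=
  Nat.rec (motive := fun _ => ℕ → ℕ) leaf
    (fun j ih g => loopz (sw j) (fun i => ih (swp i j g)) (Nat.succ j)) n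

theorem swp_blk {i j m : ℕ} (hij : i ≤ j) (hj : j < m) (hm : m ≤ 8) (g : ℕ) :
    swp i j (blk m g) = blk m (act (Equiv.swap i j) g) := by
  rw [swp_eq hij (by omega) (blk_lt _ _), blk_act (fix_swap (by omega) hj) hm]

theorem symV_spec {W m B : ℕ} {leaf : ℕ → ℕ} {sw : ℕ → ℕ → ℕ → ℕ} (hm : m ≤ 8)
    (hb0 : ∀ g, Good g → Bnd W (leaf (blk m g)) B) : ∀ n, n ≤ m → n.factorial * B < 2 ^ W →
    (∀ j < n, ∀ i ≤ j, ∀ v B', Bnd W v B' → Bnd W (sw j i v) B') →
    (∀ g, Good g → Bnd W (symV leaf sw n (blk m g)) (n.factorial * B)) ∧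
    ∀ (ι : ℕ → ℕ → ℕ) (c : ℕ → ℤ), (∀ g, Good g → (fld W (leaf (blk m g)) (ι 0 g) : ℤ) = c g) →
      (∀ j < n, ∀ i ≤ j, ∀ v g, fld W (sw j i v) (ι (j + 1) g) =
        fld W v (ι j (act (Equiv.swap i j) g))) →
      ∀ g, Good g → (fld W (symV leaf sw n (blk m g)) (ι n g) : ℤ) = Sym c n g := by
  intro n
  induction n with
  | zero =>
    intro _ _ _
    refine ⟨fun g hg => ?_, fun ι c h0 _ g hg => h0 g hg⟩
    rw [Nat.factorial_zero, Nat.one_mul]; exact hb0 g hg
  | succ j ih =>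
    intro hn hB hs
    rw [Nat.factorial_succ, Nat.mul_assoc] at hB ⊢
    obtain ⟨h1, h2⟩ := ih (by omega) (lt_of_le_of_lt (Nat.le_mul_of_pos_left _ (by omega)) hB)
      (fun j' hj => hs j' (by omega))
    have e : ∀ g, symV leaf sw (j + 1) g =
      loopz (sw j) (fun i => symV leaf sw j (swp i j g)) (j + 1) := fun _ => rfl
    have hgood : ∀ g, Good g → ∀ i < j + 1, Good (act (Equiv.swap i j) g) := fun g hg i hi =>
      hg.act (fix_swap (by omega) (by omega))
    have key := fun g (hg : Good g) => loopz_spec (W := W) (B := j.factorial * B) (f := sw j)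
      (u := fun i => symV leaf sw j (swp i j (blk m g))) (j + 1) (fun i hi => by
        rw [swp_blk (by omega) (by omega) hm]
        exact hs j (by omega) i (by omega) _ _ (h1 _ (hgood g hg i hi))) hB
    refine ⟨fun g hg => by rw [e]; exact (key g hg).1, fun ι c h0 hι g hg => ?_⟩
    rw [e, (key g hg).2]
    simp only [Sym]
    push_cast
    refine sum_congr rfl fun i hi => ?_
    rw [mem_range] at hi
    rw [swp_blk (by omega) (by omega) hm,
      ← h2 ι c h0 (fun j' hj => hι j' (by omega)) _ (hgood g hg i hi)]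
    split_ifs with c0
    · rw [c0, fld_zero]; rfl
    · rw [hι j (by omega) i (by omega)]

/-! ### index lists -/

def lC : List ℕ := [56, 57, 58, 59, 62, 48, 49, 50, 51, 60, 52, 61, 53]
def lF : List ℕ := [56, 57, 58, 59, 60, 61, 62, 48, 49, 50, 51, 52, 53]
def l7 : List ℕ := [56, 57, 58, 59, 60, 61, 62]
def lK : List ℕ := [40, 41, 42, 43, 44, 32, 33, 34, 35]
def lK2 : List ℕ := [56, 57, 58, 59, 62, 48, 49, 50, 51]
def lP6 : List ℕ := [48, 49, 50, 51, 52, 53]
def lP7 : List ℕ := [56, 57, 58, 59, 60, 61]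
def lS4 : List ℕ := [32, 33, 34, 35]
def lS5 : List ℕ := [40, 41, 42, 43]
def lS6 : List ℕ := [48, 49, 50, 51]

def P7 (i : ℕ) : ℕ := cond (Nat.ble i 3) i (Nat.succ (Nat.mul 2 i))
def P6 (i : ℕ) : ℕ := cond (Nat.ble i 3) (Nat.add i 5) (Nat.add (Nat.mul 2 i) 2)
def lenC (j : ℕ) : ℕ := if j ≤ 4 then 9 else if j = 5 then 11 else 13

noncomputable def post (j v : ℕ) : ℕ :=
  cond (Nat.beq j 4) (dup 41 10 (dup 41 9 v)) (cond (Nat.beq j 5) (dup 41 12 (dup 41 11 v)) v)

noncomputable def sw4 (j i v : ℕ) : ℕ :=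
  cond (Nat.ble j i) (post j v) (isw 41 13 (P7 i) (P7 j) (isw 41 13 (P6 i) (P6 j) (post j v)))

noncomputable def sw6 (j i v : ℕ) : ℕ :=
  cond (Nat.ble j i) v (isw 41 13 i j (isw 41 13 (Nat.add 7 i) (Nat.add 7 j) v))

noncomputable def swS (j i v : ℕ) : ℕ := cond (Nat.ble j i) v (isw 41 6 i j v)

theorem fld_dup_gat (W n v g : ℕ) {l : List ℕ} (hl : l.length = n + 1) :
    fld W (dup W n v) (gat l g) = fld W v (gat (l.take n) g) := by
  rw [fld_dup, if_pos (by rw [← hl]; exact gat_lt _ _), gat_mod]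

theorem fld_post {j : ℕ} (hj : j < 6) (v g : ℕ) {l : List ℕ} (hl : l.length = lenC (j + 1)) :
    fld 41 (post j v) (gat l g) = fld 41 v (gat (l.take (lenC j)) g) := by
  unfold post
  rw [cond_beq, cond_beq]
  by_cases c4 : j = 4
  · subst c4
    rw [if_pos rfl, fld_dup_gat _ _ _ _ hl, fld_dup_gat _ _ _ _ (by simp [hl, lenC]),
      List.take_take]; rfl
  by_cases c5 : j = 5
  · subst c5
    rw [if_neg c4, if_pos rfl, fld_dup_gat _ _ _ _ hl, fld_dup_gat _ _ _ _ (by simp [hl, lenC]),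
      List.take_take]; rfl
  · rw [if_neg c4, if_neg c5, List.take_of_length_le]
    rw [hl]; unfold lenC; split_ifs <;> omega

theorem bnd_post {j v B : ℕ} (h : Bnd 41 v B) : Bnd 41 (post j v) B := by
  unfold post
  rw [cond_beq, cond_beq]
  split_ifs
  · exact h.dup.dup
  · exact h.dup.dup
  · exact h

theorem P_facts : ∀ j < 6, ∀ i < j, P7 i < P7 j ∧ P7 j < lenC (j + 1) ∧ P6 i < P6 j ∧
    P6 j < lenC (j + 1) ∧
    (swL (P6 i) (P6 j) (swL (P7 i) (P7 j) (lC.take (lenC (j + 1))))).take (lenC j) =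
      mpL (Equiv.swap i j) (lC.take (lenC j)) := by decide +kernel

theorem lenC_le (j : ℕ) : lenC j ≤ 13 := by unfold lenC; split_ifs <;> omega

theorem length_swL (a b : ℕ) (l : List ℕ) : (swL a b l).length = l.length := by simp [swL]

theorem mpL_self (j : ℕ) (l : List ℕ) : mpL (Equiv.swap j j) l = l := by
  unfold mpL
  rw [Equiv.swap_self]
  simp only [Equiv.refl_apply, Nat.div_add_mod, List.map_id']

theorem sw4_bnd : ∀ j < 6, ∀ i ≤ j, ∀ v B', Bnd 41 v B' → Bnd 41 (sw4 j i v) B' := by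
  intro j hj i hi v B h
  unfold sw4
  rw [cond_ble]
  split_ifs with c
  · exact bnd_post h
  · obtain ⟨h1, h2, h3, h4, _⟩ := P_facts j hj i (by omega)
    have := lenC_le (j + 1)
    exact ((bnd_post h).isw h3 (by omega)).isw h1 (by omega)

theorem sw4_fld : ∀ j < 6, ∀ i ≤ j, ∀ v g, fld 41 (sw4 j i v) (gat (lC.take (lenC (j + 1))) g) =
    fld 41 v (gat (lC.take (lenC j)) (act (Equiv.swap i j) g)) := by
  intro j hj i hi v g
  have hle := lenC_le (j + 1)
  have hl : (lC.take (lenC (j + 1))).length = lenC (j + 1) := by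
    rw [List.length_take]; exact min_eq_left hle
  have h64 : ∀ p ∈ lC.take (lenC j), p < 64 := fun p hp =>
    (by decide : ∀ p ∈ lC, p < 64) p (List.mem_of_mem_take hp)
  unfold sw4
  rw [cond_ble, gat_act _ h64]
  split_ifs with c
  · have : i = j := by omega
    subst this
    rw [fld_post hj _ _ hl, mpL_self, List.take_take, min_eq_left]
    unfold lenC; split_ifs <;> omega
  · obtain ⟨h1, h2, h3, h4, h5⟩ := P_facts j hj i (by omega)
    rw [fld_isw_gat h1 (by omega) (by omega),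
      fld_isw_gat h3 (by rw [length_swL]; omega) (by rw [length_swL]; omega),
      fld_post hj _ _ (by rw [length_swL, length_swL, hl]), h5]

theorem sw6_bnd : ∀ j < 6, ∀ i ≤ j, ∀ v B', Bnd 41 v B' → Bnd 41 (sw6 j i v) B' := by
  intro j hj i hi v B h
  unfold sw6
  rw [cond_ble]
  split_ifs with c
  · exact h
  · exact (h.isw (a := 7 + i) (b := 7 + j) (by omega) (by omega)).isw (by omega) (by omega)

theorem F_facts : ∀ j < 6, ∀ i < j,
    swL (7 + i) (7 + j) (swL i j lF) = mpL (Equiv.swap i j) lF ∧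
    swL i j lP6 = mpL (Equiv.swap i j) lP6 := by decide +kernel

theorem sw6_fld : ∀ j < 6, ∀ i ≤ j, ∀ v g, fld 41 (sw6 j i v) (gat lF g) =
    fld 41 v (gat lF (act (Equiv.swap i j) g)) := by
  intro j hj i hi v g
  have hl : lF.length = 13 := rfl
  unfold sw6
  rw [cond_ble, gat_act _ (by decide)]
  split_ifs with c
  · have : i = j := by omega
    subst this
    rw [mpL_self]
  · rw [fld_isw_gat (by omega) (by omega) (by omega), Nat.add_eq, Nat.add_eq,
      fld_isw_gat (by omega) (by rw [length_swL]; omega) (by rw [length_swL]; omega),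
      (F_facts j hj i (by omega)).1]

theorem swS_bnd : ∀ j < 6, ∀ i ≤ j, ∀ v B', Bnd 41 v B' → Bnd 41 (swS j i v) B' := by
  intro j hj i hi v B h
  unfold swS
  rw [cond_ble]
  split_ifs with c
  · exact h
  · exact h.isw (by omega) (by omega)

theorem swS_fld : ∀ j < 6, ∀ i ≤ j, ∀ v g, fld 41 (swS j i v) (gat lP6 g) =
    fld 41 v (gat lP6 (act (Equiv.swap i j) g)) := by
  intro j hj i hi v g
  have hl : lP6.length = 6 := rfl
  unfold swS
  rw [cond_ble, gat_act _ (by decide)]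
  split_ifs with c
  · have : i = j := by omega
    subst this
    rw [mpL_self]
  · rw [fld_isw_gat (by omega) (by omega) (by omega), (F_facts j hj i (by omega)).2]

theorem swS_high {k : ℕ} (hk : 64 ≤ k) : ∀ j < 6, ∀ i ≤ j, ∀ v, fld 41 (swS j i v) k =
    fld 41 v k := by
  intro j hj i hi v
  unfold swS
  rw [cond_ble]
  split_ifs with c
  · rfl
  · rw [fld_isw (by omega) hj, if_neg (by omega)]

noncomputable def rearr (v : ℕ) : ℕ :=
  isw 41 13 4 6 (isw 41 13 5 7 (isw 41 13 6 8 (isw 41 13 7 9 (isw 41 13 8 10 (isw 41 13 9 10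
    (isw 41 13 10 11 v))))))

theorem rearr_bnd {v B : ℕ} (h : Bnd 41 v B) : Bnd 41 (rearr v) B := by
  unfold rearr
  repeat (refine Bnd.isw (by norm_num) (by norm_num) ?_)
  exact h

theorem rearr_fld (v g : ℕ) : fld 41 (rearr v) (gat lF g) = fld 41 v (gat lC g) := by
  unfold rearr
  iterate 7 (rw [fld_isw_gat (by norm_num) (by decide) (by decide)])
  congr 2

theorem gat_lF (g : ℕ) : gat lF g = 128 * gat lP6 g + gat l7 g := gat_append l7 lP6 g

end Pool.Agent.Lib.MP_49b2f4_co
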