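import Pool.Agent.Lib.MP_49b2f4_co.Code

/-! Search trees, loops and index maps used by the certificate checker. -/

namespace Pool.Agent.Lib.MP_49b2f4_co

open Finset

inductive Tr where
  | lf (k a b : ℕ) (s : List ℕ)
  | nd (p : ℕ) (l r : Tr)

noncomputable def look {α : Type} (t : Tr) (x : ℕ) (f : ℕ → ℕ → ℕ → List ℕ → α) (z : α) : α :=
  Tr.rec (motive := fun _ => α) (fun k a b s => cond (Nat.beq k x) (f k a b s) z)
    (fun p _ _ ihl ihr => cond (Nat.ble p x) ihr ihl) t

def Mem : Tr → ℕ → ℕ → ℕ → List ℕ → Prop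
  | .lf k a b s, k', a', b', s' => k = k' ∧ a = a' ∧ b = b' ∧ s = s'
  | .nd _ l r, k, a, b, s => Mem l k a b s ∨ Mem r k a b s

theorem look_cases (t : Tr) (x : ℕ) :
    (∀ (α : Type) (f : ℕ → ℕ → ℕ → List ℕ → α) (z : α), look t x f z = z) ∨
    ∃ a b s, Mem t x a b s ∧
      ∀ (α : Type) (f : ℕ → ℕ → ℕ → List ℕ → α) (z : α), look t x f z = f x a b s := by
  induction t with
  | lf k a b s =>
    cases h : Nat.beq k x
    · left; intro α f z
      show cond (Nat.beq k x) (f k a b s) z = z
      rw [h]; rfl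
    · right
      have e := Nat.eq_of_beq_eq_true h
      subst e
      refine ⟨a, b, s, ⟨rfl, rfl, rfl, rfl⟩, fun α f z => ?_⟩
      show cond (Nat.beq k k) (f k a b s) z = _
      rw [h]; rfl
  | nd p l r ihl ihr =>
    have e : ∀ (α : Type) (f : ℕ → ℕ → ℕ → List ℕ → α) (z : α),
        look (.nd p l r) x f z = cond (Nat.ble p x) (look r x f z) (look l x f z) :=
      fun _ _ _ => rfl
    cases h : Nat.ble p x
    · rcases ihl with h1 | ⟨a, b, s, hm, h1⟩
      · left; intro α f z; rw [e, h, cond_false, h1]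
      · right; exact ⟨a, b, s, Or.inl hm, fun α f z => by rw [e, h, cond_false, h1]⟩
    · rcases ihr with h1 | ⟨a, b, s, hm, h1⟩
      · left; intro α f z; rw [e, h, cond_true, h1]
      · right; exact ⟨a, b, s, Or.inr hm, fun α f z => by rw [e, h, cond_true, h1]⟩

noncomputable def allT (t : Tr) (f : ℕ → ℕ → ℕ → List ℕ → Bool) : Bool :=
  Tr.rec (motive := fun _ => Bool) (fun k a b s => f k a b s)
    (fun _ _ _ ihl ihr => cond ihl ihr false) t

theorem allT_nd {p : ℕ} {l r : Tr} {f : ℕ → ℕ → ℕ → List ℕ → Bool} (hl : allT l f = true)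
    (hr : allT r f = true) : allT (.nd p l r) f = true := by
  show cond (allT l f) (allT r f) false = true
  rw [hl, hr]; rfl

theorem band {a b : Bool} (h : cond a b false = true) : a = true ∧ b = true := by
  cases a <;> simp_all

theorem allT_mem {t : Tr} {f : ℕ → ℕ → ℕ → List ℕ → Bool} (h : allT t f = true)
    {k a b : ℕ} {s : List ℕ} (hm : Mem t k a b s) : f k a b s = true := by
  induction t with
  | lf k' a' b' s' =>
    obtain ⟨rfl, rfl, rfl, rfl⟩ := hm
    exact h
  | nd p l r ihl ihr =>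
    have h' : cond (allT l f) (allT r f) false = true := h
    rcases hm with hm | hm
    · exact ihl (band h').1 hm
    · exact ihr (band h').2 hm

noncomputable def allN (n : ℕ) (f : ℕ → Bool) : Bool :=
  Nat.rec (motive := fun _ => Bool) true (fun k acc => cond (f k) acc false) n

theorem allN_spec {f : ℕ → Bool} : ∀ {n : ℕ}, allN n f = true → ∀ k < n, f k = true := by
  intro n
  induction n with
  | zero => intro _ k hk; omega
  | succ n ih =>
    intro h k hk
    have h' : cond (f n) (allN n f) false = true := h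
    by_cases e : k = n
    · rw [e]; exact (band h').1
    · exact ih (band h').2 k (by omega)

theorem beq_sp {a b : ℕ} (h : Nat.beq a b = true) : a = b := Nat.eq_of_beq_eq_true h
theorem ble_sp {a b : ℕ} (h : Nat.ble a b = true) : a ≤ b := Nat.le_of_ble_eq_true h

theorem cond_beq {α : Type} (a b : ℕ) (x y : α) :
    cond (Nat.beq a b) x y = if a = b then x else y := by
  cases h : Nat.beq a b
  · rw [if_neg (Nat.ne_of_beq_eq_false h)]; rfl
  · rw [if_pos (beq_sp h)]; rfl

theorem cond_ble {α : Type} (a b : ℕ) (x y : α) :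
    cond (Nat.ble a b) x y = if a ≤ b then x else y := by
  by_cases h : a ≤ b
  · rw [if_pos h, Nat.ble_eq_true_of_le h]; rfl
  · rw [if_neg h]
    cases h2 : Nat.ble a b
    · rfl
    · exact absurd (ble_sp h2) h

noncomputable def fl (W v i : ℕ) : ℕ :=
  Nat.land (Nat.shiftRight v (Nat.mul W i)) (Nat.sub (Nat.pow 2 W) 1)

theorem fl_eq (W v i : ℕ) : fl W v i = fld W v i :=
  Nat.and_two_pow_sub_one_eq_mod _ _

theorem bnd_land {W M c : ℕ} (hM : Bnd W M c) (v : ℕ) : Bnd W (Nat.land v M) c := fun i => by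
  have : fld W (Nat.land v M) i = fld W v i &&& fld W M i := fld_and W v M i
  rw [this]; exact le_trans Nat.and_le_right (hM i)

theorem bnd_of_land {W M c v : ℕ} (hM : Bnd W M c) (h : Nat.beq (Nat.land v M) v = true) :
    Bnd W v c := by
  rw [← beq_sp h]; exact bnd_land hM v

/-- all fields below `2 ^ l` equal to `c` -/
noncomputable def cst (W c l : ℕ) : ℕ := mk W c l l l

theorem fld_cst {W c : ℕ} (hc : c < 2 ^ W) (l i : ℕ) :
    fld W (cst W c l) i = if i < 2 ^ l then c else 0 := by
  unfold cst; rw [fld_mk hc]; simp [MkP]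

theorem bnd_cst {W c : ℕ} (hc : c < 2 ^ W) (l : ℕ) : Bnd W (cst W c l) c := bnd_mk hc _ _ _

theorem fld_fld (W n v p q : ℕ) :
    fld W (fld (W * n) v p) q = if q < n then fld W v (n * p + q) else 0 := by
  have : fld (W * n) v p = (v >>> (W * (n * p))) % 2 ^ (W * n) := by
    unfold fld; rw [Nat.mul_assoc]
  rw [this, fld_mod, fld_shr]

theorem Bnd.fld {W n v B : ℕ} (h : Bnd W v B) (p : ℕ) : Bnd W (fld (W * n) v p) B := fun q => by
  rw [fld_fld]; split_ifs
  · exact h _
  · exact Nat.zero_le _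

theorem Bnd.shr {W v B : ℕ} (h : Bnd W v B) (n : ℕ) : Bnd W (v >>> (W * n)) B := fun q => by
  rw [fld_shr]; exact h _

theorem Bnd.mod {W v B : ℕ} (h : Bnd W v B) (n : ℕ) : Bnd W (v % 2 ^ (W * n)) B := fun q => by
  rw [fld_mod]; split_ifs
  · exact h _
  · exact Nat.zero_le _

/-! ### concatenation -/

noncomputable def cat (W : ℕ) (f : ℕ → ℕ) (l : ℕ) : ℕ → ℕ :=
  Nat.rec (motive := fun _ => ℕ → ℕ) (fun b => Nat.mod (f b) (Nat.pow 2 W))
    (fun l ih b => Nat.lor (ih b)
      (Nat.shiftLeft (ih (Nat.add b (Nat.pow 2 l))) (Nat.mul W (Nat.pow 2 l)))) l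

theorem fld_cat (W : ℕ) (f : ℕ → ℕ) : ∀ l b i,
    fld W (cat W f l b) i = if i < 2 ^ l then f (b + i) % 2 ^ W else 0 := by
  intro l
  induction l with
  | zero =>
    intro b i
    have : cat W f 0 b = f b % 2 ^ W := rfl
    rw [this, fld_small (Nat.mod_lt _ (by positivity))]
    by_cases h : i = 0
    · subst h; simp
    · rw [if_neg h, if_neg (by omega)]
  | succ l ih =>
    intro b i
    have : cat W f (l + 1) b = cat W f l b ||| (cat W f l (b + 2 ^ l) <<< (W * 2 ^ l)) := rfl
    rw [this, fld_or, fld_shl, ih, ih, pow_succ]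
    by_cases h1 : i < 2 ^ l
    · rw [if_pos h1, if_neg (by omega), if_pos (by omega), Nat.or_zero]
    · rw [if_neg h1, if_pos (by omega), Nat.zero_or]
      by_cases h2 : i < 2 ^ l * 2
      · rw [if_pos (by omega), if_pos h2]; congr 2; omega
      · rw [if_neg (by omega), if_neg h2]

theorem fld_cat2 (W n : ℕ) (f : ℕ → ℕ) (l p q : ℕ) (hp : p < 2 ^ l) (hq : q < n) :
    fld W (cat (W * n) f l 0) (n * p + q) = fld W (f p) q := by
  have h := fld_fld W n (cat (W * n) f l 0) p q
  rw [if_pos hq, fld_cat, if_pos hp, fld_mod, if_pos hq, Nat.zero_add] at h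
  exact h.symm

theorem bnd_cat {W n B : ℕ} {f : ℕ → ℕ} (hn : 0 < n) (h : ∀ p, Bnd W (f p) B) (l : ℕ) :
    Bnd W (cat (W * n) f l 0) B := fun i => by
  have h1 := fld_fld W n (cat (W * n) f l 0) (i / n) (i % n)
  rw [if_pos (Nat.mod_lt _ hn), Nat.div_add_mod, fld_cat] at h1
  rw [← h1]
  split_ifs
  · exact (h _).mod n _
  · rw [fld_zero]; exact Nat.zero_le _

/-! ### guarded index exchange -/

noncomputable def frc (x : ℕ) (f : ℕ → ℕ) : ℕ :=
  Nat.rec (motive := fun _ => ℕ) (f 0) (fun n _ => f (Nat.succ n)) x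

theorem frc_eq (x : ℕ) (f : ℕ → ℕ) : frc x f = f x := by cases x <;> rfl

noncomputable def iswD (W L x j v : ℕ) : ℕ :=
  cond (Nat.ble j x) v (frc x (fun a => isw W L a j v))

theorem iswD_eq (W L x j v : ℕ) : iswD W L x j v = if j ≤ x then v else isw W L x j v := by
  unfold iswD; rw [cond_ble, frc_eq]

theorem Bnd.iswD {W L x j v B : ℕ} (hj : j < L) (h : Bnd W v B) : Bnd W (iswD W L x j v) B := by
  rw [iswD_eq]; split_ifs with e
  · exact h
  · exact h.isw (by omega) hj

/-! ### indices gathered from the bits of a code -/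

def gat : List ℕ → ℕ → ℕ
  | [], _ => 0
  | p :: l, g => Nat.bit (g.testBit p) (gat l g)

theorem testBit_gat (g : ℕ) : ∀ (l : List ℕ) (k : ℕ),
    (gat l g).testBit k = (decide (k < l.length) && g.testBit (l.getD k 0)) := by
  intro l
  induction l with
  | nil => intro k; simp [gat]
  | cons p l ih =>
    intro k
    cases k with
    | zero => simp [gat]
    | succ k => rw [gat, Nat.testBit_bit_succ, ih]; simp

theorem gat_lt (l : List ℕ) (g : ℕ) : gat l g < 2 ^ l.length := by
  apply Nat.lt_pow_two_of_testBit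
  intro i hi
  rw [testBit_gat, decide_eq_false (by omega)]; rfl

theorem gat_congr {l l' : List ℕ} {g g' : ℕ} (hl : l.length = l'.length)
    (h : ∀ k < l.length, g.testBit (l.getD k 0) = g'.testBit (l'.getD k 0)) :
    gat l g = gat l' g' := by
  apply Nat.eq_of_testBit_eq; intro k
  rw [testBit_gat, testBit_gat, ← hl]
  by_cases e : k < l.length
  · rw [h k e]
  · simp [e]

def trp (a b k : ℕ) : ℕ := if k = a then b else if k = b then a else k

def swL (a b : ℕ) (l : List ℕ) : List ℕ := (List.range l.length).map fun k => l.getD (trp a b k) 0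

theorem bsw_gat {a b : ℕ} {l : List ℕ} (hab : a ≠ b) (ha : a < l.length) (hb : b < l.length)
    (g : ℕ) : bsw a b (gat l g) = gat (swL a b l) g := by
  apply Nat.eq_of_testBit_eq; intro k
  rw [testBit_bsw hab, testBit_gat, testBit_gat]
  have e1 : (swL a b l).length = l.length := by simp [swL]
  rw [e1]
  by_cases e : k < l.length
  · have e2 : (swL a b l).getD k 0 = l.getD (trp a b k) 0 := by
      unfold swL
      rw [List.getD_eq_getElem _ _ (by simpa using e)]; simp
    have e3 : (if k = a then b else if k = b then a else k) < l.length := by split_ifs <;> omega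
    rw [e2, decide_eq_true e, decide_eq_true e3]; rfl
  · have e3 : ¬ (if k = a then b else if k = b then a else k) < l.length := by
      split_ifs <;> omega
    rw [decide_eq_false e, decide_eq_false e3]; rfl

theorem fld_isw_gat {W L a b : ℕ} {l : List ℕ} (hab : a < b) (hb : b < l.length)
    (hL : l.length ≤ L) (v g : ℕ) :
    fld W (isw W L a b v) (gat l g) = fld W v (gat (swL a b l) g) := by
  rw [fld_isw hab (by omega), if_pos (lt_of_lt_of_le (gat_lt _ _)
    (Nat.pow_le_pow_right (by norm_num) hL)), bsw_gat (by omega) (by omega) hb]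

def mpL (π : ℕ → ℕ) (l : List ℕ) : List ℕ := l.map fun p => 8 * π (p / 8) + π (p % 8)

theorem getD_map' (f : ℕ → ℕ) (l : List ℕ) {k : ℕ} (h : k < l.length) :
    (l.map f).getD k 0 = f (l.getD k 0) := by
  rw [List.getD_eq_getElem _ _ (by simpa using h), List.getD_eq_getElem _ _ h]; simp

theorem getD_mem (l : List ℕ) {k : ℕ} (h : k < l.length) : l.getD k 0 ∈ l := by
  rw [List.getD_eq_getElem _ _ h]; exact List.getElem_mem _

theorem testBit_adj (g p : ℕ) : g.testBit p = adj g (p / 8) (p % 8) := by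
  unfold adj; rw [Nat.div_add_mod]

theorem gat_act (π : ℕ → ℕ) {l : List ℕ} (hl : ∀ p ∈ l, p < 64) (g : ℕ) :
    gat l (act π g) = gat (mpL π l) g := by
  apply gat_congr (by simp [mpL])
  intro k hk
  have h := hl _ (getD_mem l hk)
  unfold mpL
  rw [getD_map' _ _ hk, testBit_adj, adj_act _ _ (by omega) (by omega)]; rfl

theorem gat_blk {n : ℕ} {l : List ℕ} (hn : n ≤ 8) (hl : ∀ p ∈ l, p / 8 < n ∧ p % 8 < n) (g : ℕ) :
    gat l (blk n g) = gat l g := by
  apply gat_congr rfl
  intro k hk
  have h := hl _ (getD_mem l hk)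
  rw [testBit_adj, testBit_adj g, adj_blk _ _ (by omega) (by omega), decide_eq_true h, Bool.and_true]

def nrm (p : ℕ) : ℕ := if p / 8 < p % 8 then 8 * (p % 8) + p / 8 else p

theorem gat_nrm {l : List ℕ} {g : ℕ} (hg : Good g) : gat l g = gat (l.map nrm) g := by
  apply gat_congr (by simp)
  intro k hk
  rw [getD_map' _ _ hk]
  generalize l.getD k 0 = p
  unfold nrm
  split_ifs with e
  · rw [testBit_adj, hg.symm _ (by omega) _ (by omega)]; rfl
  · rfl

theorem gat_mod (l : List ℕ) (g n : ℕ) : gat l g % 2 ^ n = gat (l.take n) g := by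
  apply Nat.eq_of_testBit_eq; intro k
  rw [Nat.testBit_mod_two_pow, testBit_gat, testBit_gat, List.length_take]
  by_cases e : k < n
  · by_cases e2 : k < l.length
    · have : (l.take n).getD k 0 = l.getD k 0 := by
        rw [List.getD_eq_getElem _ _ (by simp; omega), List.getD_eq_getElem _ _ e2]; simp
      rw [this]; simp [e, e2]
    · simp [e2]
  · simp [e]

theorem gat_append (l l' : List ℕ) (g : ℕ) :
    gat (l ++ l') g = 2 ^ l.length * gat l' g + gat l g := by
  induction l with
  | nil => simp [gat]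
  | cons p l ih =>
    simp only [List.cons_append, gat, ih, Nat.bit_val, List.length_cons, pow_succ]; ring

theorem gat_range (g a n : ℕ) : fld n (g >>> a) 0 = gat (List.range' a n) g := by
  apply Nat.eq_of_testBit_eq; intro k
  rw [testBit_fld, testBit_gat, List.length_range', Nat.testBit_shiftRight]
  by_cases e : k < n
  · rw [List.getD_eq_getElem _ _ (by simpa using e)]; simp
  · simp [e]

/-- `n` bits from position `a` on -/
noncomputable def bits (g a m : ℕ) : ℕ := Nat.land (Nat.shiftRight g a) m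

theorem bits_eq (g a n : ℕ) : bits g a (2 ^ n - 1) = gat (List.range' a n) g := by
  rw [← gat_range]
  have : bits g a (2 ^ n - 1) = (g >>> a) &&& (2 ^ n - 1) := rfl
  rw [this, Nat.and_two_pow_sub_one_eq_mod]; simp [fld]

end Pool.Agent.Lib.MP_49b2f4_co
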