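import Pool.Agent.Lib.MP_49b2f4_co.StageA

/-! From six to eight vertices; the list of all small graphs. -/

namespace Pool.Agent.Lib.MP_49b2f4_co

open Finset

noncomputable def dig (d n : ℕ) : ℕ := Nat.land (Nat.shiftRight d (Nat.mul 3 n)) 7

noncomputable def can (d k : ℕ) : ℕ → ℕ :=
  Nat.rec (motive := fun _ => ℕ → ℕ) (fun g => g)
    (fun n ih g => ih (swp (dig d (Nat.succ n)) (Nat.succ n) g)) k

noncomputable def canV (d k T : ℕ) : ℕ :=
  Nat.rec (motive := fun _ => ℕ) T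
    (fun n acc => iswD 41 7 (dig d (Nat.succ n)) (Nat.succ n) acc) k

theorem swp_good {x j g : ℕ} (hj : j < 8) (hg : Good g) : Good (swp x j g) := by
  by_cases c : j ≤ x
  · rw [swp_of_le c]; exact hg
  · rw [swp_eq (by omega) hj hg.lt]; exact hg.act (fix_swap (by omega) hj)

theorem swp_blk' {x j m g : ℕ} (hj : j < m) (hm : m ≤ 8) (hg : Good g) :
    swp x j (blk m g) = blk m (swp x j g) := by
  by_cases c : j ≤ x
  · rw [swp_of_le c, swp_of_le c]
  · rw [swp_blk (by omega) hj hm, swp_eq (by omega) (by omega) hg.lt]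

theorem can_good (d : ℕ) : ∀ k, k < 8 → ∀ g, Good g → Good (can d k g) := by
  intro k
  induction k with
  | zero => intro _ g hg; exact hg
  | succ k ih => intro hk g hg; exact ih (by omega) _ (swp_good hk hg)

theorem can_blk (d : ℕ) {m : ℕ} (hm : m ≤ 8) : ∀ k, k < m → ∀ g, Good g →
    can d k (blk m g) = blk m (can d k g) := by
  intro k
  induction k with
  | zero => intro _ g _; rfl
  | succ k ih =>
    intro hk g hg
    have e : ∀ g, can d (k + 1) g = can d k (swp (dig d (k + 1)) (k + 1) g) := fun _ => rfl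
    rw [e, e, swp_blk' hk hm hg, ih (by omega) _ (swp_good (by omega) hg)]

def Inv {α : Type} (F : ℕ → α) (k : ℕ) : Prop :=
  ∀ i j, i < j → j ≤ k → ∀ g, Good g → F (act (Equiv.swap i j) g) = F g

theorem can_inv {α : Type} {F : ℕ → α} (d : ℕ) : ∀ k, k < 8 → Inv F k → ∀ g, Good g →
    F (can d k g) = F g := by
  intro k
  induction k with
  | zero => intro _ _ g _; rfl
  | succ k ih =>
    intro hk hF g hg
    have e : ∀ g, can d (k + 1) g = can d k (swp (dig d (k + 1)) (k + 1) g) := fun _ => rfl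
    rw [e, ih (by omega) (fun i j h1 h2 => hF i j h1 (by omega)) _ (swp_good hk hg)]
    by_cases c : k + 1 ≤ dig d (k + 1)
    · rw [swp_of_le c]
    · rw [swp_eq (by omega) hk hg.lt]; exact hF _ _ (by omega) le_rfl g hg

theorem inv_Sym (c : ℕ → ℤ) {k : ℕ} (hk : k < 8) : Inv (Sym c (k + 1)) k :=
  fun i j h1 h2 g hg => Sym_act c _ hk _ (fix_swap (by omega) (by omega)) g hg.lt

def Idx (ι : ℕ → ℕ) : Prop :=
  ∀ x j, j ≤ 6 → ∀ v g, Good g → fld 41 (iswD 41 7 x j v) (ι g) = fld 41 v (ι (swp x j g))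

theorem l7_facts : ∀ j < 7, ∀ i < j, swL i j l7 = mpL (Equiv.swap i j) l7 := by decide +kernel

theorem idx7 : Idx (gat l7) := by
  intro x j hj v g hg
  have hl : l7.length = 7 := rfl
  rw [iswD_eq]
  split_ifs with c
  · rw [swp_of_le c]
  · rw [swp_eq (by omega) (by omega) hg.lt, gat_act _ (by decide),
      fld_isw_gat (by omega) (by omega) (by omega), l7_facts j (by omega) x (by omega)]

theorem idx128 : Idx (fun _ => 128) := by
  intro x j hj v g _
  rw [iswD_eq]
  split_ifs with c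
  · rfl
  · rw [fld_isw (by omega) (by omega), if_neg (by norm_num)]

theorem canV_bnd {d T B : ℕ} (h : Bnd 41 T B) : ∀ k, k ≤ 6 → Bnd 41 (canV d k T) B := by
  intro k
  induction k with
  | zero => intro _; exact h
  | succ k ih => intro hk; exact (ih (by omega)).iswD (by omega)

theorem canV_fld {ι : ℕ → ℕ} (hι : Idx ι) (d T : ℕ) : ∀ k, k ≤ 6 → ∀ g, Good g →
    fld 41 (canV d k T) (ι g) = fld 41 T (ι (can d k g)) := by
  intro k
  induction k with
  | zero => intro _ g _; rfl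
  | succ k ih =>
    intro hk g hg
    have e : canV d (k + 1) T = iswD 41 7 (dig d (k + 1)) (k + 1) (canV d k T) := rfl
    rw [e, hι _ _ hk _ _ hg, ih (by omega) _ (swp_good (by omega) hg)]; rfl

noncomputable def Bop (X : ℕ → ℕ) (H c : ℕ) : ℕ :=
  sumF 0 7 (fun u => iswD 41 7 u 6 (canV (fl 24 c u) 5 (X (can (fl 24 c u) 5 (swp u 6 H)))))

theorem Bop_spec {X : ℕ → ℕ} {B : ℕ} (hX : ∀ h, Bnd 41 (X h) B) (hB : 7 * B < 2 ^ 41) (c : ℕ) :
    (∀ H, Bnd 41 (Bop X H c) (7 * B)) ∧ ∀ (ι : ℕ → ℕ) (F : ℕ → ℤ) (K : ℤ), Idx ι → Inv F 5 →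
      (∀ g, Good g → (fld 41 (X (blk 7 g)) (ι g) : ℤ) ≤ F g + K) → ∀ g, Good g →
      (fld 41 (Bop X (blk 7 g) c) (ι g) : ℤ) ≤
        ∑ u ∈ range 7, F (act (Equiv.swap u 6) g) + 7 * K := by
  have key := fun H => fld_sumF (W := 41) (B := B) (i := 0)
    (f := fun u => iswD 41 7 u 6 (canV (fl 24 c u) 5 (X (can (fl 24 c u) 5 (swp u 6 H))))) 7
    (fun u _ => (canV_bnd (hX _) 5 (by norm_num)).iswD (by norm_num)) hB
  refine ⟨fun H => (key H).1, fun ι F K hι hF h g hg => ?_⟩
  unfold Bop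
  rw [(key _).2]
  have e : (7 : ℤ) * K = ∑ _u ∈ range 7, K := by simp
  rw [e, ← sum_add_distrib]
  push_cast
  refine sum_le_sum fun u hu => ?_
  rw [mem_range] at hu
  have g1 : Good (swp u 6 g) := swp_good (by norm_num) hg
  rw [if_pos (Nat.zero_le _), hι _ _ le_rfl _ _ hg, canV_fld hι _ _ 5 (by norm_num) _ g1,
    swp_blk' (by norm_num) (by norm_num) hg, can_blk _ (by norm_num) 5 (by norm_num) _ g1,
    ← swp_eq (by omega) (by norm_num) hg.lt, ← can_inv (fl 24 c u) 5 (by norm_num) hF _ g1]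
  exact h _ (can_good _ _ (by norm_num) _ g1)

/-! ### adding a vertex -/

noncomputable def spread (p : ℕ) : ℕ := Nat.land (Nat.mul p 567382630219905) 72340172838076673

noncomputable def cand (n H p : ℕ) : ℕ :=
  Nat.lor H (Nat.lor (Nat.shiftLeft p (Nat.mul 8 n)) (Nat.shiftLeft (spread p) n))

theorem testBit_spread {p : ℕ} (hp : p < 128) (k : ℕ) :
    (spread p).testBit k = (decide (k < 64 ∧ k % 8 = 0) && p.testBit (k / 8)) := by
  by_cases hk : k < 64
  · have : ∀ p < 128, ∀ k < 64,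
      (spread p).testBit k = (decide (k < 64 ∧ k % 8 = 0) && p.testBit (k / 8)) := by
      decide +kernel
    exact this p hp k hk
  · have e : spread p = (p * 567382630219905) &&& 72340172838076673 := rfl
    rw [e, Nat.testBit_and, testBit_col]; simp [hk]

theorem cand_eq {n g : ℕ} (hn : n ≤ 6) (hg : Good g) :
    cand n (blk n g) (gat (List.range' (8 * n) n) g) = blk (n + 1) g := by
  have hp : ∀ k, (gat (List.range' (8 * n) n) g).testBit k = (decide (k < n) && adj g n k) := by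
    intro k
    rw [testBit_gat, List.length_range']
    by_cases e : k < n
    · rw [List.getD_eq_getElem _ _ (by simpa using e)]; simp [adj]
    · simp [e]
  have hlt : gat (List.range' (8 * n) n) g < 128 := by
    refine lt_of_lt_of_le (gat_lt _ _) ?_
    rw [List.length_range']
    exact Nat.pow_le_pow_right (n := 2) (j := 7) (by norm_num) (by omega)
  generalize gat (List.range' (8 * n) n) g = p at *
  have e : cand n (blk n g) p = blk n g ||| (p <<< (8 * n) ||| spread p <<< n) := rfl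
  apply Nat.eq_of_testBit_eq; intro i
  rw [e, Nat.testBit_or, Nat.testBit_or, Nat.testBit_shiftLeft, Nat.testBit_shiftLeft,
    testBit_spread hlt, hp, hp]
  by_cases hi : i < 64
  · rw [testBit_adj, testBit_adj (blk _ _), adj_blk _ _ (by omega) (by omega),
      adj_blk _ _ (by omega) (by omega)]
    obtain ⟨a, b, ha, hb, rfl⟩ : ∃ a b, a < 8 ∧ b < 8 ∧ i = 8 * a + b :=
      ⟨i / 8, i % 8, by omega, by omega, by omega⟩
    have e1 : (8 * a + b) / 8 = a := by omega
    have e2 : (8 * a + b) % 8 = b := by omega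
    rw [e1, e2]
    by_cases c1 : a = n
    · subst c1
      rw [Nat.add_sub_cancel_left]
      by_cases c2 : b = a
      · subst c2
        rw [Nat.add_sub_cancel, hg.irr b ha]; simp
      · have : ¬ (8 * a + b - a < 64 ∧ (8 * a + b - a) % 8 = 0) := by omega
        rw [decide_eq_false this]
        by_cases c3 : b < a
        · simp [c3]; omega
        · simp [c3]; omega
    · have h1 : (decide (8 * a + b ≥ 8 * n) && (decide (8 * a + b - 8 * n < n) &&
          adj g n (8 * a + b - 8 * n))) = false := by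
        by_cases c : 8 * a + b ≥ 8 * n
        · rw [decide_eq_false (p := 8 * a + b - 8 * n < n) (by omega)]; simp
        · simp [c]
      rw [h1]
      by_cases c2 : b = n
      · subst c2
        have e3 : 8 * a / 8 = a := by omega
        rw [Nat.add_sub_cancel, e3, hg.symm b hb a ha]
        by_cases c3 : a < b
        · have : 8 * a < 64 := by omega
          have : a < b + 1 := by omega
          simp [*]
        · simp [c3]; omega
      · have h2 : (decide (8 * a + b ≥ n) && (decide (8 * a + b - n < 64 ∧ (8 * a + b - n) % 8 = 0)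
            && (decide ((8 * a + b - n) / 8 < n) && adj g n ((8 * a + b - n) / 8)))) = false := by
          by_cases c : 8 * a + b ≥ n
          · rw [decide_eq_false (p := 8 * a + b - n < 64 ∧ (8 * a + b - n) % 8 = 0) (by omega)]
            simp
          · simp [c]
        rw [h2]
        have : (a < n ∧ b < n) ↔ (a < n + 1 ∧ b < n + 1) := by omega
        simp only [this, Bool.or_false]
  · have h64 : 2 ^ 64 ≤ 2 ^ i := Nat.pow_le_pow_right (by norm_num) (by omega)
    rw [Nat.testBit_lt_two_pow (lt_of_lt_of_le (blk_lt _ _) h64),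
      Nat.testBit_lt_two_pow (lt_of_lt_of_le (blk_lt _ _) h64),
      decide_eq_false (p := i - 8 * n < n) (by omega),
      decide_eq_false (p := i - n < 64 ∧ (i - n) % 8 = 0) (by omega)]
    simp

noncomputable def comp (n : ℕ) (t : Tr) : ℕ → ℕ → ℕ → List ℕ → Bool := fun k a _ _ =>
  allN (Nat.pow 2 n) (fun p => look t (can (fl 24 a p) n (cand n k p)) (fun _ _ _ _ => true) false)

def Cov (G : ℕ → Prop) (n : ℕ) (t : Tr) : Prop :=
  ∀ g, Good g → ∀ a b s, Mem t (blk n g) a b s → G g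

theorem cov_step {G : ℕ → Prop} (hG : Inv G 6) {n : ℕ} (hn : n ≤ 6) {t t' : Tr}
    (h : allT t (comp n t') = true) (h' : Cov G (n + 1) t') : Cov G n t := by
  intro g hg a b s hm
  have h1 := allN_spec (allT_mem h hm) (gat (List.range' (8 * n) n) g) (by
    have := gat_lt (List.range' (8 * n) n) g
    rwa [List.length_range'] at this)
  rw [cand_eq hn hg, can_blk _ (by omega) n (by omega) _ hg] at h1
  rw [← can_inv (F := G) (fl 24 a (gat (List.range' (8 * n) n) g)) n (by omega)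
    (fun i j h1 h2 => hG i j h1 (by omega)) g hg]
  rcases look_cases t' (blk (n + 1) (can (fl 24 a (gat (List.range' (8 * n) n) g)) n g)) with
    e | ⟨a', b', s', hm', _⟩
  · rw [e] at h1; exact absurd h1 (by simp)
  · exact h' _ (can_good _ _ (by omega) _ hg) _ _ _ hm'

theorem cov_zero {G : ℕ → Prop} {a b : ℕ} {s : List ℕ} (h : Cov G 0 (.lf 0 a b s)) :
    ∀ g, Good g → G g := by
  intro g hg
  refine h g hg a b s ⟨?_, rfl, rfl, rfl⟩
  apply code_ext (by norm_num) (blk_lt _ _)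
  intro x hx y hy
  rw [adj_blk _ _ hx hy]; simp [adj]

/-! ### the tables -/

noncomputable def X6 (t : Tr) (h : ℕ) : ℕ :=
  look t (Nat.add (Nat.mul 64 (Nat.land h 69540876599103)) (bits h 48 63)) (fun _ a _ _ => a) 0

noncomputable def X7 (t : Tr) (h : ℕ) : ℕ := look t h (fun _ _ b _ => b) 0

noncomputable def trn (v : ℕ) : ℕ :=
  isw 41 13 0 7 (isw 41 13 1 8 (isw 41 13 2 9 (isw 41 13 3 10 (isw 41 13 4 11 (isw 41 13 5 12 v)))))

noncomputable def UU (t7 : Tr) (H c : ℕ) : ℕ :=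
  trn (cat (Nat.mul 41 128)
    (fun p => canV (fl 24 c p) 6 (X7 t7 (can (fl 24 c p) 6 (cand 6 H p)))) 6 0)

noncomputable def XU (t7 t6 : Tr) (h : ℕ) : ℕ :=
  look t6 (Nat.land h 69540876599103)
    (fun k a _ _ => fl (Nat.mul 41 128) (UU t7 k a) (bits h 48 63)) 0

noncomputable def chkB (t : Tr) : ℕ → ℕ → ℕ → List ℕ → Bool := fun k a b _ =>
  Nat.beq b (Bop (X6 t) k a)

noncomputable def geq (V : ℕ) : Bool :=
  Nat.beq (Nat.add (Nat.land (Nat.sub V (cst 41 1014686023680 7)) (cst 41 1099511627775 8))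
    (cst 41 1014686023680 7)) V

noncomputable def chkD (t7 t6 : Tr) : ℕ → ℕ → ℕ → List ℕ → Bool := fun k a b _ =>
  cond (geq (Nat.add b (Bop (XU t7 t6) k a))) (Nat.ble 43826872320 (fl 41 b 128)) false

theorem geq_spec {V : ℕ} (h : geq V = true) {i : ℕ} (hi : i < 128) :
    1014686023680 ≤ fld 41 V i := by
  have b1 := bnd_land (bnd_cst (W := 41) (c := 1099511627775) (by norm_num) 8)
    (Nat.sub V (cst 41 1014686023680 7))
  have b2 := bnd_cst (W := 41) (c := 1014686023680) (by norm_num) 7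
  rw [← beq_sp h, Nat.add_eq, b1.fld_add b2 (by norm_num), fld_cst (by norm_num),
    if_pos (show i < 2 ^ 7 from hi)]
  omega

theorem land6 (g : ℕ) : Nat.land (blk 7 g) 69540876599103 = blk 6 g := by
  rw [← blk_blk (n := 6) (m := 7) (by norm_num) g, ← blkM6]; rfl

theorem bits_P6 (g : ℕ) : bits (blk 7 g) 48 63 = gat lP6 g := by
  rw [← gat_blk (n := 7) (l := lP6) (by norm_num) (by decide)]; exact bits_eq _ 48 6

theorem trn_bnd {v B : ℕ} (h : Bnd 41 v B) : Bnd 41 (trn v) B := by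
  unfold trn
  repeat (refine Bnd.isw (by norm_num) (by norm_num) ?_)
  exact h

theorem trn_fld (v : ℕ) {g : ℕ} (hg : Good g) :
    fld 41 (trn v) (gat lF g) = fld 41 v (gat lF (act (Equiv.swap 6 7) g)) := by
  unfold trn
  iterate 6 (rw [fld_isw_gat (by norm_num) (by decide) (by decide)])
  rw [gat_act _ (by decide), gat_nrm (l := mpL _ _) hg]
  congr 2

theorem blk6_swap (g : ℕ) : blk 6 (act (Equiv.swap 6 7) g) = blk 6 g := by
  apply code_ext (blk_lt _ _) (blk_lt _ _)
  intro a ha b hb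
  rw [adj_blk _ _ ha hb, adj_blk _ _ ha hb, adj_act _ _ ha hb]
  by_cases c : a < 6 ∧ b < 6
  · rw [Equiv.swap_apply_of_ne_of_ne (by omega) (by omega),
      Equiv.swap_apply_of_ne_of_ne (by omega) (by omega)]
  · rw [decide_eq_false c]; simp

section
variable {L4 L6 : List Blk}

theorem sym_ge {c : ℕ → ℤ} {K : ℤ} (h : ∀ g, K ≤ c g) {n : ℕ} (hn : n ≤ 8) {g : ℕ}
    (hg : Good g) : n.factorial * K ≤ Sym c n g := by
  rw [← Sym_const K n g]; exact Sym_mono (fun g _ => h g) n hn g hg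

theorem main_chk (h4 : LOK L4 528) (h6 : LOK L6 65) {f6 : ℕ → Bool} {tc t6 t7 : Tr}
    (hA : allT tc (chkA L4 L6 f6) = true) (hB : allT t7 (chkB tc) = true)
    (hD : allT t7 (chkD t7 t6) = true) :
    Cov (fun g => 0 ≤ Sym (c8 L4 L6) 8 g ∧ 0 ≤ Sym (c7 L4 L6) 7 g) 7 t7 := by
  have f6' : (Nat.factorial 6 : ℤ) = 720 := by norm_num [Nat.factorial]
  have f7' : (Nat.factorial 7 : ℤ) = 5040 := by norm_num [Nat.factorial]
  have x6b : ∀ h, Bnd 41 (X6 tc h) 34359738367 := by
    intro h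
    unfold X6
    rcases look_cases tc (Nat.add (Nat.mul 64 (Nat.land h 69540876599103)) (bits h 48 63)) with
      e | ⟨a, b, s, hm, e⟩
    · rw [e]; exact bnd_zero _ _
    · rw [e]; exact (chkA_spec h4 h6 (allT_mem hA hm)).1
  have x6v : ∀ g, Good g →
      (fld 41 (X6 tc (blk 7 g)) (gat l7 g) : ℤ) ≤ Sym (c8 L4 L6) 6 g + 18119393280 ∧
      (fld 41 (X6 tc (blk 7 g)) 128 : ℤ) ≤ Sym (c7 L4 L6) 6 g + 6260981760 := by
    intro g hg
    unfold X6
    rw [land6, bits_P6]
    rcases look_cases tc (Nat.add (Nat.mul 64 (blk 6 g)) (gat lP6 g)) with e | ⟨a, b, s, hm, e⟩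
    · rw [e, fld_zero, fld_zero]
      have q1 := sym_ge (c8_ge h4 h6) (n := 6) (by norm_num) hg
      have q2 := sym_ge (c7_ge h4 h6) (n := 6) (by norm_num) hg
      rw [f6'] at q1 q2
      constructor <;> omega
    · rw [e]; exact (chkA_spec h4 h6 (allT_mem hA hm)).2 g hg rfl
  have t7s : ∀ {k a b s}, Mem t7 k a b s → Bnd 41 b (7 * 34359738367) ∧ ∀ g, Good g →
      blk 7 g = k → (fld 41 b (gat l7 g) : ℤ) ≤ Sym (c8 L4 L6) 7 g + 7 * 18119393280 ∧
      (fld 41 b 128 : ℤ) ≤ Sym (c7 L4 L6) 7 g + 7 * 6260981760 := by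
    intro k a b s hm
    have e : b = Bop (X6 tc) k a := beq_sp (allT_mem hB hm)
    obtain ⟨b1, b2⟩ := Bop_spec x6b (by norm_num) a
    rw [e]
    refine ⟨b1 k, fun g hg hk => ?_⟩
    subst hk
    exact ⟨b2 _ _ _ idx7 (inv_Sym _ (by norm_num)) (fun g hg => (x6v g hg).1) g hg,
      b2 _ _ _ idx128 (inv_Sym _ (by norm_num)) (fun g hg => (x6v g hg).2) g hg⟩
  have x7b : ∀ h, Bnd 41 (X7 t7 h) (7 * 34359738367) := by
    intro h
    unfold X7
    rcases look_cases t7 h with e | ⟨a, b, s, hm, e⟩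
    · rw [e]; exact bnd_zero _ _
    · rw [e]; exact (t7s hm).1
  have dflt : ∀ g, Good g → (0 : ℤ) ≤ Sym (c8 L4 L6) 7 g + 7 * 18119393280 := by
    intro g hg
    have q1 := sym_ge (c8_ge h4 h6) (n := 7) (by norm_num) hg
    rw [f7'] at q1
    omega
  have x7v : ∀ g, Good g →
      (fld 41 (X7 t7 (blk 7 g)) (gat l7 g) : ℤ) ≤ Sym (c8 L4 L6) 7 g + 7 * 18119393280 := by
    intro g hg
    unfold X7
    rcases look_cases t7 (blk 7 g) with e | ⟨a, b, s, hm, e⟩
    · rw [e, fld_zero]; exact dflt g hg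
    · rw [e]; exact ((t7s hm).2 g hg rfl).1
  have uub : ∀ H c, Bnd 41 (UU t7 H c) (7 * 34359738367) := fun H c =>
    trn_bnd (bnd_cat (n := 128) (by norm_num) (fun p => canV_bnd (x7b _) 6 le_rfl) _)
  have xub : ∀ h, Bnd 41 (XU t7 t6 h) (7 * 34359738367) := by
    intro h
    unfold XU
    rcases look_cases t6 (Nat.land h 69540876599103) with e | ⟨a, b, s, _, e⟩
    · rw [e]; exact bnd_zero _ _
    · rw [e, fl_eq]; exact (uub _ _).fld _
  have s67 : Fix 8 (Equiv.swap 6 7) := fix_swap (by norm_num) (by norm_num)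
  have xuv : ∀ g, Good g → (fld 41 (XU t7 t6 (blk 7 g)) (gat l7 g) : ℤ) ≤
      Sym (c8 L4 L6) 7 (act (Equiv.swap 6 7) g) + 7 * 18119393280 := by
    intro g hg
    have hg' := hg.act s67
    unfold XU
    rw [land6, bits_P6]
    rcases look_cases t6 (blk 6 g) with e | ⟨a, b, s, _, e⟩
    · rw [e, fld_zero]; exact dflt _ hg'
    · rw [e, fl_eq, Nat.mul_eq, fld_fld, if_pos (show gat l7 g < 128 from gat_lt l7 g), ← gat_lF]
      unfold UU
      rw [trn_fld _ hg, ← blk6_swap]
      generalize act (Equiv.swap 6 7) g = h at *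
      rw [gat_lF, Nat.mul_eq, fld_cat2 41 128 _ 6 _ _ (gat_lt lP6 h) (gat_lt l7 h),
        canV_fld idx7 _ _ 6 le_rfl _ hg']
      have e2 : cand 6 (blk 6 h) (gat lP6 h) = blk 7 h := cand_eq le_rfl hg'
      rw [e2, can_blk _ (by norm_num) 6 (by norm_num) _ hg',
        ← can_inv (fl 24 a (gat lP6 h)) 6 (by norm_num) (inv_Sym (c8 L4 L6) (by norm_num)) _ hg']
      exact x7v _ (can_good _ _ (by norm_num) _ hg')
  have finv : Inv (fun g => Sym (c8 L4 L6) 7 (act (Equiv.swap 6 7) g)) 5 := by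
    intro i j h1 h2 g _
    have sij : Fix 7 (Equiv.swap i j) := fix_swap (by omega) (by omega)
    show Sym _ 7 (act _ (act _ g)) = Sym _ 7 (act _ g)
    rw [act_act s67, Equiv.mul_swap_eq_swap_mul,
      Equiv.swap_apply_of_ne_of_ne (by omega) (by omega),
      Equiv.swap_apply_of_ne_of_ne (by omega) (by omega), ← act_act (sij.mono (by norm_num)),
      Sym_act _ 7 (by norm_num) _ sij _ (act_lt _ _)]
  intro g hg a b s hm
  obtain ⟨d1, d2⟩ := band (allT_mem hD hm)
  obtain ⟨bb, hv⟩ := t7s hm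
  obtain ⟨v1, v2⟩ := hv g hg rfl
  obtain ⟨b1, b2⟩ := Bop_spec xub (by norm_num) a
  have v3 := b2 _ _ _ idx7 finv xuv g hg
  have v4 := geq_spec d1 (gat_lt l7 g)
  rw [Nat.add_eq, bb.fld_add (b1 _) (by norm_num)] at v4
  have v5 := ble_sp d2
  rw [fl_eq] at v5
  have e8 : Sym (c8 L4 L6) 8 g = ∑ u ∈ range 7, Sym (c8 L4 L6) 7 (act (Equiv.swap 6 7)
      (act (Equiv.swap u 6) g)) + Sym (c8 L4 L6) 7 g := by
    have : Sym (c8 L4 L6) 8 g = ∑ u ∈ range 8, Sym (c8 L4 L6) 7 (act (Equiv.swap u 7) g) := rfl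
    rw [this, sum_range_succ, act_id (π := Equiv.swap 7 7) (by simp) hg.lt]
    refine congrArg (fun z => z + Sym (c8 L4 L6) 7 g) (sum_congr rfl fun u hu => ?_)
    rw [mem_range] at hu
    have su : Fix 7 (Equiv.swap u 6) := fix_swap hu (by norm_num)
    rw [act_act s67, Equiv.mul_swap_eq_swap_mul, Equiv.swap_apply_right,
      Equiv.swap_apply_of_ne_of_ne (by omega) (by omega), ← act_act (su.mono (by norm_num)),
      Sym_act _ 7 (by norm_num) _ su _ (act_lt _ _)]
  constructor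
  · rw [e8]; omega
  · omega

theorem goal_inv : Inv (fun g => 0 ≤ Sym (c8 L4 L6) 8 g ∧ 0 ≤ Sym (c7 L4 L6) 7 g) 6 := by
  intro i j h1 h2 g hg
  have s : Fix 7 (Equiv.swap i j) := fix_swap (by omega) (by omega)
  show (0 ≤ Sym _ 8 (act _ g) ∧ 0 ≤ Sym _ 7 (act _ g)) = _
  rw [Sym_act _ 7 (by norm_num) _ s _ hg.lt, Sym_act _ 8 le_rfl _ (s.mono (by norm_num)) _ hg.lt]

end

end Pool.Agent.Lib.MP_49b2f4_co
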