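import Mathlib.Data.Nat.Bitwise
import Mathlib.Data.Nat.ModEq
import Mathlib.Tactic.Ring
import Mathlib.Tactic.Linarith
import Mathlib.Tactic.NormNum
import Mathlib.Tactic.Positivity

/-! Vectors of small naturals packed into one natural number. -/

namespace Pool.Agent.Lib.MP_49b2f4_co

/-- field number `i` of width `W` -/
def fld (W v i : ℕ) : ℕ := (v >>> (W * i)) % 2 ^ W

def Bnd (W v B : ℕ) : Prop := ∀ i, fld W v i ≤ B

theorem testBit_fld (W v i r : ℕ) :
    (fld W v i).testBit r = (decide (r < W) && v.testBit (W * i + r)) := by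
  unfold fld
  rw [Nat.testBit_mod_two_pow, Nat.testBit_shiftRight]

theorem fld_lt (W v i : ℕ) : fld W v i < 2 ^ W := Nat.mod_lt _ (by positivity)

theorem fld_zero (W i : ℕ) : fld W 0 i = 0 := by simp [fld]

theorem fld_or (W u v i : ℕ) : fld W (u ||| v) i = fld W u i ||| fld W v i := by
  apply Nat.eq_of_testBit_eq; intro r
  simp only [testBit_fld, Nat.testBit_or]; cases decide (r < W) <;> simp

theorem fld_xor (W u v i : ℕ) : fld W (u ^^^ v) i = fld W u i ^^^ fld W v i := by
  apply Nat.eq_of_testBit_eq; intro r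
  simp only [testBit_fld, Nat.testBit_xor]; cases decide (r < W) <;> simp

theorem fld_and (W u v i : ℕ) : fld W (u &&& v) i = fld W u i &&& fld W v i := by
  apply Nat.eq_of_testBit_eq; intro r
  simp only [testBit_fld, Nat.testBit_and]; cases decide (r < W) <;> simp

theorem fld_shr (W v n i : ℕ) : fld W (v >>> (W * n)) i = fld W v (n + i) := by
  apply Nat.eq_of_testBit_eq; intro r
  simp only [testBit_fld, Nat.testBit_shiftRight]
  rw [Nat.mul_add, Nat.add_assoc]

theorem fld_shl (W v n i : ℕ) :
    fld W (v <<< (W * n)) i = if n ≤ i then fld W v (i - n) else 0 := by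
  apply Nat.eq_of_testBit_eq; intro r
  rw [testBit_fld, Nat.testBit_shiftLeft]
  by_cases hr : r < W
  · by_cases h : n ≤ i
    · rw [if_pos h, testBit_fld]
      obtain ⟨k, rfl⟩ := Nat.exists_eq_add_of_le h
      have e1 : W * (n + k) + r ≥ W * n := by rw [Nat.mul_add]; omega
      have e2 : W * (n + k) + r - W * n = W * (n + k - n) + r := by
        rw [Nat.add_sub_cancel_left, Nat.mul_add]; omega
      simp [hr, e1, e2]
    · rw [if_neg h]
      have : W * (i + 1) ≤ W * n := Nat.mul_le_mul_left _ (by omega)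
      have e1 : ¬ (W * i + r ≥ W * n) := by rw [Nat.mul_add] at this; omega
      simp [e1]
  · by_cases h : n ≤ i
    · rw [if_pos h, testBit_fld]; simp [hr]
    · rw [if_neg h]; simp [hr]

theorem fld_mod (W v n i : ℕ) :
    fld W (v % 2 ^ (W * n)) i = if i < n then fld W v i else 0 := by
  apply Nat.eq_of_testBit_eq; intro r
  rw [testBit_fld, Nat.testBit_mod_two_pow]
  by_cases hr : r < W
  · by_cases h : i < n
    · rw [if_pos h, testBit_fld]
      have : W * (i + 1) ≤ W * n := Nat.mul_le_mul_left _ (by omega)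
      have e1 : W * i + r < W * n := by rw [Nat.mul_add] at this; omega
      simp [hr, e1]
    · rw [if_neg h]
      have : W * n ≤ W * i := Nat.mul_le_mul_left _ (by omega)
      have e1 : ¬ (W * i + r < W * n) := by omega
      simp [e1]
  · by_cases h : i < n
    · rw [if_pos h, testBit_fld]; simp [hr]
    · rw [if_neg h]; simp [hr]

theorem fld_small {W v : ℕ} (h : v < 2 ^ W) (i : ℕ) : fld W v i = if i = 0 then v else 0 := by
  by_cases hi : i = 0
  · subst hi; simp [fld, Nat.mod_eq_of_lt h]
  · rw [if_neg hi]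
    have h1 : 2 ^ W ≤ 2 ^ (W * i) := Nat.pow_le_pow_right (by norm_num)
      (Nat.le_mul_of_pos_right _ (by omega))
    unfold fld
    rw [Nat.shiftRight_eq_div_pow, Nat.div_eq_of_lt (by omega)]; simp

theorem fld_add {W u v : ℕ} (h : ∀ i, fld W u i + fld W v i < 2 ^ W) (i : ℕ) :
    fld W (u + v) i = fld W u i + fld W v i := by
  have key : ∀ i, (u + v) / 2 ^ (W * i) = u / 2 ^ (W * i) + v / 2 ^ (W * i) := by
    intro i
    induction i with
    | zero => simp
    | succ i ih =>
      have hi := h i
      unfold fld at hi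
      rw [Nat.shiftRight_eq_div_pow, Nat.shiftRight_eq_div_pow] at hi
      rw [Nat.mul_succ, pow_add, ← Nat.div_div_eq_div_mul, ← Nat.div_div_eq_div_mul,
        ← Nat.div_div_eq_div_mul, ih, Nat.add_div_eq_of_add_mod_lt hi]
  have hi := h i
  unfold fld at hi ⊢
  simp only [Nat.shiftRight_eq_div_pow] at hi ⊢
  rw [key, Nat.add_mod_of_add_mod_lt hi]

theorem Bnd.fld_add {W u v A B : ℕ} (hu : Bnd W u A) (hv : Bnd W v B) (h : A + B < 2 ^ W)
    (i : ℕ) : fld W (u + v) i = fld W u i + fld W v i :=
  Pool.Agent.Lib.MP_49b2f4_co.fld_add (fun j => by have := hu j; have := hv j; omega) i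

theorem Bnd.add {W u v A B : ℕ} (hu : Bnd W u A) (hv : Bnd W v B) (h : A + B < 2 ^ W) :
    Bnd W (u + v) (A + B) := fun i => by
  rw [hu.fld_add hv h]; exact Nat.add_le_add (hu i) (hv i)

theorem Bnd.mono {W u A B : ℕ} (hu : Bnd W u A) (h : A ≤ B) : Bnd W u B :=
  fun i => (hu i).trans h

theorem bnd_zero (W B : ℕ) : Bnd W 0 B := fun i => by rw [fld_zero]; exact Nat.zero_le _

theorem Bnd.mul_aux {W v B : ℕ} (hv : Bnd W v B) (c : ℕ) (h : c * B < 2 ^ W) :
    ∀ i, fld W (c * v) i = c * fld W v i := by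
  induction c with
  | zero => intro i; simp [fld_zero]
  | succ c ih =>
    intro i
    have h' : c * B < 2 ^ W := by rw [Nat.succ_mul] at h; omega
    have hb : Bnd W (c * v) (c * B) := fun j => by
      rw [ih h' j]; exact Nat.mul_le_mul_left _ (hv j)
    rw [Nat.succ_mul, hb.fld_add hv (by rw [Nat.succ_mul] at h; exact h), ih h', Nat.succ_mul]

theorem Bnd.mul {W v B : ℕ} (hv : Bnd W v B) (c : ℕ) (h : c * B < 2 ^ W) :
    Bnd W (c * v) (c * B) := fun i => by
  rw [hv.mul_aux c h]; exact Nat.mul_le_mul_left _ (hv i)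

/-! ### exchanging fields at distance `d` -/

noncomputable def dsw (d M v : ℕ) : ℕ :=
  Nat.xor (Nat.xor v (Nat.land (Nat.xor (Nat.shiftRight v d) v) M))
    (Nat.shiftLeft (Nat.land (Nat.xor (Nat.shiftRight v d) v) M) d)

theorem dsw_eq (d M v : ℕ) : dsw d M v =
    (v ^^^ (((v >>> d) ^^^ v) &&& M)) ^^^ ((((v >>> d) ^^^ v) &&& M) <<< d) := rfl

theorem fld_dsw {W M δ : ℕ} {P : ℕ → Prop} [DecidablePred P]
    (hM : ∀ i, fld W M i = if P i then 2 ^ W - 1 else 0) (hP : ∀ i, P i → ¬ P (i + δ))
    (v i : ℕ) :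
    fld W (dsw (W * δ) M v) i =
      fld W v (if P i then i + δ else if δ ≤ i ∧ P (i - δ) then i - δ else i) := by
  have hand : ∀ j k, (fld W v j ^^^ fld W v k) &&& (2 ^ W - 1) = fld W v j ^^^ fld W v k := by
    intro j k
    rw [Nat.and_two_pow_sub_one_eq_mod]
    exact Nat.mod_eq_of_lt (Nat.xor_lt_two_pow (fld_lt _ _ _) (fld_lt _ _ _))
  rw [dsw_eq, fld_xor, fld_xor, fld_shl, fld_and, fld_xor, fld_shr, hM]
  by_cases h1 : P i
  · rw [if_pos h1, if_pos h1, hand]
    by_cases h2 : δ ≤ i
    · have : ¬ P (i - δ) := fun h => hP _ h (by rwa [Nat.sub_add_cancel h2])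
      rw [if_pos h2, fld_and, hM, if_neg this, Nat.and_zero, Nat.xor_zero, Nat.xor_comm (fld W v (δ + i)),
        ← Nat.xor_assoc, Nat.xor_self, Nat.zero_xor, Nat.add_comm]
    · rw [if_neg h2, Nat.xor_zero, Nat.xor_comm (fld W v (δ + i)),
        ← Nat.xor_assoc, Nat.xor_self, Nat.zero_xor, Nat.add_comm]
  · rw [if_neg h1, if_neg h1, Nat.and_zero, Nat.xor_zero]
    by_cases h2 : δ ≤ i
    · rw [if_pos h2, fld_and, hM, fld_xor, fld_shr, Nat.add_sub_cancel' h2]
      by_cases h3 : P (i - δ)
      · rw [if_pos h3, if_pos ⟨h2, h3⟩, hand, ← Nat.xor_assoc, Nat.xor_self, Nat.zero_xor]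
      · rw [if_neg h3, if_neg (fun h => h3 h.2), Nat.and_zero, Nat.xor_zero]
    · rw [if_neg h2, if_neg (fun h => h2 h.1), Nat.xor_zero]

/-! ### masks -/

/-- fields equal to `c` at the indices `i < 2 ^ l` with bit `a` set and bit `b` clear -/
noncomputable def mk (W c a b l : ℕ) : ℕ :=
  Nat.rec (motive := fun _ => ℕ) c
    (fun l m => cond (Nat.beq l a) (Nat.shiftLeft m (Nat.mul W (Nat.pow 2 l)))
      (cond (Nat.beq l b) m (Nat.lor m (Nat.shiftLeft m (Nat.mul W (Nat.pow 2 l)))))) l

theorem mk_succ (W c a b l : ℕ) : mk W c a b (l + 1) =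
    cond (Nat.beq l a) (mk W c a b l <<< (W * 2 ^ l))
      (cond (Nat.beq l b) (mk W c a b l) (mk W c a b l ||| (mk W c a b l <<< (W * 2 ^ l)))) := rfl

def MkP (a b l i : ℕ) : Prop :=
  i < 2 ^ l ∧ (a < l → i.testBit a = true) ∧ (b < l → b ≠ a → i.testBit b = false)

instance (a b l i : ℕ) : Decidable (MkP a b l i) := by unfold MkP; infer_instance

theorem testBit_sub_pow {l i : ℕ} (h1 : 2 ^ l ≤ i) (k : ℕ) (hk : k < l) :
    (i - 2 ^ l).testBit k = i.testBit k := by
  obtain ⟨j, rfl⟩ := Nat.exists_eq_add_of_le h1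
  rw [Nat.add_sub_cancel_left, Nat.testBit_two_pow_add_gt hk]

theorem testBit_top {l i : ℕ} (h2 : i < 2 ^ (l + 1)) : i.testBit l = decide (2 ^ l ≤ i) := by
  by_cases h1 : 2 ^ l ≤ i
  · obtain ⟨j, rfl⟩ := Nat.exists_eq_add_of_le h1
    have : j < 2 ^ l := by rw [pow_succ] at h2; omega
    rw [Nat.testBit_two_pow_add_eq, Nat.testBit_lt_two_pow this]; simp
  · rw [Nat.testBit_lt_two_pow (by omega)]; simp [h1]

theorem MkP_succ_low {a b l i : ℕ} (h : i < 2 ^ l) :
    MkP a b (l + 1) i ↔ l ≠ a ∧ MkP a b l i := by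
  have ht : i.testBit l = false := Nat.testBit_lt_two_pow h
  have h2 : i < 2 ^ (l + 1) := by rw [pow_succ]; omega
  constructor
  · rintro ⟨_, ha, hb⟩
    refine ⟨?_, h, fun h' => ha (by omega), fun h' => hb (by omega)⟩
    rintro rfl
    rw [ha (by omega)] at ht; exact absurd ht (by simp)
  · rintro ⟨hne, _, ha, hb⟩
    refine ⟨h2, fun h' => ha (by omega), fun h' h'' => ?_⟩
    by_cases e : b = l
    · rw [e]; exact ht
    · exact hb (by omega) h''

theorem MkP_succ_high {a b l i : ℕ} (h : 2 ^ l ≤ i) :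
    MkP a b (l + 1) i ↔ (l = a ∨ l ≠ b) ∧ MkP a b l (i - 2 ^ l) := by
  constructor
  · rintro ⟨h2, ha, hb⟩
    have ht : i.testBit l = true := by rw [testBit_top h2]; simp [h]
    refine ⟨?_, by rw [pow_succ] at h2; omega, fun h' => ?_, fun h' h'' => ?_⟩
    · by_cases e : l = a
      · exact Or.inl e
      · right; rintro rfl
        rw [hb (by omega) e] at ht; exact absurd ht (by simp)
    · rw [testBit_sub_pow h _ h']; exact ha (by omega)
    · rw [testBit_sub_pow h _ h']; exact hb (by omega) h''
  · rintro ⟨hne, h2, ha, hb⟩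
    have h2' : i < 2 ^ (l + 1) := by rw [pow_succ]; omega
    have ht : i.testBit l = true := by rw [testBit_top h2']; simp [h]
    refine ⟨h2', fun h' => ?_, fun h' h'' => ?_⟩
    · by_cases e : a = l
      · rw [e]; exact ht
      · rw [← testBit_sub_pow h _ (by omega)]; exact ha (by omega)
    · have e : b ≠ l := by rintro rfl; rcases hne with h3 | h3 <;> omega
      rw [← testBit_sub_pow h _ (by omega)]; exact hb (by omega) h''

theorem fld_mk {W c : ℕ} (hc : c < 2 ^ W) (a b l : ℕ) :
    ∀ i, fld W (mk W c a b l) i = if MkP a b l i then c else 0 := by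
  induction l with
  | zero =>
    intro i
    have : mk W c a b 0 = c := rfl
    rw [this, fld_small hc]
    have : MkP a b 0 i ↔ i = 0 := by simp [MkP]
    simp only [this]
  | succ l ih =>
    intro i
    rw [mk_succ]
    by_cases hi : 2 ^ l ≤ i
    · have h0 : ¬ MkP a b l i := fun h => by have := h.1; omega
      simp only [MkP_succ_high hi]
      by_cases e1 : l = a
      · have : Nat.beq l a = true := by simp [e1]
        rw [this, cond_true, fld_shl, if_pos hi, ih]; simp [e1]
      · have : Nat.beq l a = false := by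
          cases h : Nat.beq l a
          · rfl
          · exact absurd (Nat.eq_of_beq_eq_true h) e1
        rw [this, cond_false]
        by_cases e2 : l = b
        · have : Nat.beq l b = true := by simp [e2]
          rw [this, cond_true, ih, if_neg h0, if_neg (by rintro ⟨h | h, _⟩ <;> omega)]
        · have : Nat.beq l b = false := by
            cases h : Nat.beq l b
            · rfl
            · exact absurd (Nat.eq_of_beq_eq_true h) e2
          rw [this, cond_false, fld_or, fld_shl, if_pos hi, ih, ih, if_neg h0]; simp [e2]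
    · have hi' : i < 2 ^ l := by omega
      simp only [MkP_succ_low hi']
      by_cases e1 : l = a
      · have : Nat.beq l a = true := by simp [e1]
        rw [this, cond_true, fld_shl, if_neg hi]; simp [e1]
      · have : Nat.beq l a = false := by
          cases h : Nat.beq l a
          · rfl
          · exact absurd (Nat.eq_of_beq_eq_true h) e1
        rw [this, cond_false]
        cases Nat.beq l b
        · rw [cond_false, fld_or, fld_shl, if_neg hi, ih]; simp [e1]
        · rw [cond_true, ih]; simp [e1]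

theorem bnd_mk {W c : ℕ} (hc : c < 2 ^ W) (a b l : ℕ) : Bnd W (mk W c a b l) c := fun i => by
  rw [fld_mk hc]; split_ifs <;> omega

/-! ### exchanging two bits of the index -/

theorem add_eq_xor_of_and (x : ℕ) : ∀ y : ℕ, x &&& y = 0 → x + y = x ^^^ y := by
  induction x using Nat.strong_induction_on with
  | _ x ih =>
    intro y h
    by_cases hx : x = 0
    · subst hx; simp
    have h2 : (x / 2) &&& (y / 2) = 0 := by rw [← Nat.and_div_two, h]
    have ih' := ih (x / 2) (by omega) (y / 2) h2
    have e1 : (x ^^^ y) / 2 = x / 2 + y / 2 := by rw [Nat.xor_div_two, ih']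
    have e2 : ¬ (x % 2 = 1 ∧ y % 2 = 1) := by
      rw [← Nat.and_mod_two_eq_one, h]; norm_num
    have e3 := @Nat.xor_mod_two_eq_one x y
    have e4 := Nat.div_add_mod (x ^^^ y) 2
    generalize x ^^^ y = z at *
    by_cases hz : z % 2 = 1
    · have := e3.1 hz
      by_cases hx1 : x % 2 = 1 <;> by_cases hy1 : y % 2 = 1 <;> simp [hx1, hy1] at e2 this <;> omega
    · have : (x % 2 = 1 ↔ y % 2 = 1) := by
        by_contra hc; exact hz (e3.2 hc)
      by_cases hx1 : x % 2 = 1 <;> by_cases hy1 : y % 2 = 1 <;> simp [hx1, hy1] at e2 this <;> omega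

theorem add_pow_eq_xor {i k : ℕ} (h : i.testBit k = false) : i + 2 ^ k = i ^^^ 2 ^ k := by
  apply add_eq_xor_of_and
  apply Nat.eq_of_testBit_eq; intro r
  rw [Nat.testBit_and, Nat.testBit_two_pow]
  by_cases e : k = r
  · subst e; simp [h]
  · simp [e]

theorem sub_pow_eq_xor {i k : ℕ} (h : i.testBit k = true) : (i ^^^ 2 ^ k) + 2 ^ k = i := by
  rw [add_pow_eq_xor (by simp [Nat.testBit_xor, h]), Nat.xor_assoc, Nat.xor_self, Nat.xor_zero]

/-- the index map that exchanges bits `a` and `b` -/
def bsw (a b i : ℕ) : ℕ := if i.testBit a = i.testBit b then i else (i ^^^ 2 ^ a) ^^^ 2 ^ b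

theorem testBit_bsw {a b : ℕ} (hab : a ≠ b) (i k : ℕ) :
    (bsw a b i).testBit k = i.testBit (if k = a then b else if k = b then a else k) := by
  unfold bsw
  by_cases h : i.testBit a = i.testBit b
  · rw [if_pos h]
    by_cases e1 : k = a
    · simp [e1, h]
    · by_cases e2 : k = b
      · subst e2; simp [e1, h]
      · simp [e1, e2]
  · rw [if_neg h, Nat.testBit_xor, Nat.testBit_xor, Nat.testBit_two_pow, Nat.testBit_two_pow]
    by_cases e1 : k = a
    · subst e1
      have : ¬ b = k := fun e => hab e.symm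
      cases h1 : i.testBit k <;> cases h2 : i.testBit b <;> simp_all
    · by_cases e2 : k = b
      · subst e2
        cases h1 : i.testBit k <;> cases h2 : i.testBit a <;> simp_all
      · have : ¬ a = k := fun e => e1 e.symm
        have : ¬ b = k := fun e => e2 e.symm
        simp [*]

/-- exchange bits `a < b` of the index, for indices below `2 ^ L` -/
noncomputable def isw (W L a b v : ℕ) : ℕ :=
  dsw (Nat.mul W (Nat.sub (Nat.pow 2 b) (Nat.pow 2 a))) (mk W (Nat.sub (Nat.pow 2 W) 1) a b L) v

theorem fld_isw {W L a b : ℕ} (hab : a < b) (hb : b < L) (v i : ℕ) :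
    fld W (isw W L a b v) i = fld W v (if i < 2 ^ L then bsw a b i else i) := by
  have hpow : 2 ^ a < 2 ^ b := Nat.pow_lt_pow_right (by norm_num) hab
  have hP : ∀ i, MkP a b L i ↔ i < 2 ^ L ∧ i.testBit a = true ∧ i.testBit b = false := by
    intro i
    constructor
    · rintro ⟨h1, h2, h3⟩; exact ⟨h1, h2 (by omega), h3 hb (by omega)⟩
    · rintro ⟨h1, h2, h3⟩; exact ⟨h1, fun _ => h2, fun _ _ => h3⟩
  have hup : ∀ i, i.testBit a = true → i.testBit b = false →
      i + (2 ^ b - 2 ^ a) = (i ^^^ 2 ^ a) ^^^ 2 ^ b := by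
    intro i h1 h2
    have e1 := sub_pow_eq_xor h1
    have e2 : (i ^^^ 2 ^ a) + 2 ^ b = (i ^^^ 2 ^ a) ^^^ 2 ^ b := by
      apply add_pow_eq_xor
      rw [Nat.testBit_xor, Nat.testBit_two_pow, h2]; simp; omega
    omega
  have hlt : ∀ i, i < 2 ^ L → (i ^^^ 2 ^ a) ^^^ 2 ^ b < 2 ^ L := fun i h =>
    Nat.xor_lt_two_pow (Nat.xor_lt_two_pow h (Nat.pow_lt_pow_right (by norm_num) (by omega)))
      (Nat.pow_lt_pow_right (by norm_num) hb)
  have h0 : isw W L a b v = dsw (W * (2 ^ b - 2 ^ a)) (mk W (2 ^ W - 1) a b L) v := rfl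
  rw [h0, fld_dsw (P := MkP a b L) (fld_mk (by have : 0 < 2 ^ W := by positivity
                                               omega) a b L)]
  · congr 1
    by_cases h1 : MkP a b L i
    · rw [if_pos h1]
      obtain ⟨h2, h3, h4⟩ := (hP i).1 h1
      rw [if_pos h2, hup i h3 h4, bsw, if_neg (by simp [h3, h4])]
    · rw [if_neg h1]
      by_cases h5 : 2 ^ b - 2 ^ a ≤ i ∧ MkP a b L (i - (2 ^ b - 2 ^ a))
      · rw [if_pos h5]
        obtain ⟨h2, h3, h4⟩ := (hP _).1 h5.2
        have e := hup _ h3 h4
        rw [Nat.sub_add_cancel h5.1] at e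
        generalize i - (2 ^ b - 2 ^ a) = j at *
        have hi : i < 2 ^ L := by rw [e]; exact hlt j h2
        have ta : i.testBit a = false := by
          rw [e, Nat.testBit_xor, Nat.testBit_xor, Nat.testBit_two_pow, Nat.testBit_two_pow, h3]
          simp; omega
        have tb : i.testBit b = true := by
          rw [e, Nat.testBit_xor, Nat.testBit_xor, Nat.testBit_two_pow, Nat.testBit_two_pow, h4]
          simp; omega
        rw [if_pos hi, bsw, if_neg (by simp [ta, tb]), e]
        apply Nat.eq_of_testBit_eq; intro r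
        simp only [Nat.testBit_xor]
        cases j.testBit r <;> cases (2 ^ a).testBit r <;> cases (2 ^ b).testBit r <;> rfl
      · rw [if_neg h5]
        by_cases hi : i < 2 ^ L
        · rw [if_pos hi, bsw]
          by_cases e : i.testBit a = i.testBit b
          · rw [if_pos e]
          · exfalso
            cases ta : i.testBit a
            · have tb : i.testBit b = true := by
                cases tb : i.testBit b
                · rw [ta, tb] at e; exact absurd rfl e
                · rfl
              set j := (i ^^^ 2 ^ a) ^^^ 2 ^ b with hj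
              have ja : j.testBit a = true := by
                rw [hj, Nat.testBit_xor, Nat.testBit_xor, Nat.testBit_two_pow,
                  Nat.testBit_two_pow, ta]
                simp; omega
              have jb : j.testBit b = false := by
                rw [hj, Nat.testBit_xor, Nat.testBit_xor, Nat.testBit_two_pow,
                  Nat.testBit_two_pow, tb]
                simp; omega
              have e2 := hup j ja jb
              have e3 : (j ^^^ 2 ^ a) ^^^ 2 ^ b = i := by
                rw [hj]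
                apply Nat.eq_of_testBit_eq; intro r
                simp only [Nat.testBit_xor]
                cases i.testBit r <;> cases (2 ^ a).testBit r <;> cases (2 ^ b).testBit r <;> rfl
              rw [e3] at e2
              apply h5
              refine ⟨by omega, ?_⟩
              have : i - (2 ^ b - 2 ^ a) = j := by omega
              rw [this]; exact (hP j).2 ⟨hlt i hi, ja, jb⟩
            · have tb : i.testBit b = false := by
                cases tb : i.testBit b
                · rfl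
                · rw [ta, tb] at e; exact absurd rfl e
              exact h1 ((hP i).2 ⟨hi, ta, tb⟩)
        · rw [if_neg hi]
  · intro j hj hj'
    obtain ⟨_, h3, h4⟩ := (hP _).1 hj
    obtain ⟨_, h5, _⟩ := (hP _).1 hj'
    rw [hup j h3 h4, Nat.testBit_xor, Nat.testBit_xor, Nat.testBit_two_pow, Nat.testBit_two_pow,
      h3] at h5
    have : ¬ b = a := by omega
    simp [this] at h5

theorem Bnd.isw {W L a b v B : ℕ} (hab : a < b) (hb : b < L) (h : Bnd W v B) :
    Bnd W (isw W L a b v) B := fun i => by rw [fld_isw hab hb]; exact h _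

/-- keep the first `2 ^ l` fields and repeat them once -/
noncomputable def dup (W l v : ℕ) : ℕ :=
  Nat.lor (Nat.mod v (Nat.pow 2 (Nat.mul W (Nat.pow 2 l))))
    (Nat.shiftLeft (Nat.mod v (Nat.pow 2 (Nat.mul W (Nat.pow 2 l)))) (Nat.mul W (Nat.pow 2 l)))

theorem fld_dup (W l v i : ℕ) :
    fld W (dup W l v) i = if i < 2 ^ (l + 1) then fld W v (i % 2 ^ l) else 0 := by
  have h0 : dup W l v = (v % 2 ^ (W * 2 ^ l)) ||| ((v % 2 ^ (W * 2 ^ l)) <<< (W * 2 ^ l)) := rfl
  rw [h0, fld_or, fld_shl, fld_mod, fld_mod, pow_succ]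
  by_cases h1 : i < 2 ^ l
  · rw [if_pos h1, if_neg (by omega), if_pos (by omega), Nat.mod_eq_of_lt h1, Nat.or_zero]
  · rw [if_neg h1, if_pos (by omega), Nat.zero_or]
    by_cases h2 : i < 2 ^ l * 2
    · rw [if_pos (by omega), if_pos h2, Nat.mod_eq_sub_mod (by omega), Nat.mod_eq_of_lt (by omega)]
    · rw [if_neg (by omega), if_neg h2]

theorem Bnd.dup {W l v B : ℕ} (h : Bnd W v B) : Bnd W (dup W l v) B := fun i => by
  rw [fld_dup]; split_ifs
  · exact h _
  · exact Nat.zero_le _

end Pool.Agent.Lib.MP_49b2f4_co
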